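/-
ROW Itp. Interpolation inequalities. PROOF. For a nonnegative measurable `g` with all integrals finite, Hölder's inequality
(`integral_mul_le_Lp_mul_Lq_of_nonneg`, conjugate exponents `p, q`) applied to `g² = g^(α/p) g^(6/q)` with `α/p + 6/q = 2`:
itp4 (`g = V²`, `α = 3/4`, `p = 21/16`, `q = 21/5`: `(3/4)(16/21) + 6 (5/21) = 12/21 + 30/21 = 2`): `∫ V⁴ ≤ (∫ |V|^(3/2))^(16/21) (∫ (V²)⁶)^(5/21)`, and
`(∫ (V²)⁶)^(5/21) = ((∫ (V²)⁶)^(1/3))^(5/7) ≤ (SB ∫ gsq (V²))^(5/7) = (4 SB ∫ V² gsq V)^(5/7)` (SB_spec for `G = V²`, comp_DB, comp_gsq; Real.rpow_mul).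
itp2 (`g = |f|`, `α = 1`, `p = 5/4`, `q = 5`: `4/5 + 6/5 = 2`): `∫ f² ≤ (∫ |f|)^(4/5) (∫ f⁶)^(1/5)`, `(∫ f⁶)^(1/5) = ((∫ f⁶)^(1/3))^(3/5) ≤ (SB ∫ gsq f)^(3/5)`.
good_time: if `φ ≥ 0` is interval integrable on `[t/2, t]` with integral `≤ A`, there is `s ∈ [t/2, t]` with `φ s ≤ 2 A / t` (otherwise integrate the strict inequality;
`intervalIntegral.intervalIntegral_pos_of_pos_on`, or use that a function which is everywhere `> c` has integral `> c (t/2)`; it is enough to argue by contradiction with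
`∃ s, φ s ≤ average`: `MeasureTheory.exists_le_average` or `exists_le_setAverage`).
solve7: `Y ≤ g B (D Y)^(5/7)` with `Y, g, B, D ≥ 0` gives `Y ≤ (g B)^(7/2) D^(5/2)`: if `Y > 0`, `Y^(2/7) ≤ g B D^(5/7)`. solve5: `Y ≤ A^(4/5) (D (Y + μ))^(3/5) + 3 μ` gives
`Y ≤ 20 (1 + D)^(3/2) ... `: precisely by Young `A^(4/5) Z^(3/5) = (A²)^(2/5) Z^(3/5) ≤ (2/5) η^(-3/2) A² + (3/5) η Z` with `Z = D (Y + μ)`, `η = 5 / (6 D)` (for `D > 0`):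
`≤ (1/2)(Y + μ) + (2/5) (6D/5)^(3/2) A²`, so `Y ≤ μ + (4/5) (6D/5)^(3/2) A² + 6 μ ≤ 7 μ + 2 D^(3/2) A²` (`(4/5)(6/5)^(3/2) ≤ 2`; the case `D = 0` is clear).
-/
import Pool.Agent.H87.NS.Sob
import Pool.Agent.H87.NS.IBP

set_option autoImplicit false

open Set Filter Topology MeasureTheory
open scoped ContDiff

namespace Pool.Agent.H87.NS

open Pool.Agent.H16

theorem Itp_holder {g : E3 → ℝ} (hg : ∀ x, 0 ≤ g x) (hm : AEStronglyMeasurable g volume) {α β γ p q : ℝ}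
    (hpq : p.HolderConjugate q) (hα : 0 < α) (hβ : 0 < β) (hγ : α / p + β / q = γ)
    (h1 : Integrable fun x => g x ^ α) (h2 : Integrable fun x => g x ^ β) :
    ∫ x, g x ^ γ ≤ (∫ x, g x ^ α) ^ (1 / p) * (∫ x, g x ^ β) ^ (1 / q) := by
  have hp := hpq.pos
  have hq := hpq.symm.pos
  have e1 : ∀ x, (g x ^ (α / p)) ^ p = g x ^ α := fun x => by
    rw [← Real.rpow_mul (hg x), div_mul_cancel₀ _ hp.ne']
  have e2 : ∀ x, (g x ^ (β / q)) ^ q = g x ^ β := fun x => by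
    rw [← Real.rpow_mul (hg x), div_mul_cancel₀ _ hq.ne']
  have hm1 : AEStronglyMeasurable (fun x => g x ^ (α / p)) volume :=
    ((Real.continuous_rpow_const (by positivity)).comp_aestronglyMeasurable hm)
  have hm2 : AEStronglyMeasurable (fun x => g x ^ (β / q)) volume :=
    ((Real.continuous_rpow_const (by positivity)).comp_aestronglyMeasurable hm)
  have hL1 : MemLp (fun x => g x ^ (α / p)) (ENNReal.ofReal p) volume := by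
    rw [← integrable_norm_rpow_iff hm1 (by rw [Ne, ENNReal.ofReal_eq_zero, not_le]; exact hp)
      ENNReal.ofReal_ne_top, ENNReal.toReal_ofReal hp.le]
    refine h1.congr (Eventually.of_forall fun x => ?_)
    show g x ^ α = ‖g x ^ (α / p)‖ ^ p
    rw [Real.norm_of_nonneg (Real.rpow_nonneg (hg x) _), e1]
  have hL2 : MemLp (fun x => g x ^ (β / q)) (ENNReal.ofReal q) volume := by
    rw [← integrable_norm_rpow_iff hm2 (by rw [Ne, ENNReal.ofReal_eq_zero, not_le]; exact hq)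
      ENNReal.ofReal_ne_top, ENNReal.toReal_ofReal hq.le]
    refine h2.congr (Eventually.of_forall fun x => ?_)
    show g x ^ β = ‖g x ^ (β / q)‖ ^ q
    rw [Real.norm_of_nonneg (Real.rpow_nonneg (hg x) _), e2]
  have h3 := integral_mul_le_Lp_mul_Lq_of_nonneg hpq (μ := (volume : Measure E3))
    (f := fun x => g x ^ (α / p)) (g := fun x => g x ^ (β / q))
    (Eventually.of_forall fun x => Real.rpow_nonneg (hg x) _)
    (Eventually.of_forall fun x => Real.rpow_nonneg (hg x) _) hL1 hL2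
  simp only [e1, e2] at h3
  refine le_trans (le_of_eq ?_) h3
  refine integral_congr_ae (Eventually.of_forall fun x => ?_)
  show g x ^ γ = g x ^ (α / p) * g x ^ (β / q)
  rw [← hγ, Real.rpow_add_of_nonneg (hg x) (by positivity) (by positivity)]

theorem itp4 {V : E3 → ℝ} (hV : ContDiff ℝ ∞ V) {K : ℝ} (hK : DB 1 K V)
    (hN : Integrable (fun x => |V x| ^ (3/2 : ℝ))) :
    ∫ x, V x ^ 4 ≤ (∫ x, |V x| ^ (3/2 : ℝ)) ^ (16/21 : ℝ) * (4 * SB * ∫ x, V x ^ 2 * gsq V x) ^ (5/7 : ℝ) := by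
  have hV1 : ContDiff ℝ 1 V := hV.of_le (by exact_mod_cast le_top)
  have hH : ContDiff ℝ 1 fun s : ℝ => s ^ 2 := by fun_prop
  obtain ⟨K', hK'⟩ := comp_DB hH (by norm_num) K
  have hDB := hK' V hV1 hK
  have hW1 : ContDiff ℝ 1 fun x => V x ^ 2 := hV1.pow 2
  obtain ⟨hS1, hS2⟩ := SB_spec hW1 hDB
  have hgsq : ∀ x, gsq (fun y => V y ^ 2) x = 4 * (V x ^ 2 * gsq V x) := by
    intro x
    have h1 := comp_gsq hV1 hH x
    have h2 : deriv (fun s : ℝ => s ^ 2) (V x) = 2 * V x := by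
      simp
    rw [h1, h2]
    ring
  have hint : ∫ x, gsq (fun y => V y ^ 2) x = 4 * ∫ x, V x ^ 2 * gsq V x := by
    simp only [hgsq]
    rw [integral_const_mul]
  rw [hint] at hS2
  have hpq : (21/16 : ℝ).HolderConjugate (21/5) := by
    rw [Real.holderConjugate_iff]
    norm_num
  have hg0 : ∀ x, 0 ≤ V x ^ 2 := fun x => sq_nonneg _
  have ea : ∀ x, (V x ^ 2) ^ (3/4 : ℝ) = |V x| ^ (3/2 : ℝ) := by
    intro x
    rw [← sq_abs, ← Real.rpow_natCast (|V x|) 2, ← Real.rpow_mul (abs_nonneg _)]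
    norm_num
  have eb : ∀ x, (V x ^ 2) ^ (6 : ℝ) = (V x ^ 2) ^ 6 := by
    intro x
    rw [show (6 : ℝ) = ((6 : ℕ) : ℝ) by norm_num, Real.rpow_natCast]
  have ec : ∀ x, (V x ^ 2) ^ (2 : ℝ) = V x ^ 4 := by
    intro x
    rw [show (2 : ℝ) = ((2 : ℕ) : ℝ) by norm_num, Real.rpow_natCast]
    ring
  have h1 := Itp_holder (g := fun x => V x ^ 2) hg0 (hV.continuous.pow 2).aestronglyMeasurable
    (α := 3/4) (β := 6) (γ := 2) hpq (by norm_num) (by norm_num) (by norm_num)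
    (by simp only [ea]; exact hN) (by simp only [eb]; exact hS1)
  simp only [ea, eb, ec] at h1
  have hI0 : 0 ≤ ∫ x, (V x ^ 2) ^ 6 := integral_nonneg fun x => pow_nonneg (hg0 x) _
  have h2 : (∫ x, (V x ^ 2) ^ 6) ^ (1 / (21/5 : ℝ)) ≤
      (4 * SB * ∫ x, V x ^ 2 * gsq V x) ^ (5/7 : ℝ) := by
    have h3 : (∫ x, (V x ^ 2) ^ 6) ^ (1 / (21/5 : ℝ)) =
        ((∫ x, (V x ^ 2) ^ 6) ^ (1/3 : ℝ)) ^ (5/7 : ℝ) := by
      rw [← Real.rpow_mul hI0]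
      norm_num
    rw [h3]
    refine Real.rpow_le_rpow (Real.rpow_nonneg hI0 _) ?_ (by norm_num)
    refine hS2.trans (le_of_eq ?_)
    ring
  refine h1.trans ?_
  have h4 : (1 / (21/16 : ℝ)) = 16/21 := by norm_num
  rw [h4]
  exact mul_le_mul_of_nonneg_left h2 (Real.rpow_nonneg (integral_nonneg fun x =>
    Real.rpow_nonneg (abs_nonneg _) _) _)

theorem itp2 {f : E3 → ℝ} (hf : ContDiff ℝ ∞ f) {K : ℝ} (hK : DB 1 K f) (hi : Integrable f) :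
    ∫ x, f x ^ 2 ≤ (∫ x, |f x|) ^ (4/5 : ℝ) * (SB * ∫ x, gsq f x) ^ (3/5 : ℝ) := by
  have hf1 : ContDiff ℝ 1 f := hf.of_le (by exact_mod_cast le_top)
  obtain ⟨hS1, hS2⟩ := SB_spec hf1 hK
  have hpq : (5/4 : ℝ).HolderConjugate 5 := by
    rw [Real.holderConjugate_iff]
    norm_num
  have hg0 : ∀ x, 0 ≤ |f x| := fun x => abs_nonneg _
  have ea : ∀ x, |f x| ^ (1 : ℝ) = |f x| := fun x => Real.rpow_one _
  have eb : ∀ x, |f x| ^ (6 : ℝ) = f x ^ 6 := by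
    intro x
    rw [show (6 : ℝ) = ((6 : ℕ) : ℝ) by norm_num, Real.rpow_natCast]
    have : |f x| ^ 6 = (|f x| ^ 2) ^ 3 := by ring
    rw [this, sq_abs]
    ring
  have ec : ∀ x, |f x| ^ (2 : ℝ) = f x ^ 2 := by
    intro x
    rw [show (2 : ℝ) = ((2 : ℕ) : ℝ) by norm_num, Real.rpow_natCast, sq_abs]
  have h1 := Itp_holder (g := fun x => |f x|) hg0 hf.continuous.abs.aestronglyMeasurable
    (α := 1) (β := 6) (γ := 2) hpq (by norm_num) (by norm_num) (by norm_num)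
    (by simp only [ea]; exact hi.abs) (by simp only [eb]; exact hS1)
  simp only [ea, eb, ec] at h1
  have hI0 : 0 ≤ ∫ x, f x ^ 6 := integral_nonneg fun x => by
    show (0 : ℝ) ≤ f x ^ 6
    positivity
  have h2 : (∫ x, f x ^ 6) ^ (1 / (5 : ℝ)) ≤ (SB * ∫ x, gsq f x) ^ (3/5 : ℝ) := by
    have h3 : (∫ x, f x ^ 6) ^ (1 / (5 : ℝ)) = ((∫ x, f x ^ 6) ^ (1/3 : ℝ)) ^ (3/5 : ℝ) := by
      rw [← Real.rpow_mul hI0]
      norm_num
    rw [h3]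
    exact Real.rpow_le_rpow (Real.rpow_nonneg hI0 _) hS2 (by norm_num)
  refine h1.trans ?_
  have h4 : (1 / (5/4 : ℝ)) = 4/5 := by norm_num
  rw [h4]
  exact mul_le_mul_of_nonneg_left h2 (Real.rpow_nonneg (integral_nonneg fun x => abs_nonneg _) _)

theorem good_time {φ : ℝ → ℝ} {s t A : ℝ} (hst : s < t) (hφ : IntervalIntegrable φ volume s t)
    (hA : ∫ r in s..t, φ r ≤ A) : ∃ r ∈ Icc s t, φ r ≤ A / (t - s) := by
  have hts : 0 < t - s := by linarith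
  have hvol : volume (Ioc s t) = ENNReal.ofReal (t - s) := Real.volume_Ioc
  obtain ⟨r, hr, hle⟩ := exists_le_setAverage (μ := volume) (s := Ioc s t) (f := φ)
    (by rw [hvol, Ne, ENNReal.ofReal_eq_zero, not_le]; exact hts)
    (by rw [hvol]; exact ENNReal.ofReal_ne_top) hφ.1
  refine ⟨r, ⟨hr.1.le, hr.2⟩, hle.trans ?_⟩
  rw [setAverage_eq, measureReal_def, hvol, ENNReal.toReal_ofReal hts.le, smul_eq_mul,
    inv_mul_eq_div, ← intervalIntegral.integral_of_le hst.le]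
  exact div_le_div_of_nonneg_right hA hts.le

theorem solve7 {Y B D : ℝ} (hY : 0 ≤ Y) (hB : 0 ≤ B) (hD : 0 ≤ D) (h : Y ≤ B * (D * Y) ^ (5/7 : ℝ)) :
    Y ≤ B ^ (7/2 : ℝ) * D ^ (5/2 : ℝ) := by
  rcases hY.eq_or_lt with hY0 | hY0
  · rw [← hY0]
    exact mul_nonneg (Real.rpow_nonneg hB _) (Real.rpow_nonneg hD _)
  · rw [Real.mul_rpow hD hY, ← mul_assoc] at h
    have hYp : 0 < Y ^ (5/7 : ℝ) := Real.rpow_pos_of_pos hY0 _
    have h1 : Y = Y ^ (2/7 : ℝ) * Y ^ (5/7 : ℝ) := by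
      rw [← Real.rpow_add hY0]
      norm_num
    have h2 : Y ^ (2/7 : ℝ) ≤ B * D ^ (5/7 : ℝ) := by
      have h3 : Y ^ (2/7 : ℝ) * Y ^ (5/7 : ℝ) ≤ B * D ^ (5/7 : ℝ) * Y ^ (5/7 : ℝ) := by
        rw [← h1]
        exact h
      exact le_of_mul_le_mul_right h3 hYp
    have h4 : (Y ^ (2/7 : ℝ)) ^ (7/2 : ℝ) ≤ (B * D ^ (5/7 : ℝ)) ^ (7/2 : ℝ) :=
      Real.rpow_le_rpow (Real.rpow_nonneg hY _) h2 (by norm_num)
    have h5 : (Y ^ (2/7 : ℝ)) ^ (7/2 : ℝ) = Y := by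
      rw [← Real.rpow_mul hY]
      norm_num
    have h6 : (B * D ^ (5/7 : ℝ)) ^ (7/2 : ℝ) = B ^ (7/2 : ℝ) * D ^ (5/2 : ℝ) := by
      rw [Real.mul_rpow hB (Real.rpow_nonneg hD _), ← Real.rpow_mul hD]
      norm_num
    rwa [h5, h6] at h4

theorem solve5 {Y A D μ : ℝ} (hY : 0 ≤ Y) (hA : 0 ≤ A) (hD : 0 ≤ D) (hμ : 0 ≤ μ)
    (h : Y ≤ A ^ (4/5 : ℝ) * (D * (Y + μ)) ^ (3/5 : ℝ) + 3 * μ) :
    Y ≤ 7 * μ + 2 * D ^ (3/2 : ℝ) * A ^ 2 := by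
  have hW : 0 ≤ Y + μ := by linarith
  have hD3 : 0 ≤ D ^ (3/2 : ℝ) := Real.rpow_nonneg hD _
  have hc0 : (0 : ℝ) ≤ (6/5 : ℝ) ^ (3/2 : ℝ) := by positivity
  have ha0 : 0 ≤ (6/5 : ℝ) ^ (3/2 : ℝ) * D ^ (3/2 : ℝ) * A ^ 2 := by positivity
  have hb0 : 0 ≤ (5/6 : ℝ) * (Y + μ) := by positivity
  have h1 := Real.geom_mean_le_arith_mean2_weighted (w₁ := 2/5) (w₂ := 3/5) (by norm_num) (by norm_num)
    ha0 hb0 (by norm_num)
  have e1 : ((6/5 : ℝ) ^ (3/2 : ℝ) * D ^ (3/2 : ℝ) * A ^ 2) ^ (2/5 : ℝ) =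
      (6/5 : ℝ) ^ (3/5 : ℝ) * D ^ (3/5 : ℝ) * A ^ (4/5 : ℝ) := by
    rw [Real.mul_rpow (by positivity) (by positivity), Real.mul_rpow (by positivity) hD3,
      ← Real.rpow_mul (by norm_num), ← Real.rpow_mul hD, ← Real.rpow_natCast A 2, ← Real.rpow_mul hA]
    norm_num
  have e2 : ((5/6 : ℝ) * (Y + μ)) ^ (3/5 : ℝ) = (5/6 : ℝ) ^ (3/5 : ℝ) * (Y + μ) ^ (3/5 : ℝ) :=
    Real.mul_rpow (by norm_num) hW
  have e3 : (6/5 : ℝ) ^ (3/5 : ℝ) * (5/6 : ℝ) ^ (3/5 : ℝ) = 1 := by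
    rw [← Real.mul_rpow (by norm_num) (by norm_num)]
    norm_num
  have e4 : ((6/5 : ℝ) ^ (3/2 : ℝ) * D ^ (3/2 : ℝ) * A ^ 2) ^ (2/5 : ℝ) *
      ((5/6 : ℝ) * (Y + μ)) ^ (3/5 : ℝ) = A ^ (4/5 : ℝ) * (D * (Y + μ)) ^ (3/5 : ℝ) := by
    rw [e1, e2, Real.mul_rpow hD hW]
    calc (6/5 : ℝ) ^ (3/5 : ℝ) * D ^ (3/5 : ℝ) * A ^ (4/5 : ℝ) *
          ((5/6 : ℝ) ^ (3/5 : ℝ) * (Y + μ) ^ (3/5 : ℝ))
        = ((6/5 : ℝ) ^ (3/5 : ℝ) * (5/6 : ℝ) ^ (3/5 : ℝ)) *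
          (A ^ (4/5 : ℝ) * (D ^ (3/5 : ℝ) * (Y + μ) ^ (3/5 : ℝ))) := by ring
      _ = _ := by rw [e3, one_mul]
  rw [e4] at h1
  have h2 : (6/5 : ℝ) ^ (3/2 : ℝ) ≤ 36/25 := by
    calc (6/5 : ℝ) ^ (3/2 : ℝ) ≤ (6/5 : ℝ) ^ (2 : ℝ) :=
          Real.rpow_le_rpow_of_exponent_le (by norm_num) (by norm_num)
      _ = 36/25 := by
          rw [show (2 : ℝ) = ((2 : ℕ) : ℝ) by norm_num, Real.rpow_natCast]
          norm_num
  have h3 : 0 ≤ D ^ (3/2 : ℝ) * A ^ 2 := by positivity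
  have h4 : (6/5 : ℝ) ^ (3/2 : ℝ) * D ^ (3/2 : ℝ) * A ^ 2 ≤ 36/25 * (D ^ (3/2 : ℝ) * A ^ 2) := by
    rw [mul_assoc]
    exact mul_le_mul_of_nonneg_right h2 h3
  have h5 : 2 * D ^ (3/2 : ℝ) * A ^ 2 = 2 * (D ^ (3/2 : ℝ) * A ^ 2) := by ring
  rw [h5]
  linarith

end Pool.Agent.H87.NS
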