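/-
ROW GF. Smallness of `∫ |Om|` at a late time. PROOF. `E = ∫ ‖u 0‖²`. energy1: `∫_{T₂/2}^{T₂} ∫ dsq u ≤ E/2`; good_time: `t₁ ∈ [T₂/2, T₂]` with `∫ dsq (u t₁) ≤ E / T₂`. Let `L = B √t₁`.
(I) On `{rsq ≤ a² t₁, ‖x‖ ≤ L}`, of volume `≤ 8 a² t₁ L = 8 a² B t₁^(3/2)` (vol_axis): Cauchy-Schwarz, `∫ |Om| ≤ √(8 a² B t₁^(3/2)) √(CO K² t₁^(-3/2)) = √8 a √B √CO K`.
(II) On `{rsq > a² t₁, ‖x‖ ≤ L}`: `|Om| ≤ ‖curl u‖ / rad ≤ ‖curl u‖ / (a √t₁)`, volume of the ball `≤ 5 L³`, `∫ ‖curl u‖² ≤ 2 ∫ dsq` (Loc_curl):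
`∫ |Om| ≤ (a √t₁)⁻¹ √(5 B³ t₁^(3/2)) √(2 E / T₂) ≤ a⁻¹ √(10 B³) √(E / √T₂)` (`t₁ ≤ T₂`).
(III) On `{‖x‖ ≥ L}`: wt_L1 with the weight `1 - cb L 0` (`axp 0 = 0`), `s = 0`, `t = t₁`; the initial term vanishes (`1 - cb L 0 = 0` for `‖x‖ ≤ L/2`, and `Om 0 = 0` for `‖x‖ ≥ L/2`):
`∫ |Om| (1 - cb) ≤ 2 η + (CB / L) √E √CO K 4 t₁^(1/4) + 4 CB K t₁ / L² ≤ 2 η + 8 CB √CO K / B √(E/√T₂) + 4 CB K / B²` (`√E t₁^(-1/4) ≤ 2^(1/4) √(E/√T₂)`).
-/
import Pool.Agent.H87.NG.GDefs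
import Pool.Agent.H87.NG.Itp
import Pool.Agent.H87.NS.Loc

set_option autoImplicit false

open Set Filter Topology MeasureTheory
open scoped ContDiff

namespace Pool.Agent.H87.NS

open Pool.Agent.H16

/-- Cauchy-Schwarz on a set of finite volume. -/
theorem GF_cs {S : Set E3} {v : ℝ} (hv : 0 ≤ v)
    (hvol : volume S ≤ ENNReal.ofReal v) {f : E3 → ℝ} (hf : Continuous f)
    (hf2 : Integrable (fun x => f x ^ 2)) : ∫ x in S, |f x| ≤ √v * √(∫ x, f x ^ 2) := by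
  have hfin : volume S ≠ ⊤ := (hvol.trans_lt ENNReal.ofReal_lt_top).ne
  have : IsFiniteMeasure (volume.restrict S) := isFiniteMeasure_restrict.2 hfin
  have hc2 : Integrable (fun x => f x ^ 2) (volume.restrict S) := hf2.restrict
  have hc1 : Integrable (fun x => |f x|) (volume.restrict S) := by
    refine ((integrable_const (1 : ℝ)).add hc2).mono' hf.abs.aestronglyMeasurable
      (Eventually.of_forall fun x => ?_)
    rw [Real.norm_eq_abs, abs_abs]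
    show |f x| ≤ 1 + f x ^ 2
    nlinarith [sq_abs (f x), sq_nonneg (|f x| - 1), abs_nonneg (f x)]
  set m : ℝ := (volume S).toReal with hm
  have hm1 : m ≤ v := ENNReal.toReal_le_of_le_ofReal hv hvol
  have hm0 : 0 ≤ m := ENNReal.toReal_nonneg
  have hquad : ∀ t : ℝ, 0 ≤ m * (t * t) + (-(2 * ∫ x in S, |f x|)) * t + ∫ x in S, f x ^ 2 := by
    intro t
    have a1 : 0 ≤ ∫ x in S, (t - |f x|) ^ 2 := integral_nonneg fun x => sq_nonneg _
    have a2 : ∫ x in S, (t - |f x|) ^ 2 = m * (t * t) +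
        (-(2 * ∫ x in S, |f x|)) * t + ∫ x in S, f x ^ 2 := by
      have a3 : ∀ x, (t - |f x|) ^ 2 = t * t + (-(2 * t)) * |f x| + f x ^ 2 :=
        fun x => by rw [← sq_abs (f x)]; ring
      simp only [a3]
      have b1 : Integrable (fun _ : E3 => t * t) (volume.restrict S) := integrable_const _
      have b2 := hc1.const_mul (-(2 * t))
      have b3 : ∫ x in S, (t * t + (-(2 * t)) * |f x| + f x ^ 2) =
          (∫ x in S, (t * t + (-(2 * t)) * |f x|)) + ∫ x in S, f x ^ 2 :=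
        integral_add (b1.add b2) hc2
      have b4 : ∫ x in S, (t * t + (-(2 * t)) * |f x|) =
          (∫ _x in S, t * t) + ∫ x in S, (-(2 * t)) * |f x| := integral_add b1 b2
      have b5 : ∫ _x in S, t * t = m * (t * t) := by
        rw [setIntegral_const, smul_eq_mul]
        rfl
      rw [b3, b4, b5, integral_const_mul]
      ring
    rw [← a2]
    exact a1
  have hdisc := discrim_le_zero (fun t => hquad t)
  unfold discrim at hdisc
  have hI2 : ∫ x in S, f x ^ 2 ≤ ∫ x, f x ^ 2 :=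
    setIntegral_le_integral hf2 (Eventually.of_forall fun x => sq_nonneg _)
  have hI20 : 0 ≤ ∫ x in S, f x ^ 2 := integral_nonneg fun x => sq_nonneg _
  have h2 : (∫ x in S, |f x|) ^ 2 ≤ v * ∫ x, f x ^ 2 := by
    have c1 : (∫ x in S, |f x|) ^ 2 ≤ m * ∫ x in S, f x ^ 2 := by nlinarith
    exact c1.trans (mul_le_mul hm1 hI2 hI20 hv)
  rw [← Real.sqrt_mul hv]
  exact Real.le_sqrt_of_sq_le h2

theorem GF_off {v : E3 → E3} (hv : AxF v) {c : ℝ} (hc : 0 < c) {x : E3} (hx : c ^ 2 < rsq x) :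
    |sO v x| ≤ 1 / c * ‖curl v x‖ := by
  have h3 : rsq x = rad x ^ 2 := (rad_sq' x).symm
  have h1 : c < rad x := by
    rw [h3] at hx
    exact lt_of_pow_lt_pow_left₀ 2 (rad_nonneg x) hx
  have h2 : 0 < rad x := hc.trans h1
  have h4 := circ_le (curl v) x
  rw [om_eq hv x, h3, abs_mul, abs_of_pos (by positivity : 0 < rad x ^ 2)] at h4
  have h5 : rad x * |sO v x| ≤ ‖curl v x‖ := by
    have : rad x * (rad x * |sO v x|) ≤ rad x * ‖curl v x‖ := by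
      calc rad x * (rad x * |sO v x|) = rad x ^ 2 * |sO v x| := by ring
        _ ≤ _ := h4
    exact le_of_mul_le_mul_left this h2
  have h6 : c * |sO v x| ≤ ‖curl v x‖ :=
    (mul_le_mul_of_nonneg_right h1.le (abs_nonneg _)).trans h5
  rw [div_mul_eq_mul_div, le_div_iff₀ hc]
  linarith

theorem GF_vol {L : ℝ} (hL : 0 ≤ L) : volume (Metric.closedBall (0 : E3) L) ≤ ENNReal.ofReal (5 * L ^ 3) := by
  have h := EuclideanSpace.volume_closedBall_fin_three (0 : E3) L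
  rw [h, ← ENNReal.ofReal_pow hL, ← ENNReal.ofReal_mul (by positivity)]
  refine ENNReal.ofReal_le_ofReal ?_
  have h4 : Real.pi * 4 / 3 ≤ 5 := by
    have := Real.pi_lt_d2
    linarith
  have h5 : 0 ≤ L ^ 3 := by positivity
  nlinarith

theorem GF_axp : axp 0 = 0 := by
  apply ext3 <;> rfl

theorem GF_split {Om : E3 → ℝ} (hi : Integrable Om) {δ L : ℝ} (hL : 0 < L) :
    ∫ x, |Om x| ≤ (∫ x in {x : E3 | rsq x ≤ δ ∧ ‖x‖ ≤ L}, |Om x|) +
      (∫ x in {x : E3 | δ < rsq x ∧ ‖x‖ ≤ L}, |Om x|) + ∫ x, |Om x| * (1 - cb L 0 x) := by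
  have hr : Continuous rsq := by
    unfold rsq
    fun_prop
  have hA1 : MeasurableSet {x : E3 | rsq x ≤ δ ∧ ‖x‖ ≤ L} :=
    ((isClosed_le hr continuous_const).inter (isClosed_le continuous_norm continuous_const)).measurableSet
  have hA2 : MeasurableSet {x : E3 | δ < rsq x ∧ ‖x‖ ≤ L} :=
    (isOpen_lt continuous_const hr).measurableSet.inter
      (isClosed_le continuous_norm continuous_const).measurableSet
  obtain ⟨_, hW, _, hz⟩ := (Classical.choose_spec cutball).2 L 0 hL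
  have hWg := hW.1
  have h1 := hi.abs.indicator hA1
  have h2 := hi.abs.indicator hA2
  have h3 : Integrable (fun x => |Om x| * (1 - cb L 0 x)) := by
    refine hi.abs.mono' (hi.abs.aestronglyMeasurable.mul hWg.smooth.continuous.aestronglyMeasurable)
      (Eventually.of_forall fun x => ?_)
    rw [Real.norm_eq_abs, abs_mul, abs_abs, abs_of_nonneg (hWg.nonneg x)]
    exact mul_le_of_le_one_right (abs_nonneg _) (hWg.le_one x)
  have f1 : ∫ x, ({x : E3 | rsq x ≤ δ ∧ ‖x‖ ≤ L}.indicator (fun x => |Om x|) x +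
      {x : E3 | δ < rsq x ∧ ‖x‖ ≤ L}.indicator (fun x => |Om x|) x + |Om x| * (1 - cb L 0 x)) =
      (∫ x, ({x : E3 | rsq x ≤ δ ∧ ‖x‖ ≤ L}.indicator (fun x => |Om x|) x +
      {x : E3 | δ < rsq x ∧ ‖x‖ ≤ L}.indicator (fun x => |Om x|) x)) +
      ∫ x, |Om x| * (1 - cb L 0 x) := integral_add (h1.add h2) h3
  have f2 : ∫ x, ({x : E3 | rsq x ≤ δ ∧ ‖x‖ ≤ L}.indicator (fun x => |Om x|) x +
      {x : E3 | δ < rsq x ∧ ‖x‖ ≤ L}.indicator (fun x => |Om x|) x) =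
      (∫ x, {x : E3 | rsq x ≤ δ ∧ ‖x‖ ≤ L}.indicator (fun x => |Om x|) x) +
      ∫ x, {x : E3 | δ < rsq x ∧ ‖x‖ ≤ L}.indicator (fun x => |Om x|) x := integral_add h1 h2
  rw [← integral_indicator hA1, ← integral_indicator hA2, ← f2, ← f1]
  refine integral_mono hi.abs ((h1.add h2).add h3) fun x => ?_
  have n1 : 0 ≤ {x : E3 | rsq x ≤ δ ∧ ‖x‖ ≤ L}.indicator (fun x => |Om x|) x :=
    indicator_nonneg (fun _ _ => abs_nonneg _) x
  have n2 : 0 ≤ {x : E3 | δ < rsq x ∧ ‖x‖ ≤ L}.indicator (fun x => |Om x|) x :=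
    indicator_nonneg (fun _ _ => abs_nonneg _) x
  have n3 : 0 ≤ |Om x| * (1 - cb L 0 x) := mul_nonneg (abs_nonneg _) (hWg.nonneg x)
  show |Om x| ≤ {x : E3 | rsq x ≤ δ ∧ ‖x‖ ≤ L}.indicator (fun x => |Om x|) x +
    {x : E3 | δ < rsq x ∧ ‖x‖ ≤ L}.indicator (fun x => |Om x|) x + |Om x| * (1 - cb L 0 x)
  rcases le_or_gt ‖x‖ L with hx | hx
  · rcases le_or_gt (rsq x) δ with hd | hd
    · have e1 : {x : E3 | rsq x ≤ δ ∧ ‖x‖ ≤ L}.indicator (fun x => |Om x|) x = |Om x| :=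
        indicator_of_mem (show x ∈ {x : E3 | rsq x ≤ δ ∧ ‖x‖ ≤ L} from ⟨hd, hx⟩) _
      rw [e1]
      linarith
    · have e1 : {x : E3 | δ < rsq x ∧ ‖x‖ ≤ L}.indicator (fun x => |Om x|) x = |Om x| :=
        indicator_of_mem (show x ∈ {x : E3 | δ < rsq x ∧ ‖x‖ ≤ L} from ⟨hd, hx⟩) _
      rw [e1]
      linarith
  · have e1 : cb L 0 x = 0 := by
      apply hz
      rw [GF_axp, sub_zero]
      exact hx.le
    rw [e1]
    linarith

theorem GF_32 {t : ℝ} (ht : 0 < t) : t * √t * t ^ (-(3/2) : ℝ) = 1 := by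
  have h1 : t ^ (3/2 : ℝ) = t * √t := by
    have h2 : (3/2 : ℝ) = 1 + 1/2 := by norm_num
    rw [h2, Real.rpow_add ht, Real.rpow_one, Real.sqrt_eq_rpow]
  rw [Real.rpow_neg ht.le, h1]
  have h3 : 0 < √t := Real.sqrt_pos.2 ht
  exact mul_inv_cancel₀ (by positivity)

theorem GF_CO : 0 ≤ CO := by
  have := SB_pos
  unfold CO
  positivity

theorem gf_final {T : ℝ} {u : ℝ → E3 → E3} {p : ℝ → E3 → ℝ} (h : IsHInfAxisymNS T u p) {K η B a T₂ : ℝ}
    (ha : 0 < a) (hB : 0 < B) (hK : 0 ≤ K) (hT₂ : 0 < T₂) (hT : T₂ < T)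
    (hO : ∀ t ∈ Icc 0 T₂, Integrable (sO (u t)) ∧ ∫ x, |sO (u t) x| ≤ 2 * K)
    (hO2 : ∀ t ∈ Ioc 0 T₂, ∫ x, sO (u t) x ^ 2 ≤ CO * K ^ 2 * t ^ (-(3/2) : ℝ))
    (hη : ∫ t in (0:ℝ)..T₂, ∫ x, |sV (u t) x| * √(gsq (sV (u t)) x) ≤ η)
    (hs : ∀ x, B * √(T₂ / 2) / 2 ≤ ‖x‖ → sO (u 0) x = 0) :
    ∃ t₁ ∈ Icc (T₂ / 2) T₂, ∫ x, |sO (u t₁) x| ≤ √8 * a * √B * √CO * K
      + 1 / a * √(10 * B ^ 3) * √((∫ x, ‖u 0 x‖ ^ 2) / √T₂) + 2 * η
      + 8 * CB * √CO * K / B * √((∫ x, ‖u 0 x‖ ^ 2) / √T₂) + 4 * CB * K / B ^ 2 := by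
  have hF := flow_of h
  have hCO := GF_CO
  have hCB := CB_pos
  set E : ℝ := ∫ x, ‖u 0 x‖ ^ 2 with hE
  have hE0 : 0 ≤ E := integral_nonneg fun _ => sq_nonneg _
  have hT2 : T₂ / 2 < T₂ := by linarith
  have hi1 := dsq_ii h (le_refl (0 : ℝ)) (show 0 ≤ T₂ / 2 by linarith) (hT2.trans hT)
  have hi2 := dsq_ii h (show 0 ≤ T₂ / 2 by linarith) hT2.le hT
  have hen := (energy1 h (t := T₂) ⟨hT₂.le, hT⟩).1
  rw [← intervalIntegral.integral_add_adjacent_intervals hi1 hi2] at hen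
  have hn1 : 0 ≤ ∫ s in (0:ℝ)..T₂ / 2, ∫ x, dsq (u s) x :=
    intervalIntegral.integral_nonneg (by linarith) fun s _ =>
      integral_nonneg fun _ => Finset.sum_nonneg fun _ _ => sq_nonneg _
  obtain ⟨t₁, ht₁, hd⟩ := good_time (A := E / 2) hT2 hi2 (by linarith)
  have hd' : ∫ x, dsq (u t₁) x ≤ E / T₂ := by
    refine hd.trans (le_of_eq ?_)
    have : T₂ - T₂ / 2 = T₂ / 2 := by ring
    rw [this]
    field_simp
  refine ⟨t₁, ht₁, ?_⟩
  have ht0 : 0 < t₁ := by linarith [ht₁.1]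
  have htT : t₁ < T := ht₁.2.trans_lt hT
  have htI : t₁ ∈ Ico 0 T := ⟨ht0.le, htT⟩
  have hAx := axF_of h.ns htI
  have hOsm := (svw_smooth h.ns htI).2.2
  obtain ⟨K3, hK3⟩ := svwDB h htT
  have hObl : Integrable (fun x => sO (u t₁) x ^ 2) := (DB_BL (hK3 t₁ ⟨ht0.le, le_rfl⟩).2.2).2.1
  have hOi := (hO t₁ ⟨ht0.le, ht₁.2⟩).1
  have hO2t := hO2 t₁ ⟨ht0, ht₁.2⟩
  set s1 := √t₁ with hs1
  have hs0 : 0 < s1 := Real.sqrt_pos.2 ht0
  have hs2 : s1 * s1 = t₁ := Real.mul_self_sqrt ht0.le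
  set S2 := √T₂ with hS2
  have hS0 : 0 < S2 := Real.sqrt_pos.2 hT₂
  have hSS : S2 * S2 = T₂ := Real.mul_self_sqrt hT₂.le
  have hsS : s1 ≤ S2 := Real.sqrt_le_sqrt ht₁.2
  have hL : 0 < B * s1 := mul_pos hB hs0
  have hsplit := GF_split hOi (δ := (a * s1) ^ 2) hL
  -- the region near the axis
  have hI : ∫ x in {x : E3 | rsq x ≤ (a * s1) ^ 2 ∧ ‖x‖ ≤ B * s1}, |sO (u t₁) x| ≤
      √8 * a * √B * √CO * K := by
    have h1 := GF_cs (f := sO (u t₁)) (v := 8 * (a * s1) ^ 2 * (B * s1)) (by positivity)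
      (vol_axis (by positivity) hL.le) hOsm.continuous hObl
    refine h1.trans ?_
    refine (mul_le_mul_of_nonneg_left (Real.sqrt_le_sqrt hO2t) (Real.sqrt_nonneg _)).trans ?_
    rw [← Real.sqrt_mul (by positivity)]
    refine Real.sqrt_le_iff.2 ⟨by positivity, le_of_eq ?_⟩
    have e1 := GF_32 ht0
    have e2 : √(8:ℝ) ^ 2 = 8 := Real.sq_sqrt (by norm_num)
    have e3 : √B ^ 2 = B := Real.sq_sqrt hB.le
    have e4 : √CO ^ 2 = CO := Real.sq_sqrt hCO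
    have e6 : (√8 * a * √B * √CO * K) ^ 2 = √8 ^ 2 * a ^ 2 * √B ^ 2 * √CO ^ 2 * K ^ 2 := by ring
    rw [e6, e2, e3, e4]
    have e5 : 8 * (a * s1) ^ 2 * (B * s1) * (CO * K ^ 2 * t₁ ^ (-(3/2) : ℝ)) =
        8 * a ^ 2 * B * CO * K ^ 2 * ((s1 * s1) * s1 * t₁ ^ (-(3/2) : ℝ)) := by ring
    rw [e5, hs2, e1, mul_one]
  -- the region off the axis
  have hII : ∫ x in {x : E3 | (a * s1) ^ 2 < rsq x ∧ ‖x‖ ≤ B * s1}, |sO (u t₁) x| ≤
      1 / a * √(10 * B ^ 3) * √(E / S2) := by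
    have hcc : Continuous fun x => ‖curl (u t₁) x‖ := (curl_smooth hAx.smooth).continuous.norm
    have hci := Loc_cint hAx (dsq_int h htI).1
    have hr : Continuous rsq := by
      unfold rsq
      fun_prop
    have hA2 : MeasurableSet {x : E3 | (a * s1) ^ 2 < rsq x ∧ ‖x‖ ≤ B * s1} :=
      (isOpen_lt continuous_const hr).measurableSet.inter
        (isClosed_le continuous_norm continuous_const).measurableSet
    have hvol : volume {x : E3 | (a * s1) ^ 2 < rsq x ∧ ‖x‖ ≤ B * s1} ≤ ENNReal.ofReal (5 * (B * s1) ^ 3) := by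
      refine (measure_mono ?_).trans (GF_vol hL.le)
      intro x hx
      rw [mem_closedBall_zero_iff]
      exact hx.2
    have hfin : volume {x : E3 | (a * s1) ^ 2 < rsq x ∧ ‖x‖ ≤ B * s1} ≠ ⊤ :=
      (hvol.trans_lt ENNReal.ofReal_lt_top).ne
    have : IsFiniteMeasure (volume.restrict {x : E3 | (a * s1) ^ 2 < rsq x ∧ ‖x‖ ≤ B * s1}) :=
      isFiniteMeasure_restrict.2 hfin
    have hc1 : Integrable (fun x => ‖curl (u t₁) x‖)
        (volume.restrict {x : E3 | (a * s1) ^ 2 < rsq x ∧ ‖x‖ ≤ B * s1}) := by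
      refine ((integrable_const (1 : ℝ)).add hci.restrict).mono' hcc.aestronglyMeasurable
        (Eventually.of_forall fun x => ?_)
      rw [norm_norm]
      show ‖curl (u t₁) x‖ ≤ 1 + ‖curl (u t₁) x‖ ^ 2
      nlinarith [norm_nonneg (curl (u t₁) x), sq_nonneg (‖curl (u t₁) x‖ - 1)]
    have h1 : ∫ x in {x : E3 | (a * s1) ^ 2 < rsq x ∧ ‖x‖ ≤ B * s1}, |sO (u t₁) x| ≤
        ∫ x in {x : E3 | (a * s1) ^ 2 < rsq x ∧ ‖x‖ ≤ B * s1}, 1 / (a * s1) * ‖curl (u t₁) x‖ := by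
      refine integral_mono_of_nonneg (Eventually.of_forall fun x => abs_nonneg _) (hc1.const_mul _) ?_
      filter_upwards [ae_restrict_mem hA2] with x hx
      exact GF_off hAx (mul_pos ha hs0) hx.1
    rw [integral_const_mul] at h1
    have h2 := GF_cs (f := fun x => ‖curl (u t₁) x‖) (by positivity) hvol hcc hci
    simp only [abs_norm] at h2
    have h3 : ∫ x, ‖curl (u t₁) x‖ ^ 2 ≤ 2 * (E / T₂) := by
      have c1 : ∫ x, ‖curl (u t₁) x‖ ^ 2 ≤ ∫ x, 2 * dsq (u t₁) x :=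
        integral_mono hci ((dsq_int h htI).1.const_mul 2) fun x => Loc_curl _ x
      rw [integral_const_mul] at c1
      linarith
    have h4 : ∫ x in {x : E3 | (a * s1) ^ 2 < rsq x ∧ ‖x‖ ≤ B * s1}, ‖curl (u t₁) x‖ ≤
        √(5 * (B * s1) ^ 3) * √(2 * (E / T₂)) :=
      h2.trans (mul_le_mul_of_nonneg_left (Real.sqrt_le_sqrt h3) (Real.sqrt_nonneg _))
    have h5 : √(5 * (B * s1) ^ 3) * √(2 * (E / T₂)) ≤ s1 * (√(10 * B ^ 3) * √(E / S2)) := by
      rw [← Real.sqrt_mul (by positivity)]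
      refine Real.sqrt_le_iff.2 ⟨by positivity, ?_⟩
      have e1 : √(10 * B ^ 3) ^ 2 = 10 * B ^ 3 := Real.sq_sqrt (by positivity)
      have e2 : √(E / S2) ^ 2 = E / S2 := Real.sq_sqrt (by positivity)
      have e0 : (s1 * (√(10 * B ^ 3) * √(E / S2))) ^ 2 = s1 ^ 2 * (√(10 * B ^ 3) ^ 2 * √(E / S2) ^ 2) := by ring
      rw [e0, e1, e2, ← hSS]
      have e3 : s1 ^ 2 * (10 * B ^ 3 * (E / S2)) = 10 * B ^ 3 * E * s1 ^ 2 * (S2 / (S2 * S2)) := by
        field_simp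
      have e4 : 5 * (B * s1) ^ 3 * (2 * (E / (S2 * S2))) = 10 * B ^ 3 * E * s1 ^ 2 * (s1 / (S2 * S2)) := by
        field_simp
        ring
      rw [e3, e4]
      exact mul_le_mul_of_nonneg_left (div_le_div_of_nonneg_right hsS (by positivity)) (by positivity)
    calc ∫ x in {x : E3 | (a * s1) ^ 2 < rsq x ∧ ‖x‖ ≤ B * s1}, |sO (u t₁) x|
        ≤ 1 / (a * s1) * ∫ x in {x : E3 | (a * s1) ^ 2 < rsq x ∧ ‖x‖ ≤ B * s1}, ‖curl (u t₁) x‖ := h1
      _ ≤ 1 / (a * s1) * (s1 * (√(10 * B ^ 3) * √(E / S2))) :=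
          mul_le_mul_of_nonneg_left (h4.trans h5) (by positivity)
      _ = 1 / a * √(10 * B ^ 3) * √(E / S2) := by
          field_simp
  -- the region far away
  have hIII : ∫ x, |sO (u t₁) x| * (1 - cb (B * s1) 0 x) ≤
      2 * η + 8 * CB * √CO * K / B * √(E / S2) + 4 * CB * K / B ^ 2 := by
    obtain ⟨_, hW0, hone, _⟩ := (Classical.choose_spec cutball).2 (B * s1) 0 hL
    have hW : WB (fun x => 1 - cb (B * s1) 0 x) CB (B * s1) := hW0
    have h1 := wt_L1 h hW hL hCB le_rfl ht0.le htT (K := K) (fun r hr => hO r ⟨hr.1, hr.2.trans ht₁.2⟩)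
    have h2 : ∫ x, |sO (u 0) x| * (1 - cb (B * s1) 0 x) = 0 := by
      refine integral_eq_zero_of_ae (Eventually.of_forall fun x => ?_)
      show |sO (u 0) x| * (1 - cb (B * s1) 0 x) = 0
      rcases le_or_gt ‖x‖ (B * s1 / 2) with hx | hx
      · rw [hone x (by rw [GF_axp, sub_zero]; exact hx)]
        ring
      · have h3 : B * √(T₂ / 2) / 2 ≤ ‖x‖ := by
          refine le_trans ?_ hx.le
          have h4 : √(T₂ / 2) ≤ s1 := Real.sqrt_le_sqrt ht₁.1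
          have := mul_le_mul_of_nonneg_left h4 hB.le
          linarith
        rw [hs x h3, abs_zero, zero_mul]
    have h3 : ∫ r in (0:ℝ)..t₁, ∫ x, |sV (u r) x| * √(gsq (sV (u r)) x) ≤ η := by
      refine le_trans ?_ hη
      have i1 := vdv_ii hF (le_refl (0 : ℝ)) ht0.le htT
      have i2 := vdv_ii hF ht0.le ht₁.2 hT
      have i3 := intervalIntegral.integral_add_adjacent_intervals i1 i2
      have i4 : 0 ≤ ∫ r in t₁..T₂, ∫ x, |sV (u r) x| * √(gsq (sV (u r)) x) :=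
        intervalIntegral.integral_nonneg ht₁.2 fun r _ => integral_nonneg fun x => StepJ_nn _ _
      have i5 : (∫ r in (0:ℝ)..t₁, ∫ x, |sV (u r) x| * √(gsq (sV (u r)) x)) +
          ∫ r in t₁..T₂, ∫ x, |sV (u r) x| * √(gsq (sV (u r)) x) =
          ∫ r in (0:ℝ)..T₂, ∫ x, |sV (u r) x| * √(gsq (sV (u r)) x) := i3
      linarith
    have h4 : ∫ r in (0:ℝ)..t₁, √(∫ x, sO (u r) x ^ 2) ≤ √CO * K * (4 * t₁ ^ (1/4 : ℝ)) := by
      have i1 : IntervalIntegrable (fun r => √(∫ x, sO (u r) x ^ 2)) volume 0 t₁ :=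
        sqO_ii hF le_rfl ht0.le htT
      have i2 : IntervalIntegrable (fun r : ℝ => r ^ (-(3/4) : ℝ)) volume 0 t₁ :=
        intervalIntegral.intervalIntegrable_rpow' (by norm_num)
      have i3 := intervalIntegral.integral_mono_on_of_le_Ioo ht0.le i1 (i2.const_mul (√CO * K))
        (fun r hr => by
          have hr0 : 0 < r := hr.1
          have j1 := hO2 r ⟨hr0, hr.2.le.trans ht₁.2⟩
          refine (Real.sqrt_le_sqrt j1).trans (le_of_eq ?_)
          have j2 : 0 ≤ r ^ (-(3/4) : ℝ) := Real.rpow_nonneg hr0.le _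
          have j3 : CO * K ^ 2 * r ^ (-(3/2) : ℝ) = (√CO * K * r ^ (-(3/4) : ℝ)) ^ 2 := by
            rw [mul_pow, mul_pow, Real.sq_sqrt hCO, ← Real.rpow_natCast (r ^ (-(3/4) : ℝ)) 2,
              ← Real.rpow_mul hr0.le]
            norm_num
          rw [j3, Real.sqrt_sq (by positivity)])
      refine i3.trans (le_of_eq ?_)
      rw [intervalIntegral.integral_const_mul, integral_rpow (Or.inl (by norm_num))]
      have j4 : (-(3/4) : ℝ) + 1 = 1/4 := by norm_num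
      rw [j4, Real.zero_rpow (by norm_num)]
      ring
    rw [h2, zero_add, sub_zero, ← hE] at h1
    refine h1.trans ?_
    have hq0 : 0 < t₁ ^ (1/4 : ℝ) := Real.rpow_pos_of_pos ht0 _
    set q := t₁ ^ (1/4 : ℝ) with hq
    have hqq : q * q = s1 := by
      rw [hq, hs1, ← Real.rpow_add ht0, Real.sqrt_eq_rpow]
      norm_num
    have h5 : CB / (B * s1) * √E * (∫ r in (0:ℝ)..t₁, √(∫ x, sO (u r) x ^ 2)) ≤
        8 * CB * √CO * K / B * √(E / S2) := by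
      have k1 : √E ≤ 2 * q * √(E / S2) := by
        refine Real.sqrt_le_iff.2 ⟨by positivity, ?_⟩
        rw [mul_pow, Real.sq_sqrt (by positivity)]
        have k2 : (2 * q) ^ 2 = 4 * s1 := by
          rw [← hqq]
          ring
        have k3 : S2 ≤ 4 * s1 := by
          have k4 : T₂ ≤ 2 * t₁ := by linarith [ht₁.1]
          nlinarith
        rw [k2, mul_div_assoc', le_div_iff₀ hS0]
        nlinarith
      calc CB / (B * s1) * √E * (∫ r in (0:ℝ)..t₁, √(∫ x, sO (u r) x ^ 2))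
          ≤ CB / (B * s1) * (2 * q * √(E / S2)) * (√CO * K * (4 * q)) := by
            refine mul_le_mul (mul_le_mul_of_nonneg_left k1 (by positivity)) h4 ?_ (by positivity)
            exact intervalIntegral.integral_nonneg ht0.le fun r _ => Real.sqrt_nonneg _
        _ = 8 * CB * √CO * K / B * √(E / S2) * (q * q / s1) := by
            field_simp
            ring
        _ = 8 * CB * √CO * K / B * √(E / S2) := by
            rw [hqq, div_self hs0.ne', mul_one]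
    have h6 : 4 * CB * K / (B * s1) ^ 2 * t₁ = 4 * CB * K / B ^ 2 := by
      rw [← hs2]
      field_simp
    linarith
  linarith

end Pool.Agent.H87.NS
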