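/-
ROW GP. The crude step and the induction. PROOF. gp_step: let `Kc > 0` bound, for `t ∈ [0, T']`, the integrals `∫ |V| √gsq V` (vdv_bd), `∫ V⁴` (evo_bd) , `∫ Om²`, and let
`E = ∫ ‖u 0‖²`. Let `δ > 0` be so small that `2 Kc δ ≤ K/2`, `2 Kc δ + (CB/ℓ) √E √Kc δ + 4 CB K δ / ℓ² ≤ cG/4`, `δ ≤ ts/2`, `Kc δ ≤ CO K² T₂'^(-3/2)` (`T₂' = max T' 1`). Let MG hold at `b`,
`t ∈ [0, b']`, `b' ≤ b + δ`. If `t ≤ b`: `∫ |Om t| ≤ 2K`; if `t ≤ ts`, `ball (axp z) (ℓ/2) ⊆ {cb ℓ z = 1}` so its mass is `≤ ∫ |Om t| cb ≤ (3/4) cG`; if `t > ts`,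
`∫_{ball (axp z) σ} |Om t| ≤ √(5 σ³) √(∫ Om²) ≤ √(5 ε³ t^(3/2)) √(CO K² t^(-3/2)) ≤ √(20 CO ε³) K ≤ cG` (`vol ball ≤ 5 σ³`, H.sε). If `b < t ≤ b'`: step_O on `[b, t]`:
`∫ |Om t| ≤ (3/2) K + 2 Kc δ ≤ 2K`. If `t ≤ ts` (so `b ≤ ts`): wt_L1 on `[b, t]` with `χ = cb ℓ z`: `∫ |Om t| cb ≤ (3/4) cG + cG/4`. (Its hypothesis `∫ |Om r| ≤ 2K` on `[b,t]` by the
previous sentence.) If `t > ts`: `b ≥ t - δ ≥ t/2 > 0`, step_O2 on `[b, t]`: `∫ Om(t)² ≤ CO K² b^(-3/2) + Kc δ ≤ 2^(3/2) CO K² t^(-3/2) + CO K² t^(-3/2) ≤ 4 CO K² t^(-3/2)`, and as before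
`∫_{ball} |Om t| ≤ √(5 σ³) √(4 CO K² t^(-3/2)) = √(20 CO ε³) K ≤ cG`.
gp_all: by induction on `n`, `PG u K ℓ ts ε (min (n δ) T')`: `n = 0`: PG at `0` (`∫ |Om 0| ≤ K`, the ball of radius `ℓ/2` is contained in the ball of radius `ℓ`); the step: gm_main, gp_step. For
large `n` it is PG at `T'`; apply gm_main once more.
bounded_of_V4: as the end of the proof of thmA in NS/ThmA.lean (step_O2 on `[a, b]`, `∫_a^b ww(Om)` bounded, bounded_of_int).
-/
import Pool.Agent.H87.NG.GM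
import Pool.Agent.H87.NS.ThmA

set_option autoImplicit false

open Set Filter Topology MeasureTheory
open scoped ContDiff

namespace Pool.Agent.H87.NS

open Pool.Agent.H16

variable {T : ℝ} {u : ℝ → E3 → E3} {p : ℝ → E3 → ℝ} {K ℓ ts ε η T₂ : ℝ}

theorem GP_vol (x : E3) {s : ℝ} (h0 : 0 < s) :
    0 < (volume : Measure E3).real (Metric.ball x s) ∧
      (volume : Measure E3).real (Metric.ball x s) ≤ 5 * s ^ 3 := by
  have h := EuclideanSpace.volume_ball_fin_three x s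
  have h5 : (0 : ℝ) < Real.pi * 4 / 3 := by positivity
  have h6 : (volume : Measure E3).real (Metric.ball x s) = s ^ 3 * (Real.pi * 4 / 3) := by
    rw [Measure.real, h, ENNReal.toReal_mul, ENNReal.toReal_pow, ENNReal.toReal_ofReal h0.le,
      ENNReal.toReal_ofReal (by positivity)]
  have h4 : Real.pi * 4 / 3 ≤ 5 := by
    have := Real.pi_lt_d2
    linarith
  rw [h6]
  refine ⟨by positivity, ?_⟩
  have h7 : 0 < s ^ 3 := by positivity
  nlinarith

theorem GP_bint {f : E3 → ℝ} (hf : Continuous f) (x : E3) (r : ℝ) :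
    IntegrableOn f (Metric.ball x r) :=
  (hf.continuousOn.integrableOn_compact (isCompact_closedBall x r)).mono_set
    Metric.ball_subset_closedBall

/-- Cauchy-Schwarz on a ball. -/
theorem GP_cs {f : E3 → ℝ} (hf : Continuous f) (h2 : Integrable (fun x => f x ^ 2)) {M σ : ℝ}
    (hσ : 0 < σ) (hM : ∫ x, f x ^ 2 ≤ M) (y : E3) :
    ∫ x in Metric.ball y σ, |f x| ≤ √(5 * σ ^ 3 * M) := by
  obtain ⟨hv0, hv⟩ := GP_vol y hσ
  set v := (volume : Measure E3).real (Metric.ball y σ) with hvd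
  set A := ∫ x in Metric.ball y σ, |f x| with hA
  have hA0 : 0 ≤ A := integral_nonneg fun x => abs_nonneg _
  have hS : ∫ x in Metric.ball y σ, f x ^ 2 ≤ M :=
    (setIntegral_le_integral h2 (ae_of_all _ fun x => sq_nonneg _)).trans hM
  have hM0 : 0 ≤ M := (integral_nonneg fun x => sq_nonneg _).trans hM
  have h3 : ∫ x in Metric.ball y σ, (|f x| - A / v) ^ 2 =
      (∫ x in Metric.ball y σ, f x ^ 2) - 2 * (A / v) * A + (A / v) ^ 2 * v := by
    have e1 : ∀ x, (|f x| - A / v) ^ 2 = (f x ^ 2 - 2 * (A / v) * |f x|) + (A / v) ^ 2 := by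
      intro x
      rw [sub_sq, sq_abs]
      ring
    simp only [e1]
    rw [integral_add, integral_sub, integral_const_mul, setIntegral_const, smul_eq_mul]
    · rw [← hA, ← hvd]
      ring
    · exact h2.integrableOn
    · exact (GP_bint hf.abs y σ).const_mul _
    · exact (h2.integrableOn).sub ((GP_bint hf.abs y σ).const_mul _)
    · exact GP_bint continuous_const y σ
  have h4 : 0 ≤ ∫ x in Metric.ball y σ, (|f x| - A / v) ^ 2 := integral_nonneg fun x => sq_nonneg _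
  have h5 : A ^ 2 ≤ v * M := by
    rw [h3] at h4
    have e2 : (∫ x in Metric.ball y σ, f x ^ 2) - 2 * (A / v) * A + (A / v) ^ 2 * v =
        (∫ x in Metric.ball y σ, f x ^ 2) - A ^ 2 / v := by
      field_simp
      ring
    rw [e2] at h4
    have h6 : A ^ 2 / v ≤ M := by linarith
    rwa [div_le_iff₀ hv0, mul_comm] at h6
  refine Real.le_sqrt_of_sq_le (h5.trans ?_)
  exact mul_le_mul_of_nonneg_right hv hM0

theorem GP_CO : 0 < CO := by
  unfold CO
  have := SB_pos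
  have h : 0 ≤ (6 * SB) ^ (3/2 : ℝ) := Real.rpow_nonneg (by positivity) _
  linarith

/-- The mass of a ball of radius `ε √t`. -/
theorem GP_ball {f : E3 → ℝ} (hf : Continuous f) (h2 : Integrable (fun x => f x ^ 2)) {A t : ℝ}
    (hε : 0 < ε) (ht : 0 < t) (hK : 0 ≤ K) (hA : A ≤ 4)
    (hM : ∫ x, f x ^ 2 ≤ A * (CO * K ^ 2 * t ^ (-(3/2) : ℝ))) (y : E3) :
    ∫ x in Metric.ball y (ε * √t), |f x| ≤ √(20 * CO * ε ^ 3) * K := by
  have hs : 0 < √t := Real.sqrt_pos.2 ht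
  have hC := GP_CO
  have h1 := GP_cs hf h2 (mul_pos hε hs) hM y
  refine h1.trans ?_
  have h3 : √(20 * CO * ε ^ 3) * K = √(20 * CO * ε ^ 3 * K ^ 2) := by
    rw [Real.sqrt_mul (by positivity) (K ^ 2), Real.sqrt_sq hK]
  rw [h3]
  refine Real.sqrt_le_sqrt ?_
  have h4 : (√t) ^ 3 * t ^ (-(3/2) : ℝ) = 1 := by
    have e1 : (√t) ^ 3 = t ^ (3/2 : ℝ) := by
      rw [Real.sqrt_eq_rpow, ← Real.rpow_natCast, ← Real.rpow_mul ht.le]
      norm_num
    rw [e1, ← Real.rpow_add ht]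
    norm_num
  have h5 : 5 * (ε * √t) ^ 3 * (A * (CO * K ^ 2 * t ^ (-(3/2) : ℝ))) =
      A * (5 * CO * ε ^ 3 * K ^ 2) * ((√t) ^ 3 * t ^ (-(3/2) : ℝ)) := by ring
  rw [h5, h4, mul_one]
  have h6 : 0 ≤ 5 * CO * ε ^ 3 * K ^ 2 := by positivity
  nlinarith

/-- The mass near the axis and the cut-off. -/
theorem GP_near (hℓ : 0 < ℓ) {f : E3 → ℝ} (hi : Integrable f) (z : ℝ) :
    ∫ x in Metric.ball (axp z) (ℓ / 2), |f x| ≤ ∫ x, |f x| * cb ℓ z x := by
  obtain ⟨h1, _, h3, _⟩ := (Classical.choose_spec cutball).2 ℓ z hℓ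
  have hint : Integrable (fun x => |f x| * cb ℓ z x) := by
    refine hi.abs.mul_bdd (c := 1) h1.1.smooth.continuous.aestronglyMeasurable
      (ae_of_all _ fun x => ?_)
    rw [Real.norm_eq_abs, abs_of_nonneg (h1.1.nonneg x)]
    exact h1.1.le_one x
  have e : ∫ x in Metric.ball (axp z) (ℓ / 2), |f x| =
      ∫ x in Metric.ball (axp z) (ℓ / 2), |f x| * cb ℓ z x := by
    refine setIntegral_congr_fun Metric.isOpen_ball.measurableSet fun x hx => ?_
    rw [Metric.mem_ball, dist_eq_norm] at hx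
    rw [h3 x hx.le, mul_one]
  rw [e]
  exact setIntegral_le_integral hint (ae_of_all _ fun x => mul_nonneg (abs_nonneg _) (h1.1.nonneg x))

theorem gp_step (H : GH T u p K ℓ ts ε η T₂) {T' : ℝ} (hT' : T' < T) (hT2 : T' ≤ T₂) :
    ∃ δ : ℝ, 0 < δ ∧ ∀ b b' : ℝ, 0 ≤ b → b ≤ b' → b' ≤ b + δ → b' ≤ T' → MG u K ℓ ts b → PG u K ℓ ts ε b' := by
  have F := flow_of H.sol
  have hK := H.hK
  have hℓ := H.hℓ
  have hts := H.hts
  have hε := H.hε
  have hCO := GP_CO
  have hcG := cG_pos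
  have hCB := CB_pos
  obtain ⟨K1, hK10, hK1⟩ := vdv_bd F hT'
  obtain ⟨K2, hK2⟩ := evo_bd F.evV (pow_jfun (m := 2) (by norm_num)) hT'
  obtain ⟨K3, hK3⟩ := F.evO.bd T' hT'
  set Kc : ℝ := max K1 (max K2 K3) with hKc
  have hKc0 : 0 < Kc := hK10.trans_le (le_max_left _ _)
  have hKc1 : K1 ≤ Kc := le_max_left _ _
  have hKc2 : K2 ≤ Kc := (le_max_left _ _).trans (le_max_right _ _)
  have hKc3 : K3 ≤ Kc := (le_max_right _ _).trans (le_max_right _ _)
  set E : ℝ := ∫ x, ‖u 0 x‖ ^ 2 with hE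
  set T3 : ℝ := max T' 1 with hT3
  have hT30 : 0 < T3 := zero_lt_one.trans_le (le_max_right _ _)
  set L : ℝ := 2 * Kc + CB / ℓ * √E * √Kc + 4 * CB * K / ℓ ^ 2 with hL
  have hL0 : 0 < L := by positivity
  set d1 : ℝ := K / (4 * Kc) with hd1
  set d2 : ℝ := cG / (4 * L) with hd2
  set d3 : ℝ := CO * K ^ 2 * T3 ^ (-(3/2) : ℝ) / Kc with hd3
  have hK0 : 0 < K := by linarith
  have hd10 : 0 < d1 := by positivity
  have hd20 : 0 < d2 := by positivity
  have hd30 : 0 < d3 := by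
    have := Real.rpow_pos_of_pos hT30 (-(3/2) : ℝ)
    positivity
  refine ⟨min (min d1 d2) (min d3 (ts / 2)), by positivity, fun b b' hb0 hbb hbd hbT hM => ?_⟩
  set δ : ℝ := min (min d1 d2) (min d3 (ts / 2)) with hδ
  have hδ1 : δ ≤ d1 := (min_le_left _ _).trans (min_le_left _ _)
  have hδ2 : δ ≤ d2 := (min_le_left _ _).trans (min_le_right _ _)
  have hδ3 : δ ≤ d3 := (min_le_right _ _).trans (min_le_left _ _)
  have hδ4 : δ ≤ ts / 2 := (min_le_right _ _).trans (min_le_right _ _)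
  have e1 : 2 * (Kc * δ) ≤ K / 2 := by
    have h1 : Kc * δ ≤ Kc * d1 := mul_le_mul_of_nonneg_left hδ1 hKc0.le
    have h2 : Kc * d1 = K / 4 := by
      rw [hd1]
      field_simp
    linarith
  have e2 : L * δ ≤ cG / 4 := by
    have h1 : L * δ ≤ L * d2 := mul_le_mul_of_nonneg_left hδ2 hL0.le
    have h2 : L * d2 = cG / 4 := by
      rw [hd2]
      field_simp
    linarith
  have e3 : Kc * δ ≤ CO * K ^ 2 * T3 ^ (-(3/2) : ℝ) := by
    have h1 : Kc * δ ≤ Kc * d3 := mul_le_mul_of_nonneg_left hδ3 hKc0.le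
    have h2 : Kc * d3 = CO * K ^ 2 * T3 ^ (-(3/2) : ℝ) := by
      rw [hd3]
      field_simp
    linarith
  obtain ⟨hM1, hM2, hM3⟩ := hM
  have hcont : ∀ t ∈ Icc 0 T', Continuous (sO (u t)) := fun t ht =>
    (F.evO.smooth t ⟨ht.1, ht.2.trans_lt hT'⟩).continuous
  have hsq : ∀ t ∈ Icc 0 T', Integrable (fun x => sO (u t) x ^ 2) ∧ ∫ x, sO (u t) x ^ 2 ≤ Kc := fun t ht => by
    have h1 := DB_BL (hK3 t ht).1
    exact ⟨h1.2.1, h1.2.2.trans hKc3⟩
  intro t ht
  have htT : t ∈ Icc 0 T' := ⟨ht.1, ht.2.trans hbT⟩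
  have htT0 : t ∈ Ico 0 T := ⟨ht.1, htT.2.trans_lt hT'⟩
  rcases le_or_gt t b with htb | htb
  · obtain ⟨h1, h2⟩ := hM1 t ⟨ht.1, htb⟩
    refine ⟨h1, by linarith, fun z => ?_⟩
    unfold sg
    split_ifs with h3
    · have h4 := hM3 t ⟨ht.1, htb⟩ h3 z
      have h5 := GP_near hℓ h1 z
      linarith
    · have ht0 : 0 < t := hts.trans (not_le.1 h3)
      refine (GP_ball (A := 1) (hcont t htT) (hsq t htT).1 hε ht0 hK0.le (by norm_num) ?_ _).trans H.sε
      rw [one_mul]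
      exact hM2 t ⟨ht0, htb⟩
  · have hbb0 : b ∈ Icc 0 b := ⟨hb0, le_rfl⟩
    obtain ⟨h1, h2⟩ := hM1 b hbb0
    have htbd : t - b ≤ δ := by linarith [ht.2]
    have hvi : ∀ r, b ≤ r → r ≤ t → ∫ s in b..r, ∫ x, |sV (u s) x| * √(gsq (sV (u s)) x) ≤ Kc * δ := by
      intro r hr hrt
      have h6 : ∫ s in b..r, ∫ x, |sV (u s) x| * √(gsq (sV (u s)) x) ≤ ∫ _ in b..r, Kc := by
        refine intervalIntegral.integral_mono_on hr
          (vdv_ii F hb0 hr (hrt.trans_lt htT0.2)) intervalIntegrable_const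
          fun s hs => ?_
        exact (hK1 s ⟨hb0.trans hs.1, (hs.2.trans hrt).trans htT.2⟩).2.trans hKc1
      rw [intervalIntegral.integral_const, smul_eq_mul] at h6
      have h9 : (r - b) * Kc ≤ Kc * δ := by
        rw [mul_comm]
        exact mul_le_mul_of_nonneg_left (by linarith) hKc0.le
      linarith
    have hO : ∀ r ∈ Icc b t, Integrable (sO (u r)) ∧ ∫ x, |sO (u r) x| ≤ 2 * K := by
      intro r hr
      obtain ⟨h3, h4⟩ := step_O F hb0 hr.1 (hr.2.trans_lt htT0.2) h1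
      refine ⟨h3, h4.trans ?_⟩
      have h5 := hvi r hr.1 hr.2
      linarith
    obtain ⟨h3, h4⟩ := hO t ⟨htb.le, le_rfl⟩
    refine ⟨h3, h4, fun z => ?_⟩
    unfold sg
    split_ifs with h5
    · refine (GP_near hℓ h3 z).trans ?_
      obtain ⟨hw, -, -, -⟩ := (Classical.choose_spec cutball).2 ℓ z hℓ
      have h6 := wt_L1 H.sol hw hℓ hCB hb0 htb.le htT0.2 hO
      have h7 := hM3 b hbb0 (htb.le.trans h5) z
      have h8 := hvi t htb.le le_rfl
      have h9 : ∫ r in b..t, √(∫ x, sO (u r) x ^ 2) ≤ √Kc * δ := by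
        have h10 : ∫ r in b..t, √(∫ x, sO (u r) x ^ 2) ≤ ∫ _ in b..t, √Kc := by
          refine intervalIntegral.integral_mono_on htb.le (sqO_ii F hb0 htb.le htT0.2)
            intervalIntegrable_const fun s hs => ?_
          exact Real.sqrt_le_sqrt (hsq s ⟨hb0.trans hs.1, hs.2.trans htT.2⟩).2
        rw [intervalIntegral.integral_const, smul_eq_mul, mul_comm] at h10
        exact h10.trans (mul_le_mul_of_nonneg_left htbd (Real.sqrt_nonneg _))
      have h11 : CB / ℓ * √E * (∫ r in b..t, √(∫ x, sO (u r) x ^ 2)) ≤ CB / ℓ * √E * (√Kc * δ) :=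
        mul_le_mul_of_nonneg_left h9 (by positivity)
      have h12 : 4 * CB * K / ℓ ^ 2 * (t - b) ≤ 4 * CB * K / ℓ ^ 2 * δ :=
        mul_le_mul_of_nonneg_left htbd (by positivity)
      have h13 : L * δ = 2 * (Kc * δ) + CB / ℓ * √E * (√Kc * δ) + 4 * CB * K / ℓ ^ 2 * δ := by
        rw [hL]
        ring
      have h14 : ∫ x, |sO (u t) x| * cb ℓ z x ≤ (∫ x, |sO (u b) x| * cb ℓ z x)
          + 2 * (∫ r in b..t, ∫ x, |sV (u r) x| * √(gsq (sV (u r)) x))
          + CB / ℓ * √E * (∫ r in b..t, √(∫ x, sO (u r) x ^ 2)) + 4 * CB * K / ℓ ^ 2 * (t - b) := h6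
      linarith
    · have hts' : ts < t := not_le.1 h5
      have ht0 : 0 < t := hts.trans hts'
      have hbt : t / 2 ≤ b := by linarith
      have hb1 : 0 < b := by linarith
      refine (GP_ball (A := 4) (hcont t htT) (hsq t htT).1 hε ht0 hK0.le le_rfl ?_ _).trans H.sε
      have h6 := step_O2 F hb0 htb.le htT0.2
      have h7 : 0 ≤ ∫ r in b..t, ∫ x, gsq (sO (u r)) x :=
        intervalIntegral.integral_nonneg htb.le fun s _ => integral_nonneg fun x => gsq_nonneg _ x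
      have h8 : ∫ r in b..t, ∫ x, sV (u r) x ^ 4 ≤ Kc * δ := by
        have h9 : ∫ r in b..t, ∫ x, sV (u r) x ^ 4 ≤ ∫ _ in b..t, Kc := by
          refine intervalIntegral.integral_mono_on htb.le
            (evo_ii F.evV (pow_jfun (m := 2) (by norm_num)) hb0 htb.le htT0.2).1
            intervalIntegrable_const fun s hs => ?_
          have h10 := (hK2 s ⟨hb0.trans hs.1, hs.2.trans htT.2⟩).1.2
          refine (le_trans (le_of_eq ?_) h10).trans hKc2
          refine integral_congr_ae (Eventually.of_forall fun x => ?_)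
          exact (abs_of_nonneg (by positivity)).symm
        rw [intervalIntegral.integral_const, smul_eq_mul, mul_comm] at h9
        exact h9.trans (mul_le_mul_of_nonneg_left htbd hKc0.le)
      have h9 := hM2 b ⟨hb1, le_rfl⟩
      have h10 : t ^ (-(3/2) : ℝ) ≥ T3 ^ (-(3/2) : ℝ) :=
        Real.rpow_le_rpow_of_nonpos ht0 (htT.2.trans (le_max_left _ _)) (by norm_num)
      have h11 : b ^ (-(3/2) : ℝ) ≤ 3 * t ^ (-(3/2) : ℝ) := by
        have h12 : b ^ (-(3/2) : ℝ) ≤ (t / 2) ^ (-(3/2) : ℝ) :=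
          Real.rpow_le_rpow_of_nonpos (by linarith) hbt (by norm_num)
        refine h12.trans ?_
        rw [div_eq_mul_inv, Real.mul_rpow ht0.le (by norm_num), mul_comm]
        refine mul_le_mul_of_nonneg_right ?_ (Real.rpow_nonneg ht0.le _)
        rw [Real.inv_rpow (by norm_num), Real.rpow_neg (by norm_num), inv_inv]
        have h13 : (2 : ℝ) ^ (3/2 : ℝ) = 2 * √2 := by
          rw [show (3/2 : ℝ) = 1 + 1 / 2 by norm_num, Real.rpow_add (by norm_num), Real.rpow_one,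
            Real.sqrt_eq_rpow]
        rw [h13]
        have h14 : √2 ≤ 3 / 2 := by
          rw [Real.sqrt_le_left (by norm_num)]
          norm_num
        linarith
      have h15 : 0 ≤ CO * K ^ 2 := by positivity
      have h16 : CO * K ^ 2 * b ^ (-(3/2) : ℝ) ≤ CO * K ^ 2 * (3 * t ^ (-(3/2) : ℝ)) :=
        mul_le_mul_of_nonneg_left h11 h15
      have h17 : CO * K ^ 2 * T3 ^ (-(3/2) : ℝ) ≤ CO * K ^ 2 * t ^ (-(3/2) : ℝ) :=
        mul_le_mul_of_nonneg_left h10 h15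
      linarith

theorem gp_all (H : GH T u p K ℓ ts ε η T₂) {T' : ℝ} (h0 : 0 ≤ T') (hT' : T' < T) (hT2 : T' ≤ T₂) :
    MG u K ℓ ts T' ∧
    (∀ t ∈ Icc 0 T', Integrable (fun x => |sV (u t) x| ^ (3/2 : ℝ)) ∧ ∫ x, |sV (u t) x| ^ (3/2 : ℝ) ≤ N1 u K ε ts T₂) ∧
    ∫ t in (0:ℝ)..T', ∫ x, |sV (u t) x| * √(gsq (sV (u t)) x) ≤ η ∧
    (∀ t ∈ Ioc 0 T', ∫ x, sV (u t) x ^ 4 ≤ mG u K ε ts T₂ * t ^ (-(5/2) : ℝ)) := by
  obtain ⟨δ, hδ, hstep⟩ := gp_step H hT' hT2
  have hK := H.hK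
  have hcG := cG_pos
  have key : ∀ n : ℕ, PG u K ℓ ts ε (min (n * δ) T') := by
    intro n
    induction n with
    | zero =>
      intro t ht
      have ht0 : t = 0 := by
        have h1 := ht.2
        rw [Nat.cast_zero, zero_mul, min_eq_left h0] at h1
        exact le_antisymm h1 ht.1
      subst ht0
      refine ⟨H.o1.1, H.o1.2.trans (by linarith), fun z => ?_⟩
      have h2 : sg ℓ ts ε 0 = ℓ / 2 := by
        unfold sg
        rw [if_pos H.hts.le]
      rw [h2]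
      have h3 : ∫ x in Metric.ball (axp z) (ℓ / 2), |sO (u 0) x| ≤
          ∫ x in Metric.ball (axp z) ℓ, |sO (u 0) x| := by
        refine setIntegral_mono_set H.o1.1.abs.integrableOn (ae_of_all _ fun y => abs_nonneg _)
          (LE.le.eventuallyLE ?_)
        exact Metric.ball_subset_ball (by linarith [H.hℓ])
      have h4 := H.o2 z
      linarith
    | succ n ih =>
      have hn0 : 0 ≤ (n : ℝ) * δ := by positivity
      have hb0 : 0 ≤ min ((n : ℝ) * δ) T' := le_min hn0 h0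
      have hbT : min ((n : ℝ) * δ) T' ≤ T' := min_le_right _ _
      have hM := (gm_main H hb0 (hbT.trans_lt hT') (hbT.trans hT2) ih).1
      refine hstep _ _ hb0 ?_ ?_ (min_le_right _ _) hM
      · refine min_le_min_right _ ?_
        push_cast
        linarith
      · push_cast
        rw [min_le_iff]
        rcases le_total ((n : ℝ) * δ) T' with h1 | h1
        · left
          rw [min_eq_left h1]
          linarith
        · right
          rw [min_eq_right h1]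
          linarith
  obtain ⟨n, hn⟩ := exists_nat_ge (T' / δ)
  have h1 := key n
  rw [div_le_iff₀ hδ] at hn
  rw [min_eq_right hn] at h1
  exact gm_main H h0 hT' hT2 h1

theorem bounded_of_V4 {V W Om : ℝ → E3 → ℝ} (F : Flow T u V W Om) {a M : ℝ} (ha : 0 ≤ a) (haT : a < T)
    (hM : ∀ t ∈ Ico a T, ∫ x, V t x ^ 4 ≤ M) : ∃ C : ℝ, ∀ t ∈ Ico 0 T, ∀ x, |V t x| ≤ C := by
  have hM₄0 : 0 ≤ M := (integral_nonneg fun x => by positivity).trans (hM a ⟨le_rfl, haT⟩)
  set Q₂ : ℝ := (∫ x, Om a x ^ 2) + (T - a) * M with hQ₂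
  have hO0 : 0 ≤ ∫ x, Om a x ^ 2 := integral_nonneg fun x => sq_nonneg _
  have hTt : 0 < T - a := by linarith
  have hQ₂0 : 0 ≤ Q₂ := by positivity
  have hO2 : ∀ t ∈ Ico a T,
      (∫ x, Om t x ^ 2) + ∫ s in a..t, ∫ x, gsq (Om s) x ≤ Q₂ := by
    intro t ht
    refine (step_O2 F ha ht.1 ht.2).trans ?_
    have h3 : ∫ s in a..t, ∫ x, V s x ^ 4 ≤ M * |t - a| := by
      refine (le_abs_self _).trans ?_
      rw [← Real.norm_eq_abs]
      refine intervalIntegral.norm_integral_le_of_norm_le_const (E := ℝ) fun s hs => ?_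
      rw [uIoc_of_le ht.1] at hs
      rw [Real.norm_eq_abs, abs_of_nonneg (integral_nonneg fun x => by positivity)]
      exact hM s ⟨hs.1.le, hs.2.trans_lt ht.2⟩
    rw [abs_of_nonneg (by linarith [ht.1] : (0:ℝ) ≤ t - a)] at h3
    have h4 : M * (t - a) ≤ (T - a) * M := by nlinarith [ht.2]
    linarith
  have hG0 : ∀ t ∈ Ico a T, 0 ≤ ∫ s in a..t, ∫ x, gsq (Om s) x := fun t ht =>
    intervalIntegral.integral_nonneg ht.1 fun s _ => integral_nonneg fun x => gsq_nonneg _ x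
  have hww : ∀ f : E3 → ℝ, ww f ≤ CW * (2 + (∫ x, f x ^ 2) + ∫ x, gsq f x) := by
    intro f
    have hsq : ∀ z : ℝ, 0 ≤ z → √z ≤ 1 + z := fun z hz => by
      rw [Real.sqrt_le_left (by linarith)]
      nlinarith
    unfold ww
    refine mul_le_mul_of_nonneg_left ?_ CW_pos.le
    have h1 := hsq (∫ x, f x ^ 2) (integral_nonneg fun x => sq_nonneg _)
    have h2 := hsq (∫ x, gsq f x) (integral_nonneg fun x => gsq_nonneg f x)
    linarith
  have hgii : ∀ b ∈ Ico a T, IntervalIntegrable (fun t => ∫ x, gsq (Om t) x) volume a b := by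
    intro b hb
    obtain ⟨K, hK⟩ := F.evO.bd b hb.2
    have hJ := (evo_jc F.evO (pow_jfun (m := 1) le_rfl)).2.2.2
    refine ti_int hJ hb.2 (K := 3 * K) (fun t ht => ?_) ha hb.1
    have h1 := gsq_int (hK t ht).1
    refine ⟨h1.1, ?_⟩
    have h2 : ∫ x, |gsq (Om t) x| = ∫ x, gsq (Om t) x :=
      integral_congr_ae (Filter.Eventually.of_forall fun x => abs_of_nonneg (gsq_nonneg _ x))
    rw [h2]
    exact h1.2
  refine bounded_of_int F (Q := CW * ((2 + Q₂) * (T - a) + Q₂)) ha haT fun b hb' => ?_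
  have hii := hgii b hb'
  have h5 : ∫ t in a..b, ww (Om t) ≤
      ∫ t in a..b, CW * ((2 + Q₂) + ∫ x, gsq (Om t) x) := by
    refine intervalIntegral.integral_mono_on hb'.1 (ww_ii F ha hb'.1 hb'.2)
      ((intervalIntegrable_const.add hii).const_mul CW) fun t ht => ?_
    have ht' : t ∈ Ico a T := ⟨ht.1, ht.2.trans_lt hb'.2⟩
    refine (hww _).trans (mul_le_mul_of_nonneg_left ?_ CW_pos.le)
    have h6 := hO2 t ht'
    have h7 := hG0 t ht'
    linarith
  refine h5.trans ?_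
  rw [intervalIntegral.integral_const_mul,
    intervalIntegral.integral_add intervalIntegrable_const hii, intervalIntegral.integral_const,
    smul_eq_mul]
  refine mul_le_mul_of_nonneg_left ?_ CW_pos.le
  have h8 := hO2 b hb'
  have h9 : 0 ≤ ∫ x, Om b x ^ 2 := integral_nonneg fun x => sq_nonneg _
  have h10 : (b - a) * (2 + Q₂) ≤ (2 + Q₂) * (T - a) := by
    rw [mul_comm]
    exact mul_le_mul_of_nonneg_left (by linarith [hb'.2]) (by linarith)
  linarith

end Pool.Agent.H87.NS
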