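/-
ROW GT. The theorem.
-/
import Pool.Agent.H87.NG.GP
import Pool.Agent.H87.NG.GF

set_option autoImplicit false

open Set Filter Topology MeasureTheory
open scoped ContDiff

namespace Pool.Agent.H87.NS

open Pool.Agent.H16

theorem GT_CO : 0 < CO := by
  unfold CO
  have := SB_pos
  positivity

theorem GT_c1 : 0 < c1 := by
  unfold c1
  have := c0_pos
  positivity

theorem GT_frac {x y b : ℝ} (hx : 0 ≤ x) (hb : 0 < b) (hy : x * (1 / b) ≤ y) (hy0 : 0 < y) : x / y ≤ b := by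
  rw [div_le_iff₀ hy0]
  rw [mul_one_div, div_le_iff₀ hb] at hy
  linarith

/-- The parameters which depend on `K` only. -/
theorem GT_par {K : ℝ} (hK : 1 ≤ K) : ∃ B a q ε r η : ℝ, 4 ≤ B ∧ 0 < a ∧ 1 ≤ q ∧ 0 < ε ∧ 0 < r ∧ r ≤ 1 ∧ 0 < η ∧
    4 * CB * K / B ^ 2 ≤ c1 / 2 / 12 ∧ √8 * a * √B * √CO * K ≤ c1 / 2 / 6 ∧
    1 / a * √(10 * B ^ 3) * (1 / q) ≤ c1 / 2 / 6 ∧ 8 * CB * √CO * K / B * (1 / q) ≤ c1 / 2 / 12 ∧
    √(20 * CO * ε ^ 3) * K ≤ cG ∧ (4 * CB * √CO * K + 4 * CB * K) * r ≤ cG / 8 ∧ η ≤ cG / 16 ∧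
    η ≤ K / 8 ∧ η ≤ c1 / 2 / 12 := by
  have hK0 : 0 < K := by linarith
  have hCO := GT_CO
  have hc1 := GT_c1
  have hCB := CB_pos
  have hcG := cG_pos
  obtain ⟨c, hc⟩ : ∃ c : ℝ, c = c1 / 2 := ⟨_, rfl⟩
  rw [← hc]
  have hc0 : 0 < c := by rw [hc]; linarith
  obtain ⟨B, hB⟩ : ∃ B : ℝ, B = 4 + 48 * CB * K / c := ⟨_, rfl⟩
  have hB4 : 4 ≤ B := by
    rw [hB]
    have : 0 ≤ 48 * CB * K / c := by positivity
    linarith
  have hB0 : 0 < B := by linarith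
  have hB2 : 4 * CB * K / B ^ 2 ≤ c / 12 := by
    rw [div_le_iff₀ (by positivity)]
    have h1 : 48 * CB * K / c ≤ B := by rw [hB]; linarith
    rw [div_le_iff₀ hc0] at h1
    have h2 : B ≤ B ^ 2 := by nlinarith
    nlinarith
  obtain ⟨a, ha⟩ : ∃ a : ℝ, a = c / 6 / (√8 * √B * √CO * K) := ⟨_, rfl⟩
  have ha0 : 0 < a := by
    rw [ha]
    positivity
  have ha1 : √8 * a * √B * √CO * K ≤ c / 6 := by
    have h1 : 0 < √8 * √B * √CO * K := by positivity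
    have h2 : √8 * a * √B * √CO * K = a * (√8 * √B * √CO * K) := by ring
    rw [h2, ha, div_mul_cancel₀ _ h1.ne']
  obtain ⟨X, hX⟩ : ∃ X : ℝ, X = 1 / a * √(10 * B ^ 3) := ⟨_, rfl⟩
  obtain ⟨Y, hY⟩ : ∃ Y : ℝ, Y = 8 * CB * √CO * K / B := ⟨_, rfl⟩
  have hX0 : 0 ≤ X := by rw [hX]; positivity
  have hY0 : 0 ≤ Y := by rw [hY]; positivity
  obtain ⟨q, hq⟩ : ∃ q : ℝ, q = 1 + X * 6 / c + Y * 12 / c := ⟨_, rfl⟩
  have hq1 : 1 ≤ q := by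
    rw [hq]
    have h1 : 0 ≤ X * 6 / c := by positivity
    have h2 : 0 ≤ Y * 12 / c := by positivity
    linarith
  have hq0 : 0 < q := by linarith
  have hqX : X * (1 / q) ≤ c / 6 := by
    rw [mul_one_div, div_le_iff₀ hq0, hq]
    have h2 : 0 ≤ Y * 12 / c := by positivity
    have h3 : c / 6 * (X * 6 / c) = X := by field_simp
    nlinarith
  have hqY : Y * (1 / q) ≤ c / 12 := by
    rw [mul_one_div, div_le_iff₀ hq0, hq]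
    have h2 : 0 ≤ X * 6 / c := by positivity
    have h3 : c / 12 * (Y * 12 / c) = Y := by field_simp
    nlinarith
  obtain ⟨ε, hε⟩ : ∃ ε : ℝ, ε = min 1 (cG ^ 2 / (20 * CO * K ^ 2)) := ⟨_, rfl⟩
  have hε0 : 0 < ε := by
    rw [hε]
    exact lt_min one_pos (by positivity)
  have hε1 : ε ≤ 1 := by rw [hε]; exact min_le_left _ _
  have hε2 : √(20 * CO * ε ^ 3) * K ≤ cG := by
    have h1 : ε ≤ cG ^ 2 / (20 * CO * K ^ 2) := by
      conv_lhs => rw [hε]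
      exact min_le_right _ _
    rw [le_div_iff₀ (by positivity)] at h1
    have h2 : ε ^ 3 ≤ ε := by
      have : ε ^ 3 = ε * ε ^ 2 := by ring
      rw [this]
      exact mul_le_of_le_one_right hε0.le (pow_le_one₀ hε0.le hε1)
    have h3 : √(20 * CO * ε ^ 3) * K = √(20 * CO * ε ^ 3 * K ^ 2) := by
      rw [Real.sqrt_mul (x := 20 * CO * ε ^ 3) (by positivity), Real.sqrt_sq hK0.le]
    rw [h3]
    refine Real.sqrt_le_iff.2 ⟨hcG.le, ?_⟩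
    have h4 : 20 * CO * ε ^ 3 * K ^ 2 ≤ 20 * CO * ε * K ^ 2 := by
      have : 0 < 20 * CO * K ^ 2 := by positivity
      nlinarith
    linarith
  obtain ⟨Z, hZ⟩ : ∃ Z : ℝ, Z = 4 * CB * √CO * K + 4 * CB * K := ⟨_, rfl⟩
  have hZ0 : 0 < Z := by rw [hZ]; positivity
  refine ⟨B, a, q, ε, min 1 (cG / 8 / Z), min (cG / 16) (min (K / 8) (c / 12)), hB4, ha0, hq1, hε0, ?_, ?_,
    ?_, hB2, ha1, ?_, ?_, hε2, ?_, ?_, ?_, ?_⟩
  · exact lt_min one_pos (by positivity)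
  · exact min_le_left _ _
  · exact lt_min (by positivity) (lt_min (by positivity) (by positivity))
  · rw [← hX]; exact hqX
  · rw [← hY]; exact hqY
  · rw [← hZ]
    have h1 : min 1 (cG / 8 / Z) ≤ cG / 8 / Z := min_le_right _ _
    rw [le_div_iff₀ hZ0] at h1
    linarith
  · exact min_le_left _ _
  · exact (min_le_right _ _).trans (min_le_left _ _)
  · exact (min_le_right _ _).trans (min_le_right _ _)

theorem GT_ratio {q r S ℓ : ℝ} (hq : 0 < q) (hr : 0 < r) (hS : 0 < S) (hℓ : 0 < ℓ) :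
    Real.log (q ^ 4 * S ^ 2 * ℓ ^ 2 / (r ^ 4 * ℓ ^ 2 / S ^ 2)) = Real.log (q ^ 4 / r ^ 4) + 4 * Real.log S := by
  have h1 : q ^ 4 * S ^ 2 * ℓ ^ 2 / (r ^ 4 * ℓ ^ 2 / S ^ 2) = q ^ 4 / r ^ 4 * S ^ 4 := by
    field_simp
  rw [h1, Real.log_mul (by positivity) (by positivity), Real.log_pow]
  push_cast
  ring

/-- the quantities `A₁`, `A₂` -/
theorem GT_Q {K ε q r : ℝ} (hK : 1 ≤ K) (hε : 0 < ε) (hq : 1 ≤ q) (hr : 0 < r) (hr1 : r ≤ 1) :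
    ∃ A₁ A₂ : ℝ, 0 < A₁ ∧ 0 < A₂ ∧ ∀ S ℓ : ℝ, 1 ≤ S → 0 < ℓ →
      Real.exp (8 * QG K ε (r ^ 4 * ℓ ^ 2 / S ^ 2) (q ^ 4 * S ^ 2 * ℓ ^ 2) + 1) =
        A₁ * S ^ (32 * CG * K ^ 3 / ε ^ 2) ∧
      0 ≤ 1 + 4 * QG K ε (r ^ 4 * ℓ ^ 2 / S ^ 2) (q ^ 4 * S ^ 2 * ℓ ^ 2) ∧
      1 + 4 * QG K ε (r ^ 4 * ℓ ^ 2 / S ^ 2) (q ^ 4 * S ^ 2 * ℓ ^ 2) ≤ A₂ * S := by
  have hCG := CG_pos
  have hK0 : 0 < K := by linarith
  have hq0 : 0 < q := by linarith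
  have hl : 0 ≤ Real.log (q ^ 4 / r ^ 4) := by
    refine Real.log_nonneg ?_
    rw [one_le_div (by positivity)]
    calc r ^ 4 ≤ 1 := pow_le_one₀ hr.le hr1
      _ ≤ q ^ 4 := one_le_pow₀ hq
  obtain ⟨l, hl'⟩ : ∃ l, l = Real.log (q ^ 4 / r ^ 4) := ⟨_, rfl⟩
  obtain ⟨e, he⟩ : ∃ e, e = 1 / ε ^ 2 := ⟨_, rfl⟩
  have he0 : 0 < e := by rw [he]; positivity
  refine ⟨Real.exp (8 * (CG * K ^ 3 * (4 + e * l)) + 1), 1 + 4 * (CG * K ^ 3 * (4 + e * (l + 4))),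
    Real.exp_pos _, ?_, ?_⟩
  · rw [← hl'] at hl
    positivity
  · intro S ℓ hS hℓ
    have hS0 : 0 < S := by linarith
    have h1 : QG K ε (r ^ 4 * ℓ ^ 2 / S ^ 2) (q ^ 4 * S ^ 2 * ℓ ^ 2) =
        CG * K ^ 3 * (4 + e * (l + 4 * Real.log S)) := by
      unfold QG
      rw [GT_ratio hq0 hr hS0 hℓ, ← hl', ← he]
    rw [h1]
    rw [← hl'] at hl
    have hlS : 0 ≤ Real.log S := Real.log_nonneg hS
    have hlS2 : Real.log S ≤ S := by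
      have := Real.log_le_sub_one_of_pos hS0
      linarith
    refine ⟨?_, ?_, ?_⟩
    · rw [Real.rpow_def_of_pos hS0, ← Real.exp_add]
      congr 1
      rw [he]
      field_simp
      ring
    · positivity
    · have h2 : l + 4 * Real.log S ≤ (l + 4) * S := by nlinarith
      have h3 : 4 + e * (l + 4 * Real.log S) ≤ (4 + e * (l + 4)) * S := by nlinarith
      have h4 : 0 < CG * K ^ 3 := by positivity
      nlinarith [mul_le_mul_of_nonneg_left h3 h4.le]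

theorem GT_th {θ e : ℝ} (h0 : 0 ≤ θ) (h1 : θ ≤ 1) (he : 1 ≤ e) : θ ^ e ≤ θ := by
  calc θ ^ e ≤ θ ^ (1 : ℝ) := Real.rpow_le_rpow_of_exponent_ge' h0 h1 (by norm_num) he
    _ = θ := Real.rpow_one θ

theorem thmG (K : ℝ) (hK : 1 ≤ K) : ∃ δ m : ℝ, 0 < δ ∧ 0 < m ∧ ∀ (S ℓ T : ℝ) (u : ℝ → E3 → E3) (p : ℝ → E3 → ℝ),
    1 ≤ S → 0 < ℓ → IsHInfAxisymNS T u p → Integrable (sO (u 0)) → ∫ x, |sO (u 0) x| ≤ K →
    (∀ x, S * ℓ ≤ ‖x‖ → sO (u 0) x = 0) → (∀ z, ∫ x in Metric.ball (axp z) ℓ, |sO (u 0) x| ≤ cG / 2) →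
    ∫ x, ‖u 0 x‖ ^ 2 ≤ S * ℓ → Integrable (fun x => |sV (u 0) x| ^ (3/2 : ℝ)) →
    ∫ x, |sV (u 0) x| ^ (3/2 : ℝ) ≤ δ * S ^ (-m) →
    ∃ C : ℝ, ∀ t ∈ Ico 0 T, ∀ x, |sV (u t) x| ≤ C := by
  have hK0 : 0 < K := by linarith
  have hCO := GT_CO
  have hc1 := GT_c1
  have hCB := CB_pos
  have hcG := cG_pos
  have hSB := SB_pos
  have hCG := CG_pos
  obtain ⟨B, a, q, ε, r, η, hB4, ha, hq1, hε, hr, hr1, hη, k1, k2, k3, k4, k5, k6, k7, k8, k9⟩ := GT_par hK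
  have hB0 : 0 < B := by linarith
  have hq0 : 0 < q := by linarith
  obtain ⟨A₁, A₂, hA1, hA2, hA⟩ := GT_Q hK hε hq1 hr hr1
  obtain ⟨A₃, hA3⟩ : ∃ A₃ : ℝ, A₃ = Real.exp (16 * (CG * K ^ 3 * (4 + 1 / ε ^ 2)) + 1) ^ (17/2 : ℝ) *
    (24 * SB) ^ (5/2 : ℝ) := ⟨_, rfl⟩
  have hA30 : 0 < A₃ := by
    rw [hA3]
    have h1 := Real.exp_pos (16 * (CG * K ^ 3 * (4 + 1 / ε ^ 2)) + 1)
    positivity
  obtain ⟨θ, hθ0, hθ1, hθ2, hθ3, hθ4⟩ : ∃ θ : ℝ, 0 < θ ∧ θ ≤ 1 ∧ 2 * √SB * A₂ * θ ≤ η ∧ A₃ * θ ≤ K ^ 2 ∧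
      4 * √SB * θ ≤ c1 / 2 / 6 := by
    have hs : 0 < √SB := Real.sqrt_pos.2 hSB
    refine ⟨min 1 (min (η / (2 * √SB * A₂)) (min (K ^ 2 / A₃) (c1 / 2 / 6 / (4 * √SB)))), ?_, ?_, ?_, ?_, ?_⟩
    · exact lt_min one_pos (lt_min (by positivity) (lt_min (by positivity) (by positivity)))
    · exact min_le_left _ _
    · have h1 : min 1 (min (η / (2 * √SB * A₂)) (min (K ^ 2 / A₃) (c1 / 2 / 6 / (4 * √SB)))) ≤
          η / (2 * √SB * A₂) := (min_le_right _ _).trans (min_le_left _ _)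
      rw [le_div_iff₀ (by positivity)] at h1
      linarith
    · have h1 : min 1 (min (η / (2 * √SB * A₂)) (min (K ^ 2 / A₃) (c1 / 2 / 6 / (4 * √SB)))) ≤
          K ^ 2 / A₃ := (min_le_right _ _).trans ((min_le_right _ _).trans (min_le_left _ _))
      rw [le_div_iff₀ hA30] at h1
      linarith
    · have h1 : min 1 (min (η / (2 * √SB * A₂)) (min (K ^ 2 / A₃) (c1 / 2 / 6 / (4 * √SB)))) ≤
          c1 / 2 / 6 / (4 * √SB) := (min_le_right _ _).trans ((min_le_right _ _).trans (min_le_right _ _))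
      rw [le_div_iff₀ (by positivity)] at h1
      linarith
  obtain ⟨m₁, hm₁⟩ : ∃ m₁ : ℝ, m₁ = 32 * CG * K ^ 3 / ε ^ 2 := ⟨_, rfl⟩
  have hm₁0 : 0 < m₁ := by rw [hm₁]; positivity
  refine ⟨θ / A₁, m₁ + 1, by positivity, by positivity, ?_⟩
  intro S ℓ T u p hS hℓ h hO1 hO2 hsupp hball hE hV1 hV2
  have hS0 : 0 < S := by linarith
  obtain ⟨ts, hts⟩ : ∃ ts : ℝ, ts = r ^ 4 * ℓ ^ 2 / S ^ 2 := ⟨_, rfl⟩
  obtain ⟨T₂, hT₂⟩ : ∃ T₂ : ℝ, T₂ = q ^ 4 * S ^ 2 * ℓ ^ 2 := ⟨_, rfl⟩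
  obtain ⟨e1, e2, e3⟩ := hA S ℓ hS hℓ
  rw [← hts, ← hT₂] at e1 e2 e3
  rw [← hm₁] at e1
  have hts0 : 0 < ts := by rw [hts]; positivity
  have hT₂0 : 0 < T₂ := by rw [hT₂]; positivity
  have hV0 : 0 ≤ ∫ x, |sV (u 0) x| ^ (3/2 : ℝ) := integral_nonneg fun x => by positivity
  have hN0 : 0 ≤ N1 u K ε ts T₂ := by
    unfold N1
    exact mul_nonneg hV0 (Real.exp_pos _).le
  have hN : N1 u K ε ts T₂ ≤ θ / S := by
    unfold N1
    rw [e1]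
    have h1 : S ^ (-(m₁ + 1)) * S ^ m₁ = S⁻¹ := by
      rw [← Real.rpow_add hS0]
      have : -(m₁ + 1) + m₁ = -1 := by ring
      rw [this, Real.rpow_neg_one]
    calc (∫ x, |sV (u 0) x| ^ (3/2 : ℝ)) * (A₁ * S ^ m₁)
        ≤ θ / A₁ * S ^ (-(m₁ + 1)) * (A₁ * S ^ m₁) :=
          mul_le_mul_of_nonneg_right hV2 (by positivity)
      _ = θ * (S ^ (-(m₁ + 1)) * S ^ m₁) := by field_simp
      _ = θ / S := by rw [h1]; rfl
  have hNθ : N1 u K ε ts T₂ ≤ θ := hN.trans (div_le_self hθ0.le hS)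
  have hN1 : N1 u K ε ts T₂ ≤ 1 := hNθ.trans hθ1
  have hN43 : N1 u K ε ts T₂ ^ (4/3 : ℝ) ≤ N1 u K ε ts T₂ := GT_th hN0 hN1 (by norm_num)
  have hN83 : N1 u K ε ts T₂ ^ (8/3 : ℝ) ≤ N1 u K ε ts T₂ := GT_th hN0 hN1 (by norm_num)
  have hs0 : 0 ≤ √SB := Real.sqrt_nonneg _
  have hmG0 : 0 ≤ mG u K ε ts T₂ := by
    unfold mG
    rw [← hA3]
    exact mul_nonneg hA30.le (Real.rpow_nonneg hN0 _)
  have hrS : √(S * ℓ) * √(ℓ / S) = ℓ := by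
    rw [← Real.sqrt_mul (by positivity)]
    have : S * ℓ * (ℓ / S) = ℓ ^ 2 := by field_simp
    rw [this, Real.sqrt_sq hℓ.le]
  have hts14 : ts ^ (1/4 : ℝ) = r * √(ℓ / S) := by
    have h1 : ts = (r * √(ℓ / S)) ^ 4 := by
      have h2 : √(ℓ / S) ^ 4 = (ℓ / S) ^ 2 := by
        have : √(ℓ / S) ^ 4 = (√(ℓ / S) ^ 2) ^ 2 := by ring
        rw [this, Real.sq_sqrt (by positivity)]
      rw [mul_pow, h2, hts]
      field_simp
    rw [h1, ← Real.rpow_natCast, ← Real.rpow_mul (by positivity)]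
    norm_num
  have H : GH T u p K ℓ ts ε η T₂ := by
    refine ⟨h, hK, hℓ, hts0, ?_, hε, ?_, ⟨hO1, hO2⟩, hball, hV1, k5, ?_, k7, k8, ?_, ?_⟩
    · rw [hts, div_le_iff₀ (by positivity)]
      have h1 : r ^ 4 ≤ 1 := pow_le_one₀ hr.le hr1
      have h2 : (1 : ℝ) ≤ S ^ 2 := one_le_pow₀ hS
      have h3 : 0 < ℓ ^ 2 := by positivity
      nlinarith
    · rw [hts, hT₂, div_le_iff₀ (by positivity)]
      have h1 : r ^ 4 ≤ 1 := pow_le_one₀ hr.le hr1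
      have h2 : (1 : ℝ) ≤ S ^ 2 := one_le_pow₀ hS
      have h4 : (1 : ℝ) ≤ q ^ 4 := one_le_pow₀ hq1
      have h3 : 0 < ℓ ^ 2 := by positivity
      have h5 : 1 ≤ q ^ 4 * S ^ 2 * S ^ 2 := by
        have h6 : 1 ≤ q ^ 4 * S ^ 2 := one_le_mul_of_one_le_of_one_le h4 h2
        exact one_le_mul_of_one_le_of_one_le h6 h2
      calc r ^ 4 * ℓ ^ 2 ≤ 1 * ℓ ^ 2 := mul_le_mul_of_nonneg_right h1 h3.le
        _ ≤ (q ^ 4 * S ^ 2 * S ^ 2) * ℓ ^ 2 := mul_le_mul_of_nonneg_right h5 h3.le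
        _ = q ^ 4 * S ^ 2 * ℓ ^ 2 * S ^ 2 := by ring
    · calc 2 * √SB * (1 + 4 * QG K ε ts T₂) * N1 u K ε ts T₂ ^ (4/3 : ℝ)
          ≤ 2 * √SB * (A₂ * S) * (θ / S) := by
            refine mul_le_mul (mul_le_mul_of_nonneg_left e3 (by positivity)) (hN43.trans hN)
              (Real.rpow_nonneg hN0 _) (by positivity)
        _ = 2 * √SB * A₂ * θ := by field_simp
        _ ≤ η := hθ2
    · unfold mG
      rw [← hA3]
      calc A₃ * N1 u K ε ts T₂ ^ (8/3 : ℝ) ≤ A₃ * θ :=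
            mul_le_mul_of_nonneg_left (hN83.trans hNθ) hA30.le
        _ ≤ K ^ 2 := hθ3
    · have h1 : √(∫ x, ‖u 0 x‖ ^ 2) ≤ √(S * ℓ) := Real.sqrt_le_sqrt hE
      rw [hts14]
      have h2 : CB / ℓ * √(∫ x, ‖u 0 x‖ ^ 2) * (4 * √CO * K * (r * √(ℓ / S))) ≤
          4 * CB * √CO * K * r := by
        calc CB / ℓ * √(∫ x, ‖u 0 x‖ ^ 2) * (4 * √CO * K * (r * √(ℓ / S)))
            ≤ CB / ℓ * √(S * ℓ) * (4 * √CO * K * (r * √(ℓ / S))) := by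
              refine mul_le_mul_of_nonneg_right (mul_le_mul_of_nonneg_left h1 (by positivity)) (by positivity)
          _ = CB / ℓ * (4 * √CO * K * r) * (√(S * ℓ) * √(ℓ / S)) := by ring
          _ = 4 * CB * √CO * K * r := by
              rw [hrS]
              field_simp
      have h3 : 4 * CB * K / ℓ ^ 2 * ts ≤ 4 * CB * K * r := by
        have h4 : ts ≤ r * ℓ ^ 2 := by
          rw [hts, div_le_iff₀ (by positivity)]
          have h5 : r ^ 4 ≤ r := by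
            have : r ^ 4 = r * r ^ 3 := by ring
            rw [this]
            exact mul_le_of_le_one_right hr.le (pow_le_one₀ hr.le hr1)
          have h6 : (1 : ℝ) ≤ S ^ 2 := one_le_pow₀ hS
          calc r ^ 4 * ℓ ^ 2 ≤ r * ℓ ^ 2 := mul_le_mul_of_nonneg_right h5 (by positivity)
            _ ≤ r * ℓ ^ 2 * S ^ 2 := le_mul_of_one_le_right (by positivity) h6
        calc 4 * CB * K / ℓ ^ 2 * ts ≤ 4 * CB * K / ℓ ^ 2 * (r * ℓ ^ 2) :=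
              mul_le_mul_of_nonneg_left h4 (by positivity)
          _ = 4 * CB * K * r := by field_simp
      linarith
  have F := flow_of h
  rcases le_or_gt T 0 with hT0 | hT0
  · exact ⟨0, fun t ht => absurd ht.1 (not_le.2 (ht.2.trans_le hT0))⟩
  rcases le_or_gt T T₂ with hTT | hTT
  · refine bounded_of_V4 F (a := T / 2) (M := mG u K ε ts T₂ * (T / 2) ^ (-(5/2) : ℝ)) (by linarith)
      (by linarith) ?_
    intro t ht
    have ht0 : 0 < t := by linarith [ht.1]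
    have h4 := (gp_all H ht0.le ht.2 (ht.2.le.trans hTT)).2.2.2 t ⟨ht0, le_rfl⟩
    refine h4.trans (mul_le_mul_of_nonneg_left ?_ hmG0)
    exact Real.rpow_le_rpow_of_nonpos (by linarith) ht.1 (by norm_num)
  · obtain ⟨g1, g2, g3, g4⟩ := gp_all H hT₂0.le hTT le_rfl
    obtain ⟨g11, g12, g13⟩ := g1
    have hsup : ∀ x, B * √(T₂ / 2) / 2 ≤ ‖x‖ → sO (u 0) x = 0 := by
      intro x hx
      refine hsupp x (le_trans ?_ hx)
      have h1 : S * ℓ / 2 ≤ √(T₂ / 2) := by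
        refine Real.le_sqrt_of_sq_le ?_
        rw [hT₂]
        have h4 : (1 : ℝ) ≤ q ^ 4 := one_le_pow₀ hq1
        have h5 : 0 < S ^ 2 * ℓ ^ 2 := by positivity
        have h6 : (S * ℓ / 2) ^ 2 = 1 / 4 * (S ^ 2 * ℓ ^ 2) := by ring
        rw [h6]
        nlinarith
      have h2 : 0 ≤ √(T₂ / 2) := Real.sqrt_nonneg _
      nlinarith
    obtain ⟨t₁, ht₁, hf⟩ := gf_final h ha hB0 hK0.le hT₂0 hTT
      (fun t ht => ⟨(g11 t ht).1, (g11 t ht).2.trans (by linarith)⟩) g12 g3 hsup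
    have ht10 : 0 ≤ t₁ := by linarith [ht₁.1]
    have hET : √((∫ x, ‖u 0 x‖ ^ 2) / √T₂) ≤ 1 / q := by
      have h1 : √T₂ = q ^ 2 * (S * ℓ) := by
        rw [hT₂]
        have : q ^ 4 * S ^ 2 * ℓ ^ 2 = (q ^ 2 * (S * ℓ)) ^ 2 := by ring
        rw [this, Real.sqrt_sq (by positivity)]
      rw [h1]
      refine Real.sqrt_le_iff.2 ⟨by positivity, ?_⟩
      rw [div_le_iff₀ (by positivity)]
      refine hE.trans (le_of_eq ?_)
      field_simp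
    have hfin : ∫ x, |sO (u t₁) x| ≤ c1 / 2 * (4 / 6) := by
      have j1 : 1 / a * √(10 * B ^ 3) * √((∫ x, ‖u 0 x‖ ^ 2) / √T₂) ≤ c1 / 2 / 6 :=
        (mul_le_mul_of_nonneg_left hET (by positivity)).trans k3
      have j2 : 8 * CB * √CO * K / B * √((∫ x, ‖u 0 x‖ ^ 2) / √T₂) ≤ c1 / 2 / 12 :=
        (mul_le_mul_of_nonneg_left hET (by positivity)).trans k4
      linarith
    have hV43 : 4 * √SB * (∫ x, |sV (u t₁) x| ^ (3/2 : ℝ)) ^ (4/3 : ℝ) ≤ c1 / 2 / 6 := by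
      have h1 := (g2 t₁ ⟨ht10, ht₁.2⟩).2
      have h2 : (∫ x, |sV (u t₁) x| ^ (3/2 : ℝ)) ^ (4/3 : ℝ) ≤ N1 u K ε ts T₂ ^ (4/3 : ℝ) :=
        Real.rpow_le_rpow (integral_nonneg fun x => by positivity) h1 (by norm_num)
      calc 4 * √SB * (∫ x, |sV (u t₁) x| ^ (3/2 : ℝ)) ^ (4/3 : ℝ) ≤ 4 * √SB * θ :=
            mul_le_mul_of_nonneg_left (h2.trans (hN43.trans hNθ)) (by positivity)
        _ ≤ c1 / 2 / 6 := hθ4
    refine thmA F ht10 (ht₁.2.trans_lt hTT) (g11 t₁ ⟨ht10, ht₁.2⟩).1 (g2 t₁ ⟨ht10, ht₁.2⟩).1 ?_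
    linarith

end Pool.Agent.H87.NS
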