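/-
ROW RB. The mass of a ball off the axis. PROOF. Let `r = rad x ≥ a ≥ ρ > 0`, `N = ⌊2 a / ρ⌋₊ ≥ 2`, `N ≤ 2a/ρ`, `N ≥ 2a/ρ - 1 ≥ a/ρ`. Let `x_k = rot (2 π k / N) x`, `k = 0, ..., N-1`.
For `j ≠ k`, `‖x_j - x_k‖ = 2 r |sin (π (j - k) / N)| ≥ 2 r sin (π / N) ≥ 4 r / N ≥ 4 a / N ≥ 2 ρ` (`Real.mul_le_sin`: `2/π t ≤ sin t` for `0 ≤ t ≤ π/2`; `1 ≤ |j-k| ≤ N-1`), so the
balls `ball x_k ρ` are pairwise disjoint. Each has the same integral (`rotL` is a linear isometry preserving the measure, `f (rot θ y) = f y`), so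
`N ∫_{ball x ρ} f = ∑_k ∫_{ball x_k ρ} f ≤ ∫ f`, and `1/N ≤ ρ/a`. Then form_bound.
form_bound: let `Ch` be the constant of S1_loc, `m = min 1 (c0 / (96 Ch))`, `c = m`. Given `K ≥ 1`, `σ > 0`, let `ρ = m σ / (8 K) ≤ σ / 8`. For every `x`,
`∫_{ball x (2ρ)} |Om| ≤ m`: if `rad x < σ/2` the ball is contained in `ball (axp (x 2)) σ` (`‖x - axp (x 2)‖ = rad x`, `2ρ ≤ σ/2`); if `rad x ≥ σ/2`, the first part with
`a = σ/2`: `≤ (2ρ / (σ/2)) 2 K = 8 K ρ / σ = m`. For `0 < rad x`, `|W x| ≤ (12/c0) ∫ |Om y|/‖x-y‖² ≤ (12/c0) ∫_{ball x ρ} |Om y|/‖x-y‖² + (12/c0) ρ⁻² 2 K`. S1_loc with `c = 12/c0`,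
`B = 24 K / (c0 ρ²)`: `∫ |W| G² ≤ Ch (12/c0) m (∫ gsq G + ρ⁻² ∫ G²) + B ∫ G² ≤ (1/8) ∫ gsq G + (1/8 + 24 K / c0) ρ⁻² ∫ G²`, `ρ⁻² = 64 K² / (m² σ²)`, and
`(1/8 + 24 K/c0) 64 K² / m² ≤ C K³`, `C = (1/8 + 24/c0) 64 / m²` (`K ≥ 1`).
-/
import Pool.Agent.H87.NC.HLoc
import Pool.Agent.H87.NC.Defs
import Pool.Agent.H87.NS.KInt
import Pool.Agent.H87.NS.AxId

set_option autoImplicit false

open Set Filter Topology MeasureTheory
open scoped ContDiff

namespace Pool.Agent.H87.NS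

open Pool.Agent.H16

theorem RB_sin {N m : ℕ} (hm : 1 ≤ m) (hmN : m + 1 ≤ N) : 2 / (N : ℝ) ≤ Real.sin (Real.pi * m / N) := by
  have hpi := Real.pi_pos
  have hm' : (1 : ℝ) ≤ m := by exact_mod_cast hm
  have hN' : (m : ℝ) + 1 ≤ N := by exact_mod_cast hmN
  have hN : (0 : ℝ) < N := by linarith
  rcases le_total (Real.pi * m / N) (Real.pi / 2) with h | h
  · have h1 := Real.mul_le_sin (x := Real.pi * m / N) (by positivity) h
    refine le_trans ?_ h1
    have h2 : 2 / Real.pi * (Real.pi * m / N) = 2 * m / N := by field_simp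
    rw [h2]
    gcongr
    linarith
  · have h0 : Real.pi - Real.pi * m / N = Real.pi * (N - m) / N := by field_simp
    have h1 := Real.mul_le_sin (x := Real.pi - Real.pi * m / N)
      (by rw [h0]; have : (0 : ℝ) ≤ N - m := by linarith
          positivity) (by linarith)
    rw [Real.sin_pi_sub] at h1
    refine le_trans ?_ h1
    have h2 : 2 / Real.pi * (Real.pi - Real.pi * m / N) = 2 * (N - m) / N := by
      rw [h0]
      field_simp
    rw [h2]
    gcongr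
    linarith

theorem RB_dist (s t : ℝ) (x : E3) : ‖rot s x - rot t x‖ ^ 2 = (2 * rad x * Real.sin ((s - t) / 2)) ^ 2 := by
  have h1 : rad x ^ 2 = x 0 ^ 2 + x 1 ^ 2 := by
    unfold rad
    exact Real.sq_sqrt (by positivity)
  have h2 : Real.cos (s - t) = 1 - 2 * Real.sin ((s - t) / 2) ^ 2 := by
    have h := Real.cos_sq ((s - t) / 2)
    have h' := Real.sin_sq_add_cos_sq ((s - t) / 2)
    have h3 : 2 * ((s - t) / 2) = s - t := by ring
    rw [h3] at h
    linarith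
  rw [Real.cos_sub] at h2
  have h3 := Real.sin_sq_add_cos_sq s
  have h4 := Real.sin_sq_add_cos_sq t
  have e0 : (rot s x - rot t x) 0 = rot s x 0 - rot t x 0 := rfl
  have e1 : (rot s x - rot t x) 1 = rot s x 1 - rot t x 1 := rfl
  have e2 : (rot s x - rot t x) 2 = rot s x 2 - rot t x 2 := rfl
  rw [norm_sq_eq, e0, e1, e2, mul_pow, mul_pow, h1]
  simp only [rot_zero', rot_one', rot_two']
  linear_combination (x 0 ^ 2 + x 1 ^ 2) * (h3 + h4 - 2 * h2)

theorem RB_ball_int {f : E3 → ℝ} (hrot : ∀ θ x, f (rot θ x) = f x) (x : E3) (ρ θ : ℝ) :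
    ∫ y in Metric.ball (rot θ x) ρ, f y = ∫ y in Metric.ball x ρ, f y := by
  have h1 := ((rotL θ).measurePreserving).setIntegral_preimage_emb
    ((rotL θ).toHomeomorph.measurableEmbedding) f (Metric.ball (rot θ x) ρ)
  rw [← h1]
  have h2 : (rotL θ) ⁻¹' (Metric.ball (rot θ x) ρ) = Metric.ball x ρ := by
    ext y
    rw [mem_preimage, Metric.mem_ball, Metric.mem_ball, ← rotL_apply θ x, (rotL θ).dist_map]
  rw [h2]
  simp only [rotL_apply, hrot]

theorem rot_ball {f : E3 → ℝ} (hf : Integrable f) (h0 : ∀ x, 0 ≤ f x) (hrot : ∀ θ x, f (rot θ x) = f x)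
    {a ρ : ℝ} (hρ : 0 < ρ) (ha : ρ ≤ a) {x : E3} (hx : a ≤ rad x) :
    ∫ y in Metric.ball x ρ, f y ≤ ρ / a * ∫ y, f y := by
  have ha0 : 0 < a := hρ.trans_le ha
  have hpi := Real.pi_pos
  set N : ℕ := ⌊2 * a / ρ⌋₊ with hNdef
  have hN1 : (N : ℝ) ≤ 2 * a / ρ := Nat.floor_le (by positivity)
  have hN2 : 2 * a / ρ < N + 1 := Nat.lt_floor_add_one _
  have haρ : 1 ≤ a / ρ := (one_le_div hρ).2 ha
  have h2aρ : 2 * a / ρ = 2 * (a / ρ) := by ring
  have hN3 : a / ρ ≤ N := by linarith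
  have hN0 : (0 : ℝ) < N := by linarith
  set p : Fin N → E3 := fun k => rot (2 * Real.pi * (k : ℕ) / N) x with hp
  have key : ∀ j k : Fin N, (j : ℕ) < (k : ℕ) → ρ + ρ ≤ dist (p k) (p j) := by
    intro j k hjk
    have h1 := RB_dist (2 * Real.pi * (k : ℕ) / N) (2 * Real.pi * (j : ℕ) / N) x
    have h2 : (2 * Real.pi * (k : ℕ) / N - 2 * Real.pi * (j : ℕ) / N) / 2 = Real.pi * ((k - j : ℕ) : ℝ) / N := by
      rw [Nat.cast_sub hjk.le]
      field_simp
    rw [h2] at h1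
    have h3 := RB_sin (N := N) (m := (k : ℕ) - j) (by omega) (by have := k.2; omega)
    have h4 : 0 ≤ Real.sin (Real.pi * ((k - j : ℕ) : ℝ) / N) := le_trans (by positivity) h3
    have hr : 0 < rad x := ha0.trans_le hx
    have h5 : ‖rot (2 * Real.pi * (k : ℕ) / N) x - rot (2 * Real.pi * (j : ℕ) / N) x‖ =
        2 * rad x * Real.sin (Real.pi * ((k - j : ℕ) : ℝ) / N) :=
      (sq_eq_sq₀ (norm_nonneg _) (by positivity)).1 h1
    rw [dist_eq_norm]
    show ρ + ρ ≤ ‖rot (2 * Real.pi * (k : ℕ) / N) x - rot (2 * Real.pi * (j : ℕ) / N) x‖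
    rw [h5]
    have h6 : ρ + ρ ≤ 2 * rad x * (2 / N) := by
      have h7 : N * ρ ≤ 2 * a := by
        rwa [le_div_iff₀ hρ] at hN1
      have h8 : 2 * rad x * (2 / N) = 4 * rad x / N := by ring
      rw [h8, le_div_iff₀ hN0]
      nlinarith
    refine h6.trans ?_
    gcongr
  have hdisj : Pairwise (Function.onFun Disjoint fun k : Fin N => Metric.ball (p k) ρ) := by
    intro j k hjk
    show Disjoint (Metric.ball (p j) ρ) (Metric.ball (p k) ρ)
    have hne : (j : ℕ) ≠ (k : ℕ) := fun h => hjk (Fin.ext h)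
    rcases lt_or_gt_of_ne hne with h | h
    · apply Metric.ball_disjoint_ball
      rw [dist_comm]
      exact key j k h
    · exact Metric.ball_disjoint_ball (key k j h)
  have hsum : ∫ y in ⋃ k : Fin N, Metric.ball (p k) ρ, f y = N * ∫ y in Metric.ball x ρ, f y := by
    rw [integral_iUnion_fintype (fun k => Metric.isOpen_ball.measurableSet) hdisj
      (fun k => hf.integrableOn)]
    have h1 : ∀ k : Fin N, ∫ y in Metric.ball (p k) ρ, f y = ∫ y in Metric.ball x ρ, f y :=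
      fun k => RB_ball_int hrot x ρ _
    simp only [h1, Finset.sum_const, Finset.card_univ, Fintype.card_fin, nsmul_eq_mul]
  have hle : ∫ y in ⋃ k : Fin N, Metric.ball (p k) ρ, f y ≤ ∫ y, f y :=
    setIntegral_le_integral hf (Eventually.of_forall h0)
  rw [hsum] at hle
  have hI : 0 ≤ ∫ y in Metric.ball x ρ, f y := integral_nonneg h0
  have h9 : a / ρ * ∫ y in Metric.ball x ρ, f y ≤ ∫ y, f y :=
    le_trans (mul_le_mul_of_nonneg_right hN3 hI) hle
  have h10 : ∫ y in Metric.ball x ρ, f y = ρ / a * (a / ρ * ∫ y in Metric.ball x ρ, f y) := by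
    field_simp
  rw [h10]
  exact mul_le_mul_of_nonneg_left h9 (by positivity)

/-- The form bound of `W` with the constants `1/8` and `k`. -/
def FBd (W : E3 → ℝ) (k : ℝ) : Prop :=
  ∀ (G : E3 → ℝ) (K : ℝ), ContDiff ℝ 1 G → DB 1 K G →
    ∫ x, |W x| * G x ^ 2 ≤ 1 / 8 * (∫ x, gsq G x) + k * ∫ x, G x ^ 2

theorem form_bound : ∃ c C : ℝ, 0 < c ∧ 0 < C ∧ ∀ (W Om : E3 → ℝ) (K₁ K₂ K σ : ℝ), Continuous W → (∀ x, |W x| ≤ K₁) →
    Continuous Om → (∀ x, |Om x| ≤ K₂) → (∀ θ x, Om (rot θ x) = Om x) → 1 ≤ K → 0 < σ → Integrable Om → ∫ x, |Om x| ≤ 2 * K →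
    (∀ x, Integrable (fun y => |Om y| / ‖x - y‖ ^ 2)) →
    (∀ x, 0 < rad x → |W x| ≤ 12 / c0 * ∫ y, |Om y| / ‖x - y‖ ^ 2) →
    (∀ z, ∫ x in Metric.ball (axp z) σ, |Om x| ≤ c) →
    FBd W (C * K ^ 3 / σ ^ 2) := by
  obtain ⟨Ch, hCh, hS⟩ := S1_loc
  have hc0 := c0_pos
  set m : ℝ := min 1 (c0 / (96 * Ch)) with hm
  have hm0 : 0 < m := lt_min one_pos (by positivity)
  have hm1 : m ≤ 1 := min_le_left _ _
  have hm2 : m ≤ c0 / (96 * Ch) := min_le_right _ _
  have hm3 : Ch * (12 / c0) * m ≤ 1 / 8 := by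
    have h1 : Ch * (12 / c0) * m ≤ Ch * (12 / c0) * (c0 / (96 * Ch)) := by gcongr
    have h2 : Ch * (12 / c0) * (c0 / (96 * Ch)) = 1 / 8 := by field_simp; norm_num
    linarith
  refine ⟨m, (1 / 8 + 24 / c0) * 64 / m ^ 2, hm0, by positivity, ?_⟩
  intro W Om K₁ K₂ K σ hW hWb hOm hOmb hrot hK hσ hOi hO2 hker1 hker hax G K' hG hGK
  have hK0 : 0 < K := by linarith
  set ρ : ℝ := m * σ / (8 * K) with hρdef
  have hρ : 0 < ρ := by positivity
  have hρσ : ρ ≤ σ / 8 := by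
    rw [hρdef, div_le_div_iff₀ (by positivity) (by positivity)]
    have : m * σ ≤ K * σ := by nlinarith
    nlinarith
  have hmass : ∀ x, ∫ y in Metric.ball x (2 * ρ), |Om y| ≤ m := by
    intro x
    rcases lt_or_ge (rad x) (σ / 2) with h | h
    · refine le_trans (setIntegral_mono_set hOi.abs.integrableOn (Eventually.of_forall fun y => abs_nonneg _) ?_)
        (hax (x 2))
      apply LE.le.eventuallyLE
      apply Metric.ball_subset_ball'
      have h1 : dist x (axp (x 2)) = rad x := by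
        rw [dist_eq_norm]
        have h2 : ‖x - axp (x 2)‖ ^ 2 = rad x ^ 2 := by
          have e0 : (x - axp (x 2)) 0 = x 0 := by
            show x 0 - (axp (x 2)) 0 = x 0
            simp [axp]
          have e1 : (x - axp (x 2)) 1 = x 1 := by
            show x 1 - (axp (x 2)) 1 = x 1
            simp [axp]
          have e2 : (x - axp (x 2)) 2 = 0 := by
            show x 2 - (axp (x 2)) 2 = 0
            simp [axp]
          rw [norm_sq_eq, e0, e1, e2]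
          unfold rad
          rw [Real.sq_sqrt (by positivity)]
          ring
        have h3 : 0 ≤ rad x := by unfold rad; positivity
        exact (sq_eq_sq₀ (norm_nonneg _) h3).1 h2
      rw [h1]
      linarith
    · have h1 := rot_ball (f := fun y => |Om y|) hOi.abs (fun y => abs_nonneg _)
        (fun θ y => by show |Om (rot θ y)| = |Om y|; rw [hrot])
        (a := σ / 2) (ρ := 2 * ρ) (by positivity) (by linarith) h
      refine h1.trans ?_
      have h2 : 2 * ρ / (σ / 2) * ∫ y, |Om y| ≤ 2 * ρ / (σ / 2) * (2 * K) := by gcongr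
      have h3 : 2 * ρ / (σ / 2) * (2 * K) = m := by
        rw [hρdef]
        field_simp
        norm_num
      linarith
  have hk : ∀ x, 0 < rad x →
      |W x| ≤ 12 / c0 * (∫ y in Metric.ball x ρ, |Om y| / ‖x - y‖ ^ 2) + 24 * K / (c0 * ρ ^ 2) := by
    intro x hx
    have h1 := hker x hx
    have h2 := integral_add_compl (μ := volume) (s := Metric.ball x ρ) Metric.isOpen_ball.measurableSet (hker1 x)
    have h3 : ∫ y in (Metric.ball x ρ)ᶜ, |Om y| / ‖x - y‖ ^ 2 ≤ ∫ y in (Metric.ball x ρ)ᶜ, |Om y| / ρ ^ 2 := by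
      apply setIntegral_mono_on (hker1 x).integrableOn (hOi.abs.div_const _).integrableOn
        Metric.isOpen_ball.measurableSet.compl
      intro y hy
      have h4 : ρ ≤ ‖x - y‖ := by
        rw [mem_compl_iff, Metric.mem_ball, not_lt, dist_comm, dist_eq_norm] at hy
        exact hy
      gcongr
    have h5 : ∫ y in (Metric.ball x ρ)ᶜ, |Om y| / ρ ^ 2 ≤ ∫ y, |Om y| / ρ ^ 2 :=
      setIntegral_le_integral (hOi.abs.div_const _) (Eventually.of_forall fun y => by positivity)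
    have h6 : ∫ y, |Om y| / ρ ^ 2 = (∫ y, |Om y|) / ρ ^ 2 := integral_div _ _
    have h7 : (∫ y, |Om y|) / ρ ^ 2 ≤ 2 * K / ρ ^ 2 := by gcongr
    have h8 : ∫ y, |Om y| / ‖x - y‖ ^ 2 ≤ (∫ y in Metric.ball x ρ, |Om y| / ‖x - y‖ ^ 2) + 2 * K / ρ ^ 2 := by
      linarith
    refine h1.trans ?_
    have h9 : 12 / c0 * ∫ y, |Om y| / ‖x - y‖ ^ 2 ≤
        12 / c0 * ((∫ y in Metric.ball x ρ, |Om y| / ‖x - y‖ ^ 2) + 2 * K / ρ ^ 2) := by gcongr
    refine h9.trans (le_of_eq ?_)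
    field_simp
    ring
  have hmain := hS W Om G K₁ K₂ K' (12 / c0) (24 * K / (c0 * ρ ^ 2)) m ρ hW hWb hOm hOmb hG hGK
    (by positivity) (by positivity) hρ hk hmass
  refine hmain.trans ?_
  have hg0 : 0 ≤ ∫ x, gsq G x := integral_nonneg fun x => gsq_nonneg _ _
  have hG0 : 0 ≤ ∫ x, G x ^ 2 := integral_nonneg fun x => by positivity
  have h1 : Ch * (12 / c0) * m * ((∫ x, gsq G x) + (∫ x, G x ^ 2) / ρ ^ 2) ≤
      1 / 8 * ((∫ x, gsq G x) + (∫ x, G x ^ 2) / ρ ^ 2) := by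
    apply mul_le_mul_of_nonneg_right hm3
    positivity
  have h2 : 1 / ρ ^ 2 = 64 * K ^ 2 / (m ^ 2 * σ ^ 2) := by
    rw [hρdef]
    field_simp
    norm_num
  have h3 : (1 / 8 + 24 * K / c0) * (1 / ρ ^ 2) ≤ (1 / 8 + 24 / c0) * 64 / m ^ 2 * K ^ 3 / σ ^ 2 := by
    rw [h2]
    have h4 : 1 / 8 + 24 * K / c0 ≤ (1 / 8 + 24 / c0) * K := by
      have : 24 * K / c0 = 24 / c0 * K := by ring
      rw [this]
      nlinarith
    calc (1 / 8 + 24 * K / c0) * (64 * K ^ 2 / (m ^ 2 * σ ^ 2)) ≤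
        ((1 / 8 + 24 / c0) * K) * (64 * K ^ 2 / (m ^ 2 * σ ^ 2)) := by gcongr
      _ = (1 / 8 + 24 / c0) * 64 / m ^ 2 * K ^ 3 / σ ^ 2 := by
        field_simp
  have h5 := mul_le_mul_of_nonneg_right h3 hG0
  have h6 : 1 / 8 * ((∫ x, gsq G x) + (∫ x, G x ^ 2) / ρ ^ 2) + 24 * K / (c0 * ρ ^ 2) * ∫ x, G x ^ 2 =
      1 / 8 * (∫ x, gsq G x) + (1 / 8 + 24 * K / c0) * (1 / ρ ^ 2) * ∫ x, G x ^ 2 := by
    field_simp
    ring
  linarith

/-- The threshold of the mass near the axis. -/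
noncomputable def cG : ℝ := Classical.choose form_bound

/-- The constant of the form bound. -/
noncomputable def CG : ℝ := Classical.choose (Classical.choose_spec form_bound)

theorem cG_pos : 0 < cG := (Classical.choose_spec (Classical.choose_spec form_bound)).1

theorem CG_pos : 0 < CG := (Classical.choose_spec (Classical.choose_spec form_bound)).2.1

end Pool.Agent.H87.NS
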