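/-
ROW GJ. The evolution of `V` under the form bound. PROOF.
gj: ev1 for `V` on `[s, t]`, `j = jq ε`; at each time `|jq'(V) 2 W V| = 3 |W| H²`, `H = hq ε ∘ V` (jq_hq), FBd with `G = H` (comp_DB): `3 ∫ |W| H² ≤ (3/8) ∫ gsq H + 3 k ∫ H² ≤
(9/32) ∫ jq'' gsq V + 4 k ∫ jq (V)` (hq_deriv_sq, comp_gsq, hq_le_jq), and `9/32 ≤ 1/2`. g4: `j = s⁴`: `8 ∫ |W| V⁴ ≤ ∫ gsq (V²) + 8 k ∫ V⁴ = 4 ∫ V² gsq V + 8 k ∫ V⁴`, while the good term is
`12 ∫ V² gsq V`. (See NS/StepJ.lean, NS/StepV4.lean. The interval integrability of `kf t * ∫ jq (V t)` etc.: product of a bounded measurable function and an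
interval integrable one; a helper is `IntervalIntegrable.mono_fun` / `Integrable.bdd_mul`; kf is interval integrable and bounded.)
gN: let `Q ≥ ∫_0^b kf`; gron with `l = 4`, `w = kf` on `[0, t]`: `∫ jq ε (V t) ≤ (∫ jq ε (V 0)) exp (8 Q + 1) ≤ N₀ exp (8 Q + 1) = N₁` (jq_le), for every `ε > 0`; Fatou (jq_tend): `|V t|^(3/2)` is
integrable with integral `≤ N₁`. From gj: `(1/2) ∫_0^b ∫ jq'' gsq V ≤ N₀ + 4 Q N₁`.
gVdV: pt_V at each `t` with `N = N₁ + δ`, integrate in `t`, `ε → 0`, `δ → 0` (as VdV in NS/StepJ.lean): `≤ √SB N₁^(1/3) 2 (N₀ + 4 Q N₁) ≤ 2 √SB (1 + 4 Q) N₁^(4/3)` as `N₀ ≤ N₁`.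
-/
import Pool.Agent.H87.NG.RB
import Pool.Agent.H87.NS.StepO
import Pool.Agent.H87.NS.StepV4
import Pool.Agent.H87.NS.Wb

set_option autoImplicit false

open Set Filter Topology MeasureTheory
open scoped ContDiff

namespace Pool.Agent.H87.NS

open Pool.Agent.H16

variable {T : ℝ} {u : ℝ → E3 → E3} {V W Om : ℝ → E3 → ℝ}

private theorem GJ_wc (F : Flow T u V W Om) {t : ℝ} (ht : t ∈ Ico 0 T) : Continuous (W t) := by
  have h1 := F.wcont
  unfold JC at h1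
  have h2 : ContinuousOn (fun x : E3 => W t x) univ :=
    h1.comp (f := fun x : E3 => (t, x)) (by fun_prop) (fun _ _ => ⟨ht, mem_univ _⟩)
  exact continuousOn_univ.1 h2

/-- Interval integrability of the product of a bounded and an interval integrable function. -/
private theorem GJ_mul {kf y : ℝ → ℝ} {b B s t : ℝ} (hk0 : ∀ t ∈ Icc 0 b, 0 ≤ kf t)
    (hkB : ∀ t ∈ Icc 0 b, kf t ≤ B) (hki : IntervalIntegrable kf volume 0 b)
    (hs : 0 ≤ s) (hst : s ≤ t) (ht : t ≤ b) (hy : IntervalIntegrable y volume s t) :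
    IntervalIntegrable (fun r => kf r * y r) volume s t := by
  have h0b : 0 ≤ b := hs.trans (hst.trans ht)
  have hk : IntervalIntegrable kf volume s t := by
    refine hki.mono_set ?_
    rw [uIcc_of_le hst, uIcc_of_le h0b]
    exact Icc_subset_Icc hs ht
  rw [intervalIntegrable_iff_integrableOn_Icc_of_le hst] at hy hk ⊢
  refine Integrable.bdd_mul (c := B) hy hk.aestronglyMeasurable ?_
  refine ae_restrict_of_forall_mem measurableSet_Icc fun r hr => ?_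
  have hr' : r ∈ Icc 0 b := ⟨hs.trans hr.1, hr.2.trans ht⟩
  rw [Real.norm_of_nonneg (hk0 r hr')]
  exact hkB r hr'

/-- The estimate of the stretching term at one time. -/
private theorem GJ_one (F : Flow T u V W Om) {t k : ℝ} (ht : t ∈ Ico 0 T)
    (hW : FBd (W t) k) (hk : 0 ≤ k) {ε : ℝ} (hε : 0 < ε) :
    ∫ x, deriv (jq ε) (V t x) * (-2 * W t x * V t x)
      ≤ 1 / 2 * (∫ x, deriv (deriv (jq ε)) (V t x) * gsq (V t) x) + 4 * (k * ∫ x, jq ε (V t x)) := by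
  obtain ⟨T', hT1, hT2⟩ := exists_between ht.2
  have htT : t ∈ Icc 0 T' := ⟨ht.1, hT1.le⟩
  obtain ⟨K, hK⟩ := F.evV.bd T' hT2
  obtain ⟨KW, hKW⟩ := F.wbd T' hT2
  have hd := (hK t htT).1
  have hdW := hKW t htT
  have hsm : ContDiff ℝ 1 (V t) := (F.evV.smooth t ht).of_le (by exact_mod_cast le_top)
  have hWc : Continuous (W t) := GJ_wc F ht
  have hh1 : ContDiff ℝ 1 (hq ε) := (hq_smooth hε).of_le (by exact_mod_cast le_top)
  obtain ⟨K', hK'⟩ := comp_DB hh1 (hq_zero ε) K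
  have hG : ContDiff ℝ 1 (fun y => hq ε (V t y)) := hh1.comp hsm
  have hGD : DB 1 K' (fun y => hq ε (V t y)) := hK' (V t) hsm hd
  have hS := hW (fun y => hq ε (V t y)) K' hG hGD
  have hint := evo_int F.evV (jq_jfun hε) ht
  have hD0 := StepJ_D_nonneg hε (V t)
  -- comparison of the gradients
  have hgG : ∫ x, gsq (fun y => hq ε (V t y)) x ≤
      3 / 4 * ∫ x, deriv (deriv (jq ε)) (V t x) * gsq (V t) x := by
    rw [← integral_const_mul]
    refine integral_mono (gsq_int hGD).1 (hint.2.1.const_mul _) fun x => ?_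
    show gsq (fun y => hq ε (V t y)) x ≤ 3 / 4 * (deriv (deriv (jq ε)) (V t x) * gsq (V t) x)
    rw [comp_gsq hsm hh1, ← mul_assoc]
    exact mul_le_mul_of_nonneg_right (hq_deriv_sq hε _) (gsq_nonneg _ _)
  have hhj : ∫ x, hq ε (V t x) ^ 2 ≤ 4 / 3 * ∫ x, jq ε (V t x) := by
    rw [← integral_const_mul]
    exact integral_mono (DB_BL hGD).2.1 (hint.1.const_mul _) fun x => hq_le_jq hε _
  have hG2 : Integrable (fun x => |W t x| * hq ε (V t x) ^ 2) := by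
    refine Integrable.mono' ((DB_BL hGD).2.1.const_mul KW)
      (hWc.abs.mul (hG.continuous.pow 2)).aestronglyMeasurable (Eventually.of_forall fun x => ?_)
    rw [Real.norm_of_nonneg (mul_nonneg (abs_nonneg _) (sq_nonneg _))]
    exact mul_le_mul_of_nonneg_right (hdW.1 x) (sq_nonneg _)
  have h1 : ∫ x, deriv (jq ε) (V t x) * (-2 * W t x * V t x) ≤
      ∫ x, 3 * (|W t x| * hq ε (V t x) ^ 2) := by
    refine integral_mono hint.2.2 (hG2.const_mul 3) fun x => ?_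
    show deriv (jq ε) (V t x) * (-2 * W t x * V t x) ≤ 3 * (|W t x| * hq ε (V t x) ^ 2)
    have h2 := jq_hq hε (V t x)
    have h3 : deriv (jq ε) (V t x) * (-2 * W t x * V t x) = -W t x * (3 * hq ε (V t x) ^ 2) := by
      have : deriv (jq ε) (V t x) * (-2 * W t x * V t x) =
          -W t x * (2 * (V t x * deriv (jq ε) (V t x))) := by ring
      rw [this, h2]
      ring
    rw [h3]
    have h4 : -W t x ≤ |W t x| := neg_le_abs _
    calc -W t x * (3 * hq ε (V t x) ^ 2) ≤ |W t x| * (3 * hq ε (V t x) ^ 2) :=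
          mul_le_mul_of_nonneg_right h4 (by positivity)
      _ = 3 * (|W t x| * hq ε (V t x) ^ 2) := by ring
  rw [integral_const_mul] at h1
  have h5 := mul_le_mul_of_nonneg_left hhj hk
  refine h1.trans ?_
  linarith

theorem gj (F : Flow T u V W Om) {kf : ℝ → ℝ} {b B : ℝ} (hb : b < T) (hk0 : ∀ t ∈ Icc 0 b, 0 ≤ kf t)
    (hkB : ∀ t ∈ Icc 0 b, kf t ≤ B) (hki : IntervalIntegrable kf volume 0 b) (hW : ∀ t ∈ Icc 0 b, FBd (W t) (kf t))
    {ε : ℝ} (hε : 0 < ε) {s t : ℝ} (hs : 0 ≤ s) (hst : s ≤ t) (ht : t ≤ b) :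
    (∫ x, jq ε (V t x)) + 1 / 2 * (∫ r in s..t, ∫ x, deriv (deriv (jq ε)) (V r x) * gsq (V r) x)
      ≤ (∫ x, jq ε (V s x)) + 4 * ∫ r in s..t, kf r * ∫ x, jq ε (V r x) := by
  have htT : t < T := ht.trans_lt hb
  have h1 := ev1 F.drift F.evV (jq_jfun hε) hs hst htT
  have hii := evo_ii F.evV (jq_jfun hε) hs hst htT
  have hmul := GJ_mul hk0 hkB hki hs hst ht hii.1
  have h2 : ∫ r in s..t, ∫ x, deriv (jq ε) (V r x) * (-2 * W r x * V r x) ≤
      ∫ r in s..t, (1 / 2 * (∫ x, deriv (deriv (jq ε)) (V r x) * gsq (V r) x) +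
        4 * (kf r * ∫ x, jq ε (V r x))) := by
    refine intervalIntegral.integral_mono_on hst hii.2.2
      ((hii.2.1.const_mul _).add (hmul.const_mul _)) fun r hr => ?_
    have hr' : r ∈ Icc 0 b := ⟨hs.trans hr.1, hr.2.trans ht⟩
    exact GJ_one F ⟨hr'.1, hr'.2.trans_lt hb⟩ (hW r hr') (hk0 r hr') hε
  have h3 : ∫ r in s..t, (1 / 2 * (∫ x, deriv (deriv (jq ε)) (V r x) * gsq (V r) x) +
        4 * (kf r * ∫ x, jq ε (V r x))) =
      1 / 2 * (∫ r in s..t, ∫ x, deriv (deriv (jq ε)) (V r x) * gsq (V r) x) +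
        4 * ∫ r in s..t, kf r * ∫ x, jq ε (V r x) := by
    rw [intervalIntegral.integral_add (hii.2.1.const_mul _) (hmul.const_mul _),
      intervalIntegral.integral_const_mul, intervalIntegral.integral_const_mul]
  rw [h3] at h2
  linarith

private theorem GJ_slice (F : Flow T u V W Om) {t k : ℝ} (ht : t ∈ Ico 0 T) (hW : FBd (W t) k) :
    ∫ x, 8 * (|W t x| * (V t x ^ 2) ^ 2) ≤
      4 * (∫ x, V t x ^ 2 * gsq (V t) x) + 8 * (k * ∫ x, V t x ^ 4) := by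
  obtain ⟨K, hK⟩ := F.evV.bd t ht.2
  have htt : t ∈ Icc 0 t := ⟨ht.1, le_rfl⟩
  have hV : ContDiff ℝ 1 (V t) := (F.evV.smooth t ht).of_le (by exact_mod_cast le_top)
  have hH : ContDiff ℝ 1 (fun s : ℝ => s ^ 2) := contDiff_id.pow 2
  obtain ⟨K', hK'⟩ := comp_DB hH (by norm_num) K
  have hD : DB 1 K' (fun y => V t y ^ 2) := hK' (V t) hV (hK t htt).1
  have hG : ContDiff ℝ 1 (fun y => V t y ^ 2) := hV.pow 2
  have hS := hW (fun y => V t y ^ 2) K' hG hD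
  have hg : ∀ x, gsq (fun y => V t y ^ 2) x = 4 * (V t x ^ 2 * gsq (V t) x) := by
    intro x
    have h1 := comp_gsq hV hH x
    have h2 : deriv (fun s : ℝ => s ^ 2) (V t x) = 2 * V t x := by
      simp
    rw [h2] at h1
    rw [h1]
    ring
  have h4 : ∀ x, (V t x ^ 2) ^ 2 = V t x ^ 4 := fun x => by ring
  simp only [hg] at hS
  rw [integral_const_mul] at hS
  rw [integral_const_mul]
  have h5 : ∫ x, (V t x ^ 2) ^ 2 = ∫ x, V t x ^ 4 := by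
    refine integral_congr_ae (Eventually.of_forall fun x => ?_)
    exact h4 x
  rw [h5] at hS
  linarith

theorem g4 (F : Flow T u V W Om) {kf : ℝ → ℝ} {b B : ℝ} (hb : b < T) (hk0 : ∀ t ∈ Icc 0 b, 0 ≤ kf t)
    (hkB : ∀ t ∈ Icc 0 b, kf t ≤ B) (hki : IntervalIntegrable kf volume 0 b) (hW : ∀ t ∈ Icc 0 b, FBd (W t) (kf t))
    {s t : ℝ} (hs : 0 ≤ s) (hst : s ≤ t) (ht : t ≤ b) :
    (∫ x, V t x ^ 4) + 8 * (∫ r in s..t, ∫ x, V r x ^ 2 * gsq (V r) x)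
      ≤ (∫ x, V s x ^ 4) + 8 * ∫ r in s..t, kf r * ∫ x, V r x ^ 4 := by
  have htT : t < T := ht.trans_lt hb
  have hj : JFun (fun s : ℝ => s ^ (2 * 2)) := pow_jfun (m := 2) (by norm_num)
  have h := ev1 F.drift F.evV hj hs hst htT
  obtain ⟨hi1, hi2, hi3⟩ := evo_ii F.evV hj hs hst htT
  have e1 : (2 * 2 : ℕ) = 4 := by norm_num
  have e2 : ∀ r, ∫ x, deriv (deriv (fun s : ℝ => s ^ (2 * 2))) (V r x) * gsq (V r) x =
      12 * ∫ x, V r x ^ 2 * gsq (V r) x := by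
    intro r
    rw [← integral_const_mul]
    refine integral_congr_ae (Eventually.of_forall fun x => ?_)
    simp only [pow_deriv2]
    norm_num
    ring
  have hi4 : IntervalIntegrable (fun r => ∫ x, V r x ^ 2 * gsq (V r) x) volume s t := by
    have h5 := hi2.const_mul (1 / 12)
    refine h5.congr ?_
    intro r _
    simp only
    rw [e2 r]
    ring
  simp only [e2] at h
  rw [intervalIntegral.integral_const_mul] at h
  simp only [e1] at hi1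
  have hmul := GJ_mul hk0 hkB hki hs hst ht hi1
  have hmono : ∫ r in s..t, ∫ x, deriv (fun s : ℝ => s ^ (2 * 2)) (V r x) * (-2 * W r x * V r x) ≤
      ∫ r in s..t, (4 * (∫ x, V r x ^ 2 * gsq (V r) x) + 8 * (kf r * ∫ x, V r x ^ 4)) := by
    refine intervalIntegral.integral_mono_on hst hi3 ((hi4.const_mul _).add (hmul.const_mul _))
      (fun r hr => ?_)
    have hr' : r ∈ Icc 0 b := ⟨hs.trans hr.1, hr.2.trans ht⟩
    have hrT : r ∈ Ico 0 T := ⟨hr'.1, hr'.2.trans_lt hb⟩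
    have h1 := GJ_slice F hrT (hW r hr')
    obtain ⟨-, -, h3⟩ := evo_int F.evV hj hrT
    have h2 : ∫ x, deriv (fun s : ℝ => s ^ (2 * 2)) (V r x) * (-2 * W r x * V r x) ≤
        ∫ x, 8 * (|W r x| * (V r x ^ 2) ^ 2) := by
      refine integral_mono h3 ((StepV4_abs F hrT).const_mul 8) (fun x => ?_)
      simp only [pow_deriv]
      have h4 : 2 * ((2 : ℕ) : ℝ) * V r x ^ (2 * 2 - 1) * (-2 * W r x * V r x) =
          -(8 * (W r x * (V r x ^ 2) ^ 2)) := by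
        norm_num
        ring
      rw [h4]
      have h5 : -(W r x) ≤ |W r x| := neg_le_abs _
      have h6 : (0 : ℝ) ≤ (V r x ^ 2) ^ 2 := by positivity
      nlinarith [mul_le_mul_of_nonneg_right h5 h6]
    exact h2.trans h1
  have h3 : ∫ r in s..t, (4 * (∫ x, V r x ^ 2 * gsq (V r) x) + 8 * (kf r * ∫ x, V r x ^ 4)) =
      4 * (∫ r in s..t, ∫ x, V r x ^ 2 * gsq (V r) x) + 8 * ∫ r in s..t, kf r * ∫ x, V r x ^ 4 := by
    rw [intervalIntegral.integral_add (hi4.const_mul _) (hmul.const_mul _),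
      intervalIntegral.integral_const_mul, intervalIntegral.integral_const_mul]
  rw [h3] at hmono
  simp only [e1] at h hmono
  linarith

private theorem GJ_Q {kf : ℝ → ℝ} {b Q : ℝ} (h0 : 0 ≤ b) (hk0 : ∀ t ∈ Icc 0 b, 0 ≤ kf t)
    (hki : IntervalIntegrable kf volume 0 b) (hQ : ∫ t in (0:ℝ)..b, kf t ≤ Q) :
    0 ≤ Q ∧ ∀ t ∈ Icc 0 b, ∫ r in (0:ℝ)..t, kf r ≤ Q := by
  refine ⟨(intervalIntegral.integral_nonneg h0 hk0).trans hQ, fun t ht => le_trans ?_ hQ⟩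
  have hsub : uIcc 0 t ⊆ uIcc 0 b := by
    rw [uIcc_of_le ht.1, uIcc_of_le h0]
    exact Icc_subset_Icc_right ht.2
  have hsub2 : uIcc t b ⊆ uIcc 0 b := by
    rw [uIcc_of_le ht.2, uIcc_of_le h0]
    exact Icc_subset_Icc_left ht.1
  rw [← intervalIntegral.integral_add_adjacent_intervals (hki.mono_set hsub) (hki.mono_set hsub2)]
  have : 0 ≤ ∫ r in t..b, kf r :=
    intervalIntegral.integral_nonneg ht.2 fun r hr => hk0 r ⟨ht.1.trans hr.1, hr.2⟩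
  linarith

/-- The bound of the regularised integral. -/
private theorem GJ_jq (F : Flow T u V W Om) {kf : ℝ → ℝ} {b B Q : ℝ} (h0 : 0 ≤ b) (hb : b < T) (hk0 : ∀ t ∈ Icc 0 b, 0 ≤ kf t)
    (hkB : ∀ t ∈ Icc 0 b, kf t ≤ B) (hki : IntervalIntegrable kf volume 0 b) (hW : ∀ t ∈ Icc 0 b, FBd (W t) (kf t))
    (hQ : ∫ t in (0:ℝ)..b, kf t ≤ Q) (hN : Integrable (fun x => |V 0 x| ^ (3/2 : ℝ)))
    {ε : ℝ} (hε : 0 < ε) {t : ℝ} (ht : t ∈ Icc 0 b) :
    ∫ x, jq ε (V t x) ≤ (∫ x, |V 0 x| ^ (3/2 : ℝ)) * Real.exp (8 * Q + 1) := by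
  have htT : t < T := ht.2.trans_lt hb
  have h0T : (0 : ℝ) ∈ Ico 0 T := ⟨le_rfl, h0.trans_lt hb⟩
  obtain ⟨K', hK'⟩ := evo_bd F.evV (jq_jfun hε) htT
  have hii := evo_ii F.evV (jq_jfun hε) le_rfl ht.1 htT
  have hsub : uIcc 0 t ⊆ uIcc 0 b := by
    rw [uIcc_of_le ht.1, uIcc_of_le h0]
    exact Icc_subset_Icc_right ht.2
  have hI : ∀ r ∈ Icc 0 t, r ∈ Icc 0 b := fun r hr => ⟨hr.1, hr.2.trans ht.2⟩
  have h1 := gron (y := fun r => ∫ x, jq ε (V r x)) (w := kf) (l := 4) (Q := Q) (Y := K') ht.1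
    (hki.mono_set hsub) (fun r hr => hk0 r (hI r hr)) ((GJ_Q h0 hk0 hki hQ).2 t ht)
    (fun r _ => integral_nonneg fun x => jfun_nonneg (jq_jfun hε) _)
    (fun r hr => by
      have h2 := (hK' r hr).1.2
      simp only [abs_of_nonneg (jfun_nonneg (jq_jfun hε) _)] at h2
      exact h2)
    (GJ_mul hk0 hkB hki le_rfl ht.1 ht.2 hii.1) (by norm_num)
    (fun s r hs hsr hr => by
      have h2 := gj F hb hk0 hkB hki hW hε hs hsr (hr.trans ht.2)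
      have h3 : 0 ≤ ∫ q in s..r, ∫ x, deriv (deriv (jq ε)) (V q x) * gsq (V q) x :=
        intervalIntegral.integral_nonneg hsr fun q _ => StepJ_D_nonneg hε (V q)
      linarith)
  have h2 : ∫ x, jq ε (V 0 x) ≤ ∫ x, |V 0 x| ^ (3/2 : ℝ) :=
    integral_mono (evo_int F.evV (jq_jfun hε) h0T).1 hN fun x => jq_le hε _
  have h3 : (2 * 4 * Q + 1 : ℝ) = 8 * Q + 1 := by ring
  rw [h3] at h1
  exact h1.trans (mul_le_mul_of_nonneg_right h2 (Real.exp_pos _).le)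

theorem gN (F : Flow T u V W Om) {kf : ℝ → ℝ} {b B Q : ℝ} (h0 : 0 ≤ b) (hb : b < T) (hk0 : ∀ t ∈ Icc 0 b, 0 ≤ kf t)
    (hkB : ∀ t ∈ Icc 0 b, kf t ≤ B) (hki : IntervalIntegrable kf volume 0 b) (hW : ∀ t ∈ Icc 0 b, FBd (W t) (kf t))
    (hQ : ∫ t in (0:ℝ)..b, kf t ≤ Q) (hN : Integrable (fun x => |V 0 x| ^ (3/2 : ℝ))) :
    ∀ t ∈ Icc 0 b, Integrable (fun x => |V t x| ^ (3/2 : ℝ)) ∧
      ∫ x, |V t x| ^ (3/2 : ℝ) ≤ (∫ x, |V 0 x| ^ (3/2 : ℝ)) * Real.exp (8 * Q + 1) := by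
  intro t ht
  set C : ℝ := (∫ x, |V 0 x| ^ (3/2 : ℝ)) * Real.exp (8 * Q + 1) with hC
  have htT : t ∈ Ico 0 T := ⟨ht.1, ht.2.trans_lt hb⟩
  have hcont : Continuous (V t) := (F.evV.smooth t htT).continuous
  have hκ : ∀ n : ℕ, (0 : ℝ) < 1 / ((n : ℝ) + 1) := fun n => Nat.one_div_pos_of_nat
  have h1 : ∀ n : ℕ, ∫⁻ x, ENNReal.ofReal (jq (1 / ((n : ℝ) + 1)) (V t x)) ≤ ENNReal.ofReal C := by
    intro n
    rw [← ofReal_integral_eq_lintegral_ofReal (evo_int F.evV (jq_jfun (hκ n)) htT).1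
      (Eventually.of_forall fun x => jfun_nonneg (jq_jfun (hκ n)) _)]
    exact ENNReal.ofReal_le_ofReal (GJ_jq F h0 hb hk0 hkB hki hW hQ hN (hκ n) ht)
  have h2 : ∫⁻ x, ENNReal.ofReal (|V t x| ^ (3/2 : ℝ)) ≤ ENNReal.ofReal C := by
    have e : ∀ x, ENNReal.ofReal (|V t x| ^ (3/2 : ℝ)) =
        liminf (fun n : ℕ => ENNReal.ofReal (jq (1 / ((n : ℝ) + 1)) (V t x))) atTop := fun x =>
      ((ENNReal.tendsto_ofReal (jq_tend (V t x))).liminf_eq).symm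
    rw [lintegral_congr e]
    refine (lintegral_liminf_le fun n => ?_).trans ?_
    · exact (((jq_jfun (hκ n)).smooth.continuous.comp hcont).measurable).ennreal_ofReal
    · refine (liminf_le_liminf (Eventually.of_forall h1)).trans ?_
      rw [liminf_const]
  have hc2 : Continuous (fun x => |V t x| ^ (3/2 : ℝ)) :=
    hcont.abs.rpow_const fun x => Or.inr (by norm_num)
  have hn2 : ∀ x, 0 ≤ |V t x| ^ (3/2 : ℝ) := fun x => Real.rpow_nonneg (abs_nonneg _) _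
  have h3 : Integrable (fun x => |V t x| ^ (3/2 : ℝ)) := by
    refine ⟨hc2.aestronglyMeasurable, ?_⟩
    rw [hasFiniteIntegral_iff_norm]
    simp only [Real.norm_of_nonneg (hn2 _)]
    exact h2.trans_lt ENNReal.ofReal_lt_top
  refine ⟨h3, ?_⟩
  have hC0 : 0 ≤ C :=
    mul_nonneg (integral_nonneg fun x => Real.rpow_nonneg (abs_nonneg _) _) (Real.exp_pos _).le
  rw [integral_eq_lintegral_of_nonneg_ae (Eventually.of_forall fun x => hn2 x)
    hc2.aestronglyMeasurable]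
  exact ENNReal.toReal_le_of_le_ofReal hC0 h2

private theorem GJ_eps (F : Flow T u V W Om) {kf : ℝ → ℝ} {b B Q : ℝ} (h0 : 0 ≤ b) (hb : b < T) (hk0 : ∀ t ∈ Icc 0 b, 0 ≤ kf t)
    (hkB : ∀ t ∈ Icc 0 b, kf t ≤ B) (hki : IntervalIntegrable kf volume 0 b) (hW : ∀ t ∈ Icc 0 b, FBd (W t) (kf t))
    (hQ : ∫ t in (0:ℝ)..b, kf t ≤ Q) (hN : Integrable (fun x => |V 0 x| ^ (3/2 : ℝ)))
    {K : ℝ} (hK : ∀ t ∈ Icc 0 b, DB 1 K (V t)) {N' : ℝ} (hN' : 0 < N')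
    (hNN : (∫ x, |V 0 x| ^ (3/2 : ℝ)) * Real.exp (8 * Q + 1) ≤ N') {ε : ℝ} (hε : 0 < ε) :
    ∫ t in (0:ℝ)..b, ∫ x, |V t x| * √(gsq (V t) x) ≤
      √SB * N' ^ (1/3 : ℝ) * (2 * (1 + 4 * Q) * ((∫ x, |V 0 x| ^ (3/2 : ℝ)) * Real.exp (8 * Q + 1))) +
        (√SB * N' ^ (1/3 : ℝ))⁻¹ * √ε * K * b := by
  have hSB := SB_pos
  obtain ⟨hQ0, hQt⟩ := GJ_Q h0 hk0 hki hQ
  have hii := evo_ii F.evV (jq_jfun hε) le_rfl h0 hb
  have h0T : (0 : ℝ) ∈ Ico 0 T := ⟨le_rfl, h0.trans_lt hb⟩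
  set N0 := ∫ x, |V 0 x| ^ (3/2 : ℝ) with hN0d
  have hN0 : 0 ≤ N0 := integral_nonneg fun x => Real.rpow_nonneg (abs_nonneg _) _
  set N1 := N0 * Real.exp (8 * Q + 1) with hN1
  have hN01 : N0 ≤ N1 := by
    have : 1 ≤ Real.exp (8 * Q + 1) := Real.one_le_exp (by positivity)
    nlinarith
  have hN1' : 0 ≤ N1 := hN0.trans hN01
  have hja : ∫ x, jq ε (V 0 x) ≤ N0 :=
    integral_mono (evo_int F.evV (jq_jfun hε) h0T).1 hN fun x => jq_le hε _
  have hJt : ∀ t ∈ Icc 0 b, ∫ x, jq ε (V t x) ≤ N1 := fun t ht =>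
    GJ_jq F h0 hb hk0 hkB hki hW hQ hN hε ht
  have hA : 0 < √SB * N' ^ (1/3 : ℝ) := mul_pos (Real.sqrt_pos.2 hSB) (Real.rpow_pos_of_pos hN' _)
  have hD := gj F hb hk0 hkB hki hW hε le_rfl h0 le_rfl
  have hjb : 0 ≤ ∫ x, jq ε (V b x) := integral_nonneg fun x => jfun_nonneg (jq_jfun hε) _
  have hkj : ∫ r in (0:ℝ)..b, kf r * ∫ x, jq ε (V r x) ≤ Q * N1 := by
    have h1 : ∫ r in (0:ℝ)..b, kf r * ∫ x, jq ε (V r x) ≤ ∫ r in (0:ℝ)..b, kf r * N1 := by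
      refine intervalIntegral.integral_mono_on h0 (GJ_mul hk0 hkB hki le_rfl h0 le_rfl hii.1)
        (hki.mul_const N1) fun r hr => ?_
      exact mul_le_mul_of_nonneg_left (hJt r hr) (hk0 r hr)
    rw [intervalIntegral.integral_mul_const] at h1
    exact h1.trans (mul_le_mul_of_nonneg_right hQ hN1')
  have h3 : ∫ t in (0:ℝ)..b, ∫ x, |V t x| * √(gsq (V t) x) ≤
      ∫ t in (0:ℝ)..b, (√SB * N' ^ (1/3 : ℝ) * (∫ x, deriv (deriv (jq ε)) (V t x) * gsq (V t) x) +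
        (√SB * N' ^ (1/3 : ℝ))⁻¹ * √ε * K) := by
    refine intervalIntegral.integral_mono_on h0 (vdv_ii F le_rfl h0 hb)
      ((hii.2.1.const_mul _).add intervalIntegrable_const) fun t ht => ?_
    have htT : t ∈ Ico 0 T := ⟨ht.1, ht.2.trans_lt hb⟩
    have hd := hK t ht
    have h4 := pt_V (F.evV.smooth t htT) hd hε hN' ((hJt t ht).trans hNN)
    refine h4.trans ?_
    have h5 : ∫ x, V t x ^ 2 ≤ K := (DB_BL hd).2.2
    have h6 : 0 ≤ (√SB * N' ^ (1/3 : ℝ))⁻¹ * √ε :=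
      mul_nonneg (inv_nonneg.2 hA.le) (Real.sqrt_nonneg _)
    have h7 := mul_le_mul_of_nonneg_left h5 h6
    linarith
  have h4 : ∫ t in (0:ℝ)..b, (√SB * N' ^ (1/3 : ℝ) *
        (∫ x, deriv (deriv (jq ε)) (V t x) * gsq (V t) x) +
        (√SB * N' ^ (1/3 : ℝ))⁻¹ * √ε * K) =
      √SB * N' ^ (1/3 : ℝ) * (∫ t in (0:ℝ)..b, ∫ x, deriv (deriv (jq ε)) (V t x) * gsq (V t) x) +
        (√SB * N' ^ (1/3 : ℝ))⁻¹ * √ε * K * b := by
    rw [intervalIntegral.integral_add (hii.2.1.const_mul _) intervalIntegrable_const,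
      intervalIntegral.integral_const_mul, intervalIntegral.integral_const, smul_eq_mul]
    ring
  rw [h4] at h3
  refine h3.trans ?_
  have h5 : ∫ t in (0:ℝ)..b, ∫ x, deriv (deriv (jq ε)) (V t x) * gsq (V t) x ≤
      2 * (1 + 4 * Q) * N1 := by linarith
  have h6 := mul_le_mul_of_nonneg_left h5 hA.le
  linarith

theorem gVdV (F : Flow T u V W Om) {kf : ℝ → ℝ} {b B Q : ℝ} (h0 : 0 ≤ b) (hb : b < T) (hk0 : ∀ t ∈ Icc 0 b, 0 ≤ kf t)
    (hkB : ∀ t ∈ Icc 0 b, kf t ≤ B) (hki : IntervalIntegrable kf volume 0 b) (hW : ∀ t ∈ Icc 0 b, FBd (W t) (kf t))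
    (hQ : ∫ t in (0:ℝ)..b, kf t ≤ Q) (hN : Integrable (fun x => |V 0 x| ^ (3/2 : ℝ))) :
    ∫ t in (0:ℝ)..b, ∫ x, |V t x| * √(gsq (V t) x)
      ≤ 2 * √SB * (1 + 4 * Q) * ((∫ x, |V 0 x| ^ (3/2 : ℝ)) * Real.exp (8 * Q + 1)) ^ (4/3 : ℝ) := by
  obtain ⟨K, hK⟩ := F.evV.bd b hb
  have hK1 : ∀ t ∈ Icc 0 b, DB 1 K (V t) := fun t ht => (hK t ht).1
  set N := (∫ x, |V 0 x| ^ (3/2 : ℝ)) * Real.exp (8 * Q + 1) with hNd
  have hN0 : 0 ≤ N :=
    mul_nonneg (integral_nonneg fun x => Real.rpow_nonneg (abs_nonneg _) _) (Real.exp_pos _).le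
  -- let `ε → 0`
  have h1 : ∀ δ : ℝ, 0 < δ → ∫ t in (0:ℝ)..b, ∫ x, |V t x| * √(gsq (V t) x) ≤
      √SB * (N + δ) ^ (1/3 : ℝ) * (2 * (1 + 4 * Q) * N) := by
    intro δ hδ
    have h2 : Tendsto (fun ε : ℝ => √SB * (N + δ) ^ (1/3 : ℝ) * (2 * (1 + 4 * Q) * N) +
        (√SB * (N + δ) ^ (1/3 : ℝ))⁻¹ * √ε * K * b) (𝓝[>] 0)
        (𝓝 (√SB * (N + δ) ^ (1/3 : ℝ) * (2 * (1 + 4 * Q) * N) +
        (√SB * (N + δ) ^ (1/3 : ℝ))⁻¹ * √0 * K * b)) := by
      refine Tendsto.mono_left ?_ nhdsWithin_le_nhds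
      have hc : Continuous (fun ε : ℝ => √SB * (N + δ) ^ (1/3 : ℝ) * (2 * (1 + 4 * Q) * N) +
        (√SB * (N + δ) ^ (1/3 : ℝ))⁻¹ * √ε * K * b) := by fun_prop
      exact hc.tendsto 0
    rw [Real.sqrt_zero, mul_zero, zero_mul, zero_mul, add_zero] at h2
    refine ge_of_tendsto h2 ?_
    filter_upwards [self_mem_nhdsWithin] with ε hε
    exact GJ_eps F h0 hb hk0 hkB hki hW hQ hN hK1 (by linarith) (by linarith) hε
  -- let `δ → 0`
  have h3 : Tendsto (fun δ : ℝ => √SB * (N + δ) ^ (1/3 : ℝ) * (2 * (1 + 4 * Q) * N)) (𝓝[>] 0)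
      (𝓝 (√SB * (N + 0) ^ (1/3 : ℝ) * (2 * (1 + 4 * Q) * N))) := by
    refine Tendsto.mono_left ?_ nhdsWithin_le_nhds
    have hc : Continuous (fun δ : ℝ => √SB * (N + δ) ^ (1/3 : ℝ) * (2 * (1 + 4 * Q) * N)) := by
      have h4 : Continuous (fun δ : ℝ => (N + δ) ^ (1/3 : ℝ)) :=
        (Real.continuous_rpow_const (by norm_num)).comp (continuous_const.add continuous_id)
      exact (continuous_const.mul h4).mul continuous_const
    exact hc.tendsto 0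
  rw [add_zero] at h3
  have h5 := ge_of_tendsto h3 (by
    filter_upwards [self_mem_nhdsWithin] with δ hδ
    exact h1 δ hδ)
  refine h5.trans (le_of_eq ?_)
  have h6 : N ^ (4/3 : ℝ) = N ^ (1/3 : ℝ) * N := by
    have h7 := Real.rpow_add_one' hN0 (y := 1/3) (by norm_num)
    rw [← h7]
    norm_num
  rw [h6]
  ring

end Pool.Agent.H87.NS
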