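/-
ROW GDec. Decay of `∫ V⁴` and `∫ Om²`. PROOF. g_V4: let `y(t) = ∫ V(t)⁴`, `g = exp (16 Q' + 1)`, `N₁ ≥ ∫ |V t|^(3/2)` for `t ∈ [0, b]`, `Y = sup_{0 < τ ≤ b} τ^(5/2) y(τ)` (finite:
`y` is bounded on `[0,b]`). Let `t ∈ (0, b]`. By g4 and gron (`l = 8`, `w = kf`, `Q = Q'`, on `[s, t]`, `t/2 ≤ s`): `y(t) ≤ g y(s)` and `y(r) ≤ g y(t/2)` for `r ∈ [t/2, t]`.
g4 on `[t/2, t]`: `8 ∫_{t/2}^t ∫ V² gsq V ≤ y(t/2) + 8 Q' g y(t/2) ≤ g² y(t/2)` (`1 + 8 Q' g ≤ g²` since `1 + 8 Q' ≤ g` and `g ≥ 1`). good_time: `s ∈ [t/2, t]` with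
`∫ V(s)² gsq V(s) ≤ (g²/8) y(t/2) (2/t) ≤ g² y(t/2) / t`. itp4: `y(s) ≤ N₁^(16/21) (4 SB g² y(t/2) / t)^(5/7)`, `y(t/2) ≤ Y (t/2)^(-5/2) = 2^(5/2) Y t^(-5/2) ≤ 6 Y t^(-5/2)`. So
`t^(5/2) y(t) ≤ g N₁^(16/21) (24 SB g² Y)^(5/7)` (`(t^(-7/2))^(5/7) = t^(-5/2)`). Supremum over `t`: `Y ≤ g N₁^(16/21) (24 SB g² Y)^(5/7)`, and solve7:
`Y ≤ g^(7/2) N₁^(8/3) (24 SB g²)^(5/2)`.
g_O2: let `y(t) = ∫ Om(t)²`, `Y = sup_{0<τ≤b} τ^(3/2) y(τ)`, finite. For `t ∈ (0,b]`, `∫_{t/2}^t ∫ V⁴ ≤ μ (t/2) (t/2)^(-5/2) = μ 2^(3/2) t^(-3/2) ≤ 3 μ t^(-3/2)`. step_O2 on `[s, t]`: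
`y(t) ≤ y(s) + 3 μ t^(-3/2)`; on `[t/2, t]`: `∫_{t/2}^t ∫ gsq Om ≤ y(t/2) + 3 μ t^(-3/2) ≤ 3 (Y + μ) t^(-3/2)` (`2^(3/2) ≤ 3`). good_time: `s` with `∫ gsq Om(s) ≤ 6 (Y + μ) t^(-5/2)`.
itp2: `y(s) ≤ (2K)^(4/5) (6 SB (Y + μ))^(3/5) t^(-3/2)`. So `Y ≤ (2K)^(4/5) (6 SB (Y+μ))^(3/5) + 3 μ`; solve5 with `A = 2K`, `D = 6 SB`:
`Y ≤ 7 μ + 8 (6 SB)^(3/2) K²`.
-/
import Pool.Agent.H87.NG.GJ
import Pool.Agent.H87.NG.Itp

set_option autoImplicit false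

open Set Filter Topology MeasureTheory
open scoped ContDiff

namespace Pool.Agent.H87.NS

open Pool.Agent.H16

variable {T : ℝ} {u : ℝ → E3 → E3} {V W Om : ℝ → E3 → ℝ}

theorem GDec_rp {t : ℝ} (ht : 0 < t) : (t / 2) ^ (-(5/2) : ℝ) ≤ 6 * t ^ (-(5/2) : ℝ) := by
  have h2 : (2 : ℝ) ^ (5/2 : ℝ) ≤ 6 := by
    have h : ((2 : ℝ) ^ (5/2 : ℝ)) ^ 2 = 32 := by
      rw [← Real.rpow_natCast, ← Real.rpow_mul (by norm_num)]
      norm_num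
    nlinarith [Real.rpow_nonneg (by norm_num : (0:ℝ) ≤ 2) (5/2 : ℝ)]
  have e : (t / 2) ^ (-(5/2) : ℝ) = (2 : ℝ) ^ (5/2 : ℝ) * t ^ (-(5/2) : ℝ) := by
    rw [Real.div_rpow ht.le (by norm_num), Real.rpow_neg (by norm_num : (0:ℝ) ≤ 2), div_inv_eq_mul,
      mul_comm]
  rw [e]
  exact mul_le_mul_of_nonneg_right h2 (Real.rpow_nonneg ht.le _)

theorem GDec_rq {t : ℝ} (ht : 0 < t) : (t / 2) ^ (-(3/2) : ℝ) ≤ 3 * t ^ (-(3/2) : ℝ) := by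
  have h2 : (2 : ℝ) ^ (3/2 : ℝ) ≤ 3 := by
    have h : ((2 : ℝ) ^ (3/2 : ℝ)) ^ 2 = 8 := by
      rw [← Real.rpow_natCast, ← Real.rpow_mul (by norm_num)]
      norm_num
    nlinarith [Real.rpow_nonneg (by norm_num : (0:ℝ) ≤ 2) (3/2 : ℝ)]
  have e : (t / 2) ^ (-(3/2) : ℝ) = (2 : ℝ) ^ (3/2 : ℝ) * t ^ (-(3/2) : ℝ) := by
    rw [Real.div_rpow ht.le (by norm_num), Real.rpow_neg (by norm_num : (0:ℝ) ≤ 2), div_inv_eq_mul,
      mul_comm]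
  rw [e]
  exact mul_le_mul_of_nonneg_right h2 (Real.rpow_nonneg ht.le _)

theorem GDec_m1 {t : ℝ} (ht : 0 < t) : t * t ^ (-(5/2) : ℝ) = t ^ (-(3/2) : ℝ) := by
  have h := Real.rpow_add ht 1 (-(5/2) : ℝ)
  rw [Real.rpow_one] at h
  rw [← h]
  norm_num

theorem GDec_m2 {t : ℝ} (ht : 0 < t) : t * t ^ (-(7/2) : ℝ) = t ^ (-(5/2) : ℝ) := by
  have h := Real.rpow_add ht 1 (-(7/2) : ℝ)
  rw [Real.rpow_one] at h
  rw [← h]
  norm_num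

theorem GDec_one {t : ℝ} (ht : 0 < t) (s : ℝ) : t ^ s * t ^ (-s) = 1 := by
  rw [← Real.rpow_add ht, add_neg_cancel, Real.rpow_zero]

theorem GDec_ii {w y : ℝ → ℝ} {a b Y : ℝ} (hab : a ≤ b) (hw : IntervalIntegrable w volume a b)
    (hy : IntervalIntegrable y volume a b) (hY : ∀ t ∈ Icc a b, |y t| ≤ Y) :
    IntervalIntegrable (fun t => w t * y t) volume a b := by
  rw [intervalIntegrable_iff_integrableOn_Ioc_of_le hab] at hw hy ⊢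
  refine Integrable.mul_bdd (c := Y) hw hy.aestronglyMeasurable ?_
  refine (ae_restrict_iff' measurableSet_Ioc).2 (Eventually.of_forall fun t ht => ?_)
  exact hY t ⟨ht.1.le, ht.2⟩

theorem GDec_sub {w : ℝ → ℝ} {b s t : ℝ} (hw : IntervalIntegrable w volume 0 b) (hs : 0 ≤ s)
    (hst : s ≤ t) (ht : t ≤ b) : IntervalIntegrable w volume s t := by
  refine hw.mono_set ?_
  rw [uIcc_of_le hst, uIcc_of_le (hs.trans (hst.trans ht))]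
  exact Icc_subset_Icc hs ht

/-- bounds for the fourth moment -/
theorem GDec_V4 (F : Flow T u V W Om) {b : ℝ} (hb : b < T) :
    ∃ Y : ℝ, ∀ t ∈ Icc 0 b, 0 ≤ ∫ x, V t x ^ 4 ∧ ∫ x, V t x ^ 4 ≤ Y := by
  obtain ⟨K, hK⟩ := F.evV.bd b hb
  refine ⟨K ^ 2 * K, fun t ht => ⟨integral_nonneg fun x => by positivity, ?_⟩⟩
  obtain ⟨h1, h2, h3⟩ := DB_BL (hK t ht).1
  have hb1 : ∀ x, V t x ^ 2 ≤ K ^ 2 := fun x => sq_le_sq' (neg_le_of_abs_le (h1 x)) (le_of_abs_le (h1 x))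
  have h4 : ∫ x, V t x ^ 4 ≤ ∫ x, K ^ 2 * V t x ^ 2 := by
    refine integral_mono_of_nonneg (Eventually.of_forall fun x => by positivity)
      (h2.const_mul _) (Eventually.of_forall fun x => ?_)
    show V t x ^ 4 ≤ K ^ 2 * V t x ^ 2
    nlinarith [hb1 x, sq_nonneg (V t x)]
  rw [integral_const_mul] at h4
  exact h4.trans (mul_le_mul_of_nonneg_left h3 (sq_nonneg K))

theorem GDec_O2 (F : Flow T u V W Om) {b : ℝ} (hb : b < T) :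
    ∃ Y : ℝ, ∀ t ∈ Icc 0 b, 0 ≤ ∫ x, Om t x ^ 2 ∧ ∫ x, Om t x ^ 2 ≤ Y := by
  obtain ⟨K, hK⟩ := F.evO.bd b hb
  exact ⟨K, fun t ht => ⟨integral_nonneg fun x => by positivity, (DB_BL (hK t ht).1).2.2⟩⟩

theorem GDec_iiV (F : Flow T u V W Om) {a b : ℝ} (ha : 0 ≤ a) (hab : a ≤ b) (hb : b < T) :
    IntervalIntegrable (fun t => ∫ x, V t x ^ 4) volume a b ∧
    IntervalIntegrable (fun t => ∫ x, V t x ^ 2 * gsq (V t) x) volume a b := by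
  have hj : JFun (fun s : ℝ => s ^ (2 * 2)) := pow_jfun (m := 2) (by norm_num)
  obtain ⟨h1, h2, -⟩ := evo_ii F.evV hj ha hab hb
  have e4 : (2 * 2 : ℕ) = 4 := by norm_num
  refine ⟨by simpa only [e4] using h1, ?_⟩
  have e0 : ∀ s : ℝ, deriv (deriv (fun s : ℝ => s ^ (2 * 2))) s = 12 * s ^ 2 := by
    intro s
    rw [pow_deriv2]
    norm_num
  simp only [e0] at h2
  have h3 := h2.const_mul (1 / 12)
  refine h3.congr ?_
  intro t _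
  simp only
  rw [← integral_const_mul]
  refine integral_congr_ae (Eventually.of_forall fun x => ?_)
  simp only
  ring

theorem GDec_iiO (F : Flow T u V W Om) {a b : ℝ} (ha : 0 ≤ a) (hab : a ≤ b) (hb : b < T) :
    IntervalIntegrable (fun t => ∫ x, gsq (Om t) x) volume a b := by
  have hj : JFun (fun s : ℝ => s ^ (2 * 1)) := pow_jfun (m := 1) le_rfl
  obtain ⟨-, h2, -⟩ := evo_ii F.evO hj ha hab hb
  have e0 : ∀ s : ℝ, deriv (deriv (fun s : ℝ => s ^ (2 * 1))) s = 2 := by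
    intro s
    rw [pow_deriv2]
    norm_num
  simp only [e0] at h2
  simp only [integral_const_mul] at h2
  have h5 := h2.const_mul (1 / 2)
  refine h5.congr ?_
  intro t _
  simp only
  ring

theorem GDec_gr (F : Flow T u V W Om) {kf : ℝ → ℝ} {b B Q' : ℝ} (hb : b < T)
    (hk0 : ∀ t ∈ Icc 0 b, 0 ≤ kf t) (hkB : ∀ t ∈ Icc 0 b, kf t ≤ B) (hki : IntervalIntegrable kf volume 0 b)
    (hW : ∀ t ∈ Icc 0 b, FBd (W t) (kf t)) (hQ : ∀ t ∈ Ioc 0 b, ∫ r in (t/2)..t, kf r ≤ Q')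
    {t s r : ℝ} (ht : t ∈ Ioc 0 b) (hs : t / 2 ≤ s) (hsr : s ≤ r) (hr : r ≤ t) :
    ∫ x, V r x ^ 4 ≤ (∫ x, V s x ^ 4) * Real.exp (16 * Q' + 1) := by
  obtain ⟨Y, hY⟩ := GDec_V4 F hb
  have ht0 := ht.1
  have hs0 : 0 ≤ s := by linarith
  have hrb : r ≤ b := hr.trans ht.2
  have hQ1 : ∫ q in s..r, kf q ≤ Q' := by
    refine le_trans ?_ (hQ t ht)
    refine intervalIntegral.integral_mono_interval hs hsr hr ?_
      (GDec_sub hki (by linarith) (by linarith) ht.2)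
    refine (ae_restrict_iff' measurableSet_Ioc).2 (Eventually.of_forall fun q hq => ?_)
    exact hk0 q ⟨by linarith [hq.1], hq.2.trans ht.2⟩
  have h := gron (y := fun t => ∫ x, V t x ^ 4) (w := kf) (l := 8) (Q := Q') (Y := Y) hsr
    (GDec_sub hki hs0 hsr hrb) (fun q hq => hk0 q ⟨hs0.trans hq.1, hq.2.trans hrb⟩) hQ1
    (fun q hq => (hY q ⟨hs0.trans hq.1, hq.2.trans hrb⟩).1)
    (fun q hq => (hY q ⟨hs0.trans hq.1, hq.2.trans hrb⟩).2)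
    (GDec_ii hsr (GDec_sub hki hs0 hsr hrb) (GDec_iiV F hs0 hsr (hrb.trans_lt hb)).1
      (fun q hq => by
        rw [abs_of_nonneg (hY q ⟨hs0.trans hq.1, hq.2.trans hrb⟩).1]
        exact (hY q ⟨hs0.trans hq.1, hq.2.trans hrb⟩).2)) (by norm_num)
    (fun s' t' h1 h2 h3 => by
      have h4 := g4 F hb hk0 hkB hki hW (hs0.trans h1) h2 (h3.trans hrb)
      have h5 : 0 ≤ ∫ q in s'..t', ∫ x, V q x ^ 2 * gsq (V q) x :=
        intervalIntegral.integral_nonneg h2 fun q _ =>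
          integral_nonneg fun x => mul_nonneg (sq_nonneg _) (gsq_nonneg _ _)
      linarith)
  have e : 2 * 8 * Q' + 1 = 16 * Q' + 1 := by ring
  rw [e] at h
  exact h

theorem g_V4 (F : Flow T u V W Om) {kf : ℝ → ℝ} {b B Q' N₁ : ℝ} (h0 : 0 ≤ b) (hb : b < T)
    (hk0 : ∀ t ∈ Icc 0 b, 0 ≤ kf t) (hkB : ∀ t ∈ Icc 0 b, kf t ≤ B) (hki : IntervalIntegrable kf volume 0 b)
    (hW : ∀ t ∈ Icc 0 b, FBd (W t) (kf t)) (hQ : ∀ t ∈ Ioc 0 b, ∫ r in (t/2)..t, kf r ≤ Q')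
    (hN : ∀ t ∈ Icc 0 b, Integrable (fun x => |V t x| ^ (3/2 : ℝ)) ∧ ∫ x, |V t x| ^ (3/2 : ℝ) ≤ N₁) :
    ∀ t ∈ Ioc 0 b, ∫ x, V t x ^ 4 ≤
      Real.exp (16 * Q' + 1) ^ (17/2 : ℝ) * (24 * SB) ^ (5/2 : ℝ) * N₁ ^ (8/3 : ℝ) * t ^ (-(5/2) : ℝ) := by
  intro t₀ ht₀
  have hSB := SB_pos
  obtain ⟨Y0, hY0⟩ := GDec_V4 F hb
  set y : ℝ → ℝ := fun t => ∫ x, V t x ^ 4 with hy
  set g : ℝ := Real.exp (16 * Q' + 1) with hg
  have hg0 : 0 < g := Real.exp_pos _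
  have hQ0 : 0 ≤ Q' := by
    refine le_trans ?_ (hQ t₀ ht₀)
    have := ht₀.1
    exact intervalIntegral.integral_nonneg (by linarith) fun q hq =>
      hk0 q ⟨by linarith [hq.1], hq.2.trans ht₀.2⟩
  have hg1 : 1 + 8 * Q' ≤ g := by
    have := Real.add_one_le_exp (16 * Q' + 1)
    linarith
  have hN0 : 0 ≤ N₁ := by
    refine le_trans ?_ (hN t₀ ⟨ht₀.1.le, ht₀.2⟩).2
    exact integral_nonneg fun x => Real.rpow_nonneg (abs_nonneg _) _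
  set S : Set ℝ := (fun τ : ℝ => τ ^ (5/2 : ℝ) * y τ) '' Ioc 0 b with hS
  have hbdd : BddAbove S := by
    refine ⟨b ^ (5/2 : ℝ) * Y0, ?_⟩
    rintro _ ⟨τ, hτ, rfl⟩
    have h1 := hY0 τ ⟨hτ.1.le, hτ.2⟩
    exact mul_le_mul (Real.rpow_le_rpow hτ.1.le hτ.2 (by norm_num)) h1.2 h1.1
      (Real.rpow_nonneg h0 _)
  have hne : S.Nonempty := ⟨_, t₀, ht₀, rfl⟩
  set Y : ℝ := sSup S with hYd
  have hYle : ∀ τ ∈ Ioc 0 b, τ ^ (5/2 : ℝ) * y τ ≤ Y := fun τ hτ => le_csSup hbdd ⟨τ, hτ, rfl⟩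
  have hYy : ∀ τ ∈ Ioc 0 b, y τ ≤ Y * τ ^ (-(5/2) : ℝ) := by
    intro τ hτ
    have h1 := mul_le_mul_of_nonneg_right (hYle τ hτ) (Real.rpow_nonneg hτ.1.le (-(5/2) : ℝ))
    have h2 : τ ^ (5/2 : ℝ) * y τ * τ ^ (-(5/2) : ℝ) = y τ := by
      have := GDec_one hτ.1 (5/2 : ℝ)
      calc τ ^ (5/2 : ℝ) * y τ * τ ^ (-(5/2) : ℝ) = y τ * (τ ^ (5/2 : ℝ) * τ ^ (-(5/2) : ℝ)) := by ring
        _ = y τ := by rw [this, mul_one]
    rw [h2] at h1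
    exact h1
  have hY00 : 0 ≤ Y := by
    refine le_trans ?_ (hYle t₀ ht₀)
    exact mul_nonneg (Real.rpow_nonneg ht₀.1.le _) (hY0 t₀ ⟨ht₀.1.le, ht₀.2⟩).1
  -- the main inequality
  have hmain : Y ≤ (g * N₁ ^ (16/21 : ℝ)) * ((24 * SB * g ^ 2) * Y) ^ (5/7 : ℝ) := by
    refine csSup_le hne ?_
    rintro _ ⟨t, ht, rfl⟩
    have ht0 : 0 < t := ht.1
    have ht2 : t / 2 ∈ Ioc 0 b := ⟨by linarith, by linarith [ht.2]⟩
    have hth : 0 ≤ t / 2 := ht2.1.le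
    have hyt2 : 0 ≤ y (t / 2) := (hY0 (t/2) ⟨hth, ht2.2⟩).1
    have htT : t < T := ht.2.trans_lt hb
    have hD := (GDec_iiV F hth (by linarith) htT).2
    -- total dissipation
    have h1 : ∫ r in (t/2)..t, ∫ x, V r x ^ 2 * gsq (V r) x ≤ g ^ 2 * y (t / 2) / 8 := by
      have h2 := g4 F hb hk0 hkB hki hW hth (by linarith : t / 2 ≤ t) ht.2
      have h3 : ∫ r in (t/2)..t, kf r * ∫ x, V r x ^ 4 ≤ ∫ r in (t/2)..t, kf r * (y (t/2) * g) := by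
        refine intervalIntegral.integral_mono_on (by linarith)
          (GDec_ii (Y := Y0) (by linarith) (GDec_sub hki hth (by linarith) ht.2)
            (GDec_iiV F hth (by linarith) htT).1 (fun q hq => ?_))
          ((GDec_sub hki hth (by linarith) ht.2).mul_const _) fun q hq => ?_
        · have h4 := hY0 q ⟨hth.trans hq.1, hq.2.trans ht.2⟩
          rw [abs_of_nonneg h4.1]
          exact h4.2
        · refine mul_le_mul_of_nonneg_left ?_ (hk0 q ⟨hth.trans hq.1, hq.2.trans ht.2⟩)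
          exact GDec_gr F hb hk0 hkB hki hW hQ ht le_rfl hq.1 hq.2
      rw [intervalIntegral.integral_mul_const] at h3
      have h4 : (∫ r in (t/2)..t, kf r) * (y (t/2) * g) ≤ Q' * (y (t/2) * g) :=
        mul_le_mul_of_nonneg_right (hQ t ht) (mul_nonneg hyt2 hg0.le)
      have h5 : 0 ≤ ∫ x, V t x ^ 4 := (hY0 t ⟨ht0.le, ht.2⟩).1
      have h6 : (1 + 8 * Q' * g) * y (t/2) ≤ g ^ 2 * y (t / 2) := by
        refine mul_le_mul_of_nonneg_right ?_ hyt2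
        have h7 : 1 ≤ g := by linarith
        nlinarith
      have h8 : (∫ x, V (t/2) x ^ 4) = y (t/2) := rfl
      rw [h8] at h2
      nlinarith
    obtain ⟨s, hs, hsD⟩ := good_time (by linarith : t / 2 < t) hD h1
    have hsb : s ∈ Icc 0 b := ⟨hth.trans hs.1, hs.2.trans ht.2⟩
    have hsT : s ∈ Ico 0 T := ⟨hsb.1, hsb.2.trans_lt hb⟩
    obtain ⟨KV, hKV⟩ := F.evV.bd b hb
    have h9 := itp4 (F.evV.smooth s hsT) (hKV s hsb).1 (hN s hsb).1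
    -- bound for y s
    have h10 : 4 * SB * ∫ x, V s x ^ 2 * gsq (V s) x ≤ (24 * SB * g ^ 2 * Y) * t ^ (-(7/2) : ℝ) := by
      have h11 : ∫ x, V s x ^ 2 * gsq (V s) x ≤ g ^ 2 * y (t / 2) / t := by
        refine hsD.trans ?_
        have e : t - t / 2 = t / 2 := by ring
        rw [e, div_div, div_le_div_iff₀ (by linarith) ht0]
        have : 0 ≤ g ^ 2 * y (t / 2) := mul_nonneg (sq_nonneg g) hyt2
        nlinarith
      have h12 : y (t / 2) ≤ Y * (6 * t ^ (-(5/2) : ℝ)) :=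
        (hYy (t/2) ht2).trans (mul_le_mul_of_nonneg_left (GDec_rp ht0) hY00)
      have h13 : g ^ 2 * y (t / 2) / t ≤ g ^ 2 * (Y * (6 * t ^ (-(5/2) : ℝ))) / t :=
        div_le_div_of_nonneg_right (mul_le_mul_of_nonneg_left h12 (sq_nonneg g)) ht0.le
      have h14 := mul_le_mul_of_nonneg_left (h11.trans h13) (by positivity : 0 ≤ 4 * SB)
      refine h14.trans (le_of_eq ?_)
      rw [← GDec_m2 ht0]
      field_simp
      ring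
    have h15 : y s ≤ N₁ ^ (16/21 : ℝ) * ((24 * SB * g ^ 2 * Y) ^ (5/7 : ℝ) * t ^ (-(5/2) : ℝ)) := by
      refine h9.trans ?_
      have h16 : 0 ≤ ∫ x, V s x ^ 2 * gsq (V s) x :=
        integral_nonneg fun x => mul_nonneg (sq_nonneg _) (gsq_nonneg _ _)
      refine mul_le_mul (Real.rpow_le_rpow (integral_nonneg fun x => Real.rpow_nonneg (abs_nonneg _) _)
        (hN s hsb).2 (by norm_num)) ?_ (Real.rpow_nonneg (by positivity) _) (Real.rpow_nonneg hN0 _)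
      refine (Real.rpow_le_rpow (by positivity) h10 (by norm_num)).trans (le_of_eq ?_)
      rw [Real.mul_rpow (by positivity) (Real.rpow_nonneg ht0.le _), ← Real.rpow_mul ht0.le]
      norm_num
    have h17 := GDec_gr F hb hk0 hkB hki hW hQ ht hs.1 hs.2 le_rfl
    have h18 : y t ≤ N₁ ^ (16/21 : ℝ) * ((24 * SB * g ^ 2 * Y) ^ (5/7 : ℝ) * t ^ (-(5/2) : ℝ)) * g :=
      h17.trans (mul_le_mul_of_nonneg_right h15 hg0.le)
    have h19 := mul_le_mul_of_nonneg_left h18 (Real.rpow_nonneg ht0.le (5/2 : ℝ))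
    refine h19.trans (le_of_eq ?_)
    have h20 := GDec_one ht0 (5/2 : ℝ)
    calc t ^ (5/2 : ℝ) * (N₁ ^ (16/21 : ℝ) * ((24 * SB * g ^ 2 * Y) ^ (5/7 : ℝ) * t ^ (-(5/2) : ℝ)) * g)
        = (t ^ (5/2 : ℝ) * t ^ (-(5/2) : ℝ)) * (g * N₁ ^ (16/21 : ℝ) * (24 * SB * g ^ 2 * Y) ^ (5/7 : ℝ)) := by
          ring
      _ = _ := by rw [h20, one_mul]
  have hsol := solve7 hY00 (mul_nonneg hg0.le (Real.rpow_nonneg hN0 _)) (by positivity) hmain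
  have hYb : Y ≤ g ^ (17/2 : ℝ) * (24 * SB) ^ (5/2 : ℝ) * N₁ ^ (8/3 : ℝ) := by
    refine hsol.trans (le_of_eq ?_)
    rw [Real.mul_rpow hg0.le (Real.rpow_nonneg hN0 _), ← Real.rpow_mul hN0,
      Real.mul_rpow (by positivity) (by positivity), ← Real.rpow_natCast g 2, ← Real.rpow_mul hg0.le]
    have e1 : (16/21 : ℝ) * (7/2) = 8/3 := by norm_num
    have e2 : (((2 : ℕ) : ℝ)) * (5/2) = 5 := by norm_num
    have e3 : g ^ (17/2 : ℝ) = g ^ (7/2 : ℝ) * g ^ (5 : ℝ) := by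
      rw [← Real.rpow_add hg0]
      norm_num
    rw [e1, e2, e3]
    ring
  exact (hYy t₀ ht₀).trans (mul_le_mul_of_nonneg_right hYb (Real.rpow_nonneg ht₀.1.le _))

theorem g_O2 (F : Flow T u V W Om) {b K μ : ℝ} (h0 : 0 ≤ b) (hb : b < T) (hK : 0 ≤ K) (hμ : 0 ≤ μ)
    (hO : ∀ t ∈ Icc 0 b, Integrable (Om t) ∧ ∫ x, |Om t x| ≤ 2 * K)
    (hV : ∀ t ∈ Ioc 0 b, ∫ x, V t x ^ 4 ≤ μ * t ^ (-(5/2) : ℝ)) :
    ∀ t ∈ Ioc 0 b, ∫ x, Om t x ^ 2 ≤ (7 * μ + 8 * (6 * SB) ^ (3/2 : ℝ) * K ^ 2) * t ^ (-(3/2) : ℝ) := by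
  intro t₀ ht₀
  have hSB := SB_pos
  obtain ⟨Y0, hY0⟩ := GDec_O2 F hb
  set y : ℝ → ℝ := fun t => ∫ x, Om t x ^ 2 with hy
  set S : Set ℝ := (fun τ : ℝ => τ ^ (3/2 : ℝ) * y τ) '' Ioc 0 b with hS
  have hbdd : BddAbove S := by
    refine ⟨b ^ (3/2 : ℝ) * Y0, ?_⟩
    rintro _ ⟨τ, hτ, rfl⟩
    have h1 := hY0 τ ⟨hτ.1.le, hτ.2⟩
    exact mul_le_mul (Real.rpow_le_rpow hτ.1.le hτ.2 (by norm_num)) h1.2 h1.1
      (Real.rpow_nonneg h0 _)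
  have hne : S.Nonempty := ⟨_, t₀, ht₀, rfl⟩
  set Y : ℝ := sSup S with hYd
  have hYle : ∀ τ ∈ Ioc 0 b, τ ^ (3/2 : ℝ) * y τ ≤ Y := fun τ hτ => le_csSup hbdd ⟨τ, hτ, rfl⟩
  have hYy : ∀ τ ∈ Ioc 0 b, y τ ≤ Y * τ ^ (-(3/2) : ℝ) := by
    intro τ hτ
    have h1 := mul_le_mul_of_nonneg_right (hYle τ hτ) (Real.rpow_nonneg hτ.1.le (-(3/2) : ℝ))
    have h2 : τ ^ (3/2 : ℝ) * y τ * τ ^ (-(3/2) : ℝ) = y τ := by
      have := GDec_one hτ.1 (3/2 : ℝ)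
      calc τ ^ (3/2 : ℝ) * y τ * τ ^ (-(3/2) : ℝ) = y τ * (τ ^ (3/2 : ℝ) * τ ^ (-(3/2) : ℝ)) := by ring
        _ = y τ := by rw [this, mul_one]
    rw [h2] at h1
    exact h1
  have hY00 : 0 ≤ Y := by
    refine le_trans ?_ (hYle t₀ ht₀)
    exact mul_nonneg (Real.rpow_nonneg ht₀.1.le _) (hY0 t₀ ⟨ht₀.1.le, ht₀.2⟩).1
  have hmain : Y ≤ (2 * K) ^ (4/5 : ℝ) * ((6 * SB) * (Y + μ)) ^ (3/5 : ℝ) + 3 * μ := by
    refine csSup_le hne ?_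
    rintro _ ⟨t, ht, rfl⟩
    have ht0 : 0 < t := ht.1
    have ht2 : t / 2 ∈ Ioc 0 b := ⟨by linarith, by linarith [ht.2]⟩
    have hth : 0 ≤ t / 2 := ht2.1.le
    have htT : t < T := ht.2.trans_lt hb
    have ht3 : 0 ≤ t ^ (-(3/2) : ℝ) := Real.rpow_nonneg ht0.le _
    have hsub : ∀ s, t / 2 ≤ s → s ≤ t → ∫ r in s..t, ∫ x, V r x ^ 4 ≤ 3 * μ * t ^ (-(3/2) : ℝ) := by
      intro s hs1 hs2
      have h1 : ∫ r in s..t, ∫ x, V r x ^ 4 ≤ ∫ r in (t/2)..t, ∫ x, V r x ^ 4 := by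
        refine intervalIntegral.integral_mono_interval hs1 hs2 le_rfl
          (Eventually.of_forall fun q => ?_) (GDec_iiV F hth (by linarith) htT).1
        exact integral_nonneg fun x => by positivity
      have h2 : ∫ r in (t/2)..t, ∫ x, V r x ^ 4 ≤ ∫ _ in (t/2)..t, μ * (t/2) ^ (-(5/2) : ℝ) := by
        refine intervalIntegral.integral_mono_on (by linarith)
          (GDec_iiV F hth (by linarith) htT).1 intervalIntegrable_const fun q hq => ?_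
        refine (hV q ⟨by linarith [hq.1], hq.2.trans ht.2⟩).trans ?_
        refine mul_le_mul_of_nonneg_left ?_ hμ
        exact Real.rpow_le_rpow_of_nonpos (by linarith) hq.1 (by norm_num)
      rw [intervalIntegral.integral_const, smul_eq_mul] at h2
      have e : (t - t / 2) * (μ * (t/2) ^ (-(5/2) : ℝ)) = μ * ((t/2) * (t/2) ^ (-(5/2) : ℝ)) := by ring
      rw [e, GDec_m1 (by linarith : 0 < t / 2)] at h2
      have h3 := mul_le_mul_of_nonneg_left (GDec_rq ht0) hμ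
      linarith
    have hO2 : ∀ s, t / 2 ≤ s → s ≤ t → y t + ∫ r in s..t, ∫ x, gsq (Om r) x ≤
        y s + 3 * μ * t ^ (-(3/2) : ℝ) := by
      intro s hs1 hs2
      have h1 := step_O2 F (hth.trans hs1) hs2 htT
      have h2 := hsub s hs1 hs2
      have h3 : (∫ x, Om t x ^ 2) = y t := rfl
      have h4 : (∫ x, Om s x ^ 2) = y s := rfl
      rw [h3, h4] at h1
      linarith
    have h1 : ∫ r in (t/2)..t, ∫ x, gsq (Om r) x ≤ 3 * (Y + μ) * t ^ (-(3/2) : ℝ) := by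
      have h2 := hO2 (t/2) le_rfl (by linarith)
      have h3 : 0 ≤ y t := (hY0 t ⟨ht0.le, ht.2⟩).1
      have h4 : y (t/2) ≤ Y * (3 * t ^ (-(3/2) : ℝ)) :=
        (hYy (t/2) ht2).trans (mul_le_mul_of_nonneg_left (GDec_rq ht0) hY00)
      linarith
    obtain ⟨s, hs, hsD⟩ := good_time (by linarith : t / 2 < t) (GDec_iiO F hth (by linarith) htT) h1
    have hsb : s ∈ Icc 0 b := ⟨hth.trans hs.1, hs.2.trans ht.2⟩
    have hsT : s ∈ Ico 0 T := ⟨hsb.1, hsb.2.trans_lt hb⟩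
    obtain ⟨KO, hKO⟩ := F.evO.bd b hb
    have h9 := itp2 (F.evO.smooth s hsT) (hKO s hsb).1 (hO s hsb).1
    have h10 : SB * ∫ x, gsq (Om s) x ≤ (6 * SB * (Y + μ)) * t ^ (-(5/2) : ℝ) := by
      have h11 := mul_le_mul_of_nonneg_left hsD hSB.le
      refine h11.trans (le_of_eq ?_)
      rw [← GDec_m1 ht0]
      field_simp
      ring
    have h15 : y s ≤ (2 * K) ^ (4/5 : ℝ) * ((6 * SB * (Y + μ)) ^ (3/5 : ℝ) * t ^ (-(3/2) : ℝ)) := by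
      refine h9.trans ?_
      have h16 : 0 ≤ ∫ x, gsq (Om s) x := integral_nonneg fun x => gsq_nonneg _ _
      refine mul_le_mul (Real.rpow_le_rpow (integral_nonneg fun x => abs_nonneg _)
        (hO s hsb).2 (by norm_num)) ?_ (Real.rpow_nonneg (by positivity) _)
        (Real.rpow_nonneg (by positivity) _)
      refine (Real.rpow_le_rpow (by positivity) h10 (by norm_num)).trans (le_of_eq ?_)
      rw [Real.mul_rpow (by positivity) (Real.rpow_nonneg ht0.le _), ← Real.rpow_mul ht0.le]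
      norm_num
    have h17 : y t ≤ y s + 3 * μ * t ^ (-(3/2) : ℝ) := by
      have h2 := hO2 s hs.1 hs.2
      have h3 : 0 ≤ ∫ r in s..t, ∫ x, gsq (Om r) x :=
        intervalIntegral.integral_nonneg hs.2 fun q _ => integral_nonneg fun x => gsq_nonneg _ _
      linarith
    have h19 := mul_le_mul_of_nonneg_left (h17.trans (add_le_add_left h15 _))
      (Real.rpow_nonneg ht0.le (3/2 : ℝ))
    refine h19.trans (le_of_eq ?_)
    have h20 := GDec_one ht0 (3/2 : ℝ)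
    calc t ^ (3/2 : ℝ) * ((2 * K) ^ (4/5 : ℝ) * ((6 * SB * (Y + μ)) ^ (3/5 : ℝ) * t ^ (-(3/2) : ℝ)) +
          3 * μ * t ^ (-(3/2) : ℝ))
        = (t ^ (3/2 : ℝ) * t ^ (-(3/2) : ℝ)) *
          ((2 * K) ^ (4/5 : ℝ) * (6 * SB * (Y + μ)) ^ (3/5 : ℝ) + 3 * μ) := by ring
      _ = _ := by rw [h20, one_mul]
  have hsol := solve5 hY00 (by positivity : 0 ≤ 2 * K) (by positivity) hμ hmain
  have hYb : Y ≤ 7 * μ + 8 * (6 * SB) ^ (3/2 : ℝ) * K ^ 2 := by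
    refine hsol.trans (le_of_eq ?_)
    ring
  exact (hYy t₀ ht₀).trans (mul_le_mul_of_nonneg_right hYb (Real.rpow_nonneg ht₀.1.le _))

end Pool.Agent.H87.NS
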