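import Pool.Agent.H87.NG.GWt
import Pool.Agent.H87.NG.RB

/-! The bootstrap. -/

set_option autoImplicit false

open Set Filter Topology MeasureTheory
open scoped ContDiff

namespace Pool.Agent.H87.NS

open Pool.Agent.H16

/-- The radius of the balls around the axis. -/
noncomputable def sg (ℓ ts ε t : ℝ) : ℝ := if t ≤ ts then ℓ / 2 else ε * √t

/-- The bootstrap hypothesis. -/
def PG (u : ℝ → E3 → E3) (K ℓ ts ε b : ℝ) : Prop :=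
  ∀ t ∈ Icc 0 b, Integrable (sO (u t)) ∧ ∫ x, |sO (u t) x| ≤ 2 * K ∧
    ∀ z, ∫ x in Metric.ball (axp z) (sg ℓ ts ε t), |sO (u t) x| ≤ cG

/-- The constant in the decay of `∫ Om²`. -/
noncomputable def CO : ℝ := 7 + 8 * (6 * SB) ^ (3/2 : ℝ)

/-- The conclusion of the main estimate. -/
def MG (u : ℝ → E3 → E3) (K ℓ ts b : ℝ) : Prop :=
  (∀ t ∈ Icc 0 b, Integrable (sO (u t)) ∧ ∫ x, |sO (u t) x| ≤ 3 / 2 * K) ∧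
  (∀ t ∈ Ioc 0 b, ∫ x, sO (u t) x ^ 2 ≤ CO * K ^ 2 * t ^ (-(3/2) : ℝ)) ∧
  (∀ t ∈ Icc 0 b, t ≤ ts → ∀ z, ∫ x, |sO (u t) x| * cb ℓ z x ≤ 3 / 4 * cG)

/-- The total growth. -/
noncomputable def QG (K ε ts T₂ : ℝ) : ℝ := CG * K ^ 3 * (4 + 1 / ε ^ 2 * Real.log (T₂ / ts))

/-- The bound of `∫ |V|^(3/2)`. -/
noncomputable def N1 (u : ℝ → E3 → E3) (K ε ts T₂ : ℝ) : ℝ :=
  (∫ x, |sV (u 0) x| ^ (3/2 : ℝ)) * Real.exp (8 * QG K ε ts T₂ + 1)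

/-- The coefficient of the decay of `∫ V⁴`. -/
noncomputable def mG (u : ℝ → E3 → E3) (K ε ts T₂ : ℝ) : ℝ :=
  Real.exp (16 * (CG * K ^ 3 * (4 + 1 / ε ^ 2)) + 1) ^ (17/2 : ℝ) * (24 * SB) ^ (5/2 : ℝ) * N1 u K ε ts T₂ ^ (8/3 : ℝ)

/-- The hypotheses on the initial data and the parameters. -/
structure GH (T : ℝ) (u : ℝ → E3 → E3) (p : ℝ → E3 → ℝ) (K ℓ ts ε η T₂ : ℝ) : Prop where
  sol : IsHInfAxisymNS T u p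
  hK : 1 ≤ K
  hℓ : 0 < ℓ
  hts : 0 < ts
  htl : ts ≤ ℓ ^ 2
  hε : 0 < ε
  hT : ts ≤ T₂
  o1 : Integrable (sO (u 0)) ∧ ∫ x, |sO (u 0) x| ≤ K
  o2 : ∀ z, ∫ x in Metric.ball (axp z) ℓ, |sO (u 0) x| ≤ cG / 2
  v1 : Integrable (fun x => |sV (u 0) x| ^ (3/2 : ℝ))
  sε : √(20 * CO * ε ^ 3) * K ≤ cG
  sη : 2 * √SB * (1 + 4 * QG K ε ts T₂) * N1 u K ε ts T₂ ^ (4/3 : ℝ) ≤ η
  sη1 : η ≤ cG / 16
  sη2 : η ≤ K / 8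
  sμ : mG u K ε ts T₂ ≤ K ^ 2
  st : CB / ℓ * √(∫ x, ‖u 0 x‖ ^ 2) * (4 * √CO * K * ts ^ (1/4 : ℝ)) + 4 * CB * K / ℓ ^ 2 * ts ≤ cG / 8

end Pool.Agent.H87.NS
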