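/-
ROW GM. The main estimate. PROOF. `F = flow_of H.sol`, `kf t = CG K³ / (sg ℓ ts ε t)²` (positive, bounded by `CG K³ max (4/ℓ²) (1/(ε² ts))`, measurable, so interval
integrable). For `t ∈ [0, b]`, PG and the third part of the choice in form_bound (`Classical.choose_spec (Classical.choose_spec form_bound)`; kernel: F.ker, integrability: int_div,
sO_rot, bounds of F) give `FBd (W t) (kf t)`. `∫_0^b kf ≤ QG`: on `[0, ts]` it is `4 CG K³ ts / ℓ² ≤ 4 CG K³`, on `[ts, b]` `CG K³ ε⁻² log (b / ts) ≤ CG K³ ε⁻² log (T₂ / ts)`.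
`∫_{t/2}^t kf ≤ CG K³ (4 + ε⁻²)` (`log 2 ≤ 1`). gN: the bound `N1`. gVdV and sη: `∫_0^b ∫ |V| √gsq V ≤ η`. g_V4: `∫ V(t)⁴ ≤ mG t^(-5/2)`. g_O2 with `μ = mG ≤ K²`: `∫ Om(t)² ≤ CO K² t^(-3/2)`.
step_O on `[0, t]`: `∫ |Om t| ≤ K + 2 η ≤ (3/2) K`. Near the axis, `t ≤ ts`: wt_L1 with `χ = cb ℓ z`, `s = 0`:
`∫ |Om t| χ ≤ cG/2 + 2 η + (CB/ℓ) √E ∫_0^t √CO K r^(-3/4) dr + 4 CB K t / ℓ² ≤ cG/2 + cG/8 + cG/8` (`∫_0^t r^(-3/4) = 4 t^(1/4)`, `∫ |Om 0| χ ≤ ∫_{ball (axp z) ℓ} |Om 0| ≤ cG/2`; H.st).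
-/
import Pool.Agent.H87.NG.GDefs
import Pool.Agent.H87.NG.GDec

set_option autoImplicit false

open Set Filter Topology MeasureTheory
open scoped ContDiff

namespace Pool.Agent.H87.NS

open Pool.Agent.H16

variable {T : ℝ} {u : ℝ → E3 → E3} {p : ℝ → E3 → ℝ} {K ℓ ts ε η T₂ b : ℝ}

/-- The coefficient of the form bound as a function of time. -/
noncomputable def GM_kf (K ℓ ts ε t : ℝ) : ℝ := CG * K ^ 3 / sg ℓ ts ε t ^ 2

theorem GM_kf_lo {t : ℝ} (hℓ : 0 < ℓ) (ht : t ≤ ts) : GM_kf K ℓ ts ε t = 4 * (CG * K ^ 3) / ℓ ^ 2 := by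
  have h1 : sg ℓ ts ε t = ℓ / 2 := if_pos ht
  unfold GM_kf
  rw [h1]
  field_simp
  ring

theorem GM_kf_hi {t : ℝ} (hε : 0 < ε) (hts : 0 < ts) (ht : ts < t) :
    GM_kf K ℓ ts ε t = CG * K ^ 3 / ε ^ 2 * t⁻¹ := by
  have h1 : sg ℓ ts ε t = ε * √t := if_neg (not_le.2 ht)
  have h0 : 0 < t := hts.trans ht
  unfold GM_kf
  rw [h1, mul_pow, Real.sq_sqrt h0.le]
  field_simp

theorem GM_kf_eq {t : ℝ} (hℓ : 0 < ℓ) (hε : 0 < ε) (hts : 0 < ts) :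
    GM_kf K ℓ ts ε t = if t ≤ ts then 4 * (CG * K ^ 3) / ℓ ^ 2 else CG * K ^ 3 / ε ^ 2 * t⁻¹ := by
  split_ifs with h
  · exact GM_kf_lo hℓ h
  · exact GM_kf_hi hε hts (not_le.1 h)

theorem GM_sg_pos {t : ℝ} (hℓ : 0 < ℓ) (hε : 0 < ε) (hts : 0 < ts) : 0 < sg ℓ ts ε t := by
  unfold sg
  split_ifs with h
  · positivity
  · have : 0 < t := hts.trans (not_le.1 h)
    positivity

theorem GM_kf_nonneg {t : ℝ} (hK : 1 ≤ K) : 0 ≤ GM_kf K ℓ ts ε t := by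
  have h1 : 0 < CG := CG_pos
  have h2 : 0 < K := by linarith
  unfold GM_kf
  positivity

theorem GM_kf_le (hK : 1 ≤ K) (hℓ : 0 < ℓ) (hε : 0 < ε) (hts : 0 < ts) (t : ℝ) :
    GM_kf K ℓ ts ε t ≤ 4 * (CG * K ^ 3) / ℓ ^ 2 + CG * K ^ 3 / ε ^ 2 * ts⁻¹ := by
  have h1 : 0 < CG := CG_pos
  have h2 : 0 < K := by linarith
  have h3 : 0 < 4 * (CG * K ^ 3) / ℓ ^ 2 := by positivity
  have h4 : 0 < CG * K ^ 3 / ε ^ 2 := by positivity
  rcases le_or_gt t ts with h | h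
  · rw [GM_kf_lo hℓ h]
    have : 0 < CG * K ^ 3 / ε ^ 2 * ts⁻¹ := by positivity
    linarith
  · rw [GM_kf_hi hε hts h]
    have h5 : t⁻¹ ≤ ts⁻¹ := inv_anti₀ hts h.le
    have h6 := mul_le_mul_of_nonneg_left h5 h4.le
    linarith

theorem GM_kf_meas (hℓ : 0 < ℓ) (hε : 0 < ε) (hts : 0 < ts) : Measurable (GM_kf K ℓ ts ε) := by
  have h1 : GM_kf K ℓ ts ε = fun t => if t ≤ ts then 4 * (CG * K ^ 3) / ℓ ^ 2 else CG * K ^ 3 / ε ^ 2 * t⁻¹ := by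
    funext t
    exact GM_kf_eq hℓ hε hts
  rw [h1]
  exact Measurable.ite measurableSet_Iic measurable_const (measurable_inv.const_mul _)

theorem GM_kf_ii (hK : 1 ≤ K) (hℓ : 0 < ℓ) (hε : 0 < ε) (hts : 0 < ts) (a c : ℝ) :
    IntervalIntegrable (GM_kf K ℓ ts ε) volume a c := by
  refine (intervalIntegrable_const (c := 4 * (CG * K ^ 3) / ℓ ^ 2 + CG * K ^ 3 / ε ^ 2 * ts⁻¹)).mono_fun'
    (GM_kf_meas hℓ hε hts).aestronglyMeasurable (Eventually.of_forall fun t => ?_)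
  show ‖GM_kf K ℓ ts ε t‖ ≤ _
  rw [Real.norm_of_nonneg (GM_kf_nonneg hK)]
  exact GM_kf_le hK hℓ hε hts t

theorem GM_int_lo (hℓ : 0 < ℓ) {a c : ℝ} (hac : a ≤ c) (hc : c ≤ ts) :
    ∫ r in a..c, GM_kf K ℓ ts ε r = 4 * (CG * K ^ 3) / ℓ ^ 2 * (c - a) := by
  have h1 : ∫ r in a..c, GM_kf K ℓ ts ε r = ∫ r in a..c, 4 * (CG * K ^ 3) / ℓ ^ 2 := by
    refine intervalIntegral.integral_congr fun r hr => ?_
    rw [uIcc_of_le hac] at hr
    exact GM_kf_lo hℓ (hr.2.trans hc)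
  rw [h1, intervalIntegral.integral_const, smul_eq_mul]
  ring

theorem GM_int_hi (hε : 0 < ε) (hts : 0 < ts) {a c : ℝ} (hac : a ≤ c) (ha : ts ≤ a) :
    ∫ r in a..c, GM_kf K ℓ ts ε r = CG * K ^ 3 / ε ^ 2 * Real.log (c / a) := by
  have h1 : ∫ r in a..c, GM_kf K ℓ ts ε r = ∫ r in a..c, CG * K ^ 3 / ε ^ 2 * r⁻¹ := by
    refine intervalIntegral.integral_congr_ae ?_
    refine Eventually.of_forall fun r hr => ?_
    rw [uIoc_of_le hac] at hr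
    exact GM_kf_hi hε hts (lt_of_le_of_lt ha hr.1)
  have ha0 : 0 < a := hts.trans_le ha
  rw [h1, intervalIntegral.integral_const_mul, integral_inv_of_pos ha0 (ha0.trans_le hac)]

/-- The integral of the coefficient over an interval. -/
theorem GM_int (hK : 1 ≤ K) (hℓ : 0 < ℓ) (hε : 0 < ε) (hts : 0 < ts) (htl : ts ≤ ℓ ^ 2) {a c L : ℝ} (ha : 0 ≤ a)
    (hac : a ≤ c) (hL : 0 ≤ L) (h : ts ≤ c → Real.log (c / max a ts) ≤ L) :
    ∫ r in a..c, GM_kf K ℓ ts ε r ≤ CG * K ^ 3 * (4 + 1 / ε ^ 2 * L) := by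
  have h1 : 0 < CG := CG_pos
  have h2 : 0 < K := by linarith
  have hM : 0 < CG * K ^ 3 := by positivity
  set M : ℝ := CG * K ^ 3 with hMd
  have hA : ∀ y : ℝ, 0 ≤ y → y ≤ ts → 4 * M / ℓ ^ 2 * y ≤ M * 4 := by
    intro y hy hy2
    have h3 : y ≤ ℓ ^ 2 := hy2.trans htl
    have h4 : 4 * M / ℓ ^ 2 * y ≤ 4 * M / ℓ ^ 2 * ℓ ^ 2 :=
      mul_le_mul_of_nonneg_left h3 (by positivity)
    have h5 : 4 * M / ℓ ^ 2 * ℓ ^ 2 = M * 4 := by
      field_simp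
    linarith
  have hD : 0 ≤ M * (1 / ε ^ 2 * L) := by positivity
  have hspl : M * (4 + 1 / ε ^ 2 * L) = M * 4 + M * (1 / ε ^ 2 * L) := by ring
  rw [hspl]
  rcases le_or_gt c ts with hc | hc
  · rw [GM_int_lo hℓ hac hc]
    have := hA (c - a) (by linarith) (by linarith)
    linarith
  · have hlog := h hc.le
    rcases le_or_gt ts a with hta | hta
    · rw [GM_int_hi hε hts hac hta]
      rw [max_eq_left hta] at hlog
      have h6 : M / ε ^ 2 * Real.log (c / a) ≤ M / ε ^ 2 * L :=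
        mul_le_mul_of_nonneg_left hlog (by positivity)
      have h7 : M / ε ^ 2 * L = M * (1 / ε ^ 2 * L) := by ring
      linarith [mul_pos hM (by norm_num : (0:ℝ) < 4)]
    · rw [max_eq_right hta.le] at hlog
      rw [← intervalIntegral.integral_add_adjacent_intervals (GM_kf_ii hK hℓ hε hts a ts)
        (GM_kf_ii hK hℓ hε hts ts c), GM_int_lo hℓ hta.le le_rfl, GM_int_hi hε hts hc.le le_rfl]
      have h6 : M / ε ^ 2 * Real.log (c / ts) ≤ M / ε ^ 2 * L :=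
        mul_le_mul_of_nonneg_left hlog (by positivity)
      have h7 : M / ε ^ 2 * L = M * (1 / ε ^ 2 * L) := by ring
      have h8 := hA (ts - a) (by linarith) (by linarith)
      linarith

/-- The form bound along the flow. -/
theorem GM_FBd (H : GH T u p K ℓ ts ε η T₂) (hb : b < T) (hP : PG u K ℓ ts ε b) :
    ∀ t ∈ Icc 0 b, FBd (sW (u t)) (GM_kf K ℓ ts ε t) := by
  intro t ht
  have F := flow_of H.sol
  have htT : t ∈ Ico 0 T := ⟨ht.1, lt_of_le_of_lt ht.2 hb⟩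
  obtain ⟨K1, hK1⟩ := F.wbd b hb
  obtain ⟨K2, hK2⟩ := F.evO.bd b hb
  have hWc : Continuous (sW (u t)) := (svw_smooth H.sol.ns htT).2.1.continuous
  have hOc : Continuous (sO (u t)) := (svw_smooth H.sol.ns htT).2.2.continuous
  have hBL : BL K2 (sO (u t)) := DB_BL (hK2 t ht).1
  obtain ⟨hP1, hP2, hP3⟩ := hP t ht
  have hspec := (Classical.choose_spec (Classical.choose_spec form_bound)).2.2
  exact hspec (sW (u t)) (sO (u t)) K1 K2 K (sg ℓ ts ε t) hWc (hK1 t ht).1 hOc hBL.1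
    (fun θ x => sO_rot (axF_of H.sol.ns htT) θ x) H.hK (GM_sg_pos H.hℓ H.hε H.hts) hP1 hP2
    (fun x => int_div hOc hBL x) (F.ker t htT) hP3

/-- The time integral of `r ^ (-3/4)`. -/
theorem GM_rpow_int {t : ℝ} (ht : 0 ≤ t) :
    IntervalIntegrable (fun r : ℝ => r ^ (-(3/4) : ℝ)) volume 0 t ∧
      ∫ r in (0:ℝ)..t, r ^ (-(3/4) : ℝ) = 4 * t ^ (1/4 : ℝ) := by
  refine ⟨intervalIntegral.intervalIntegrable_rpow' (by norm_num), ?_⟩
  rw [integral_rpow (Or.inl (by norm_num))]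
  have h1 : (-(3/4) + 1 : ℝ) = 1/4 := by norm_num
  rw [h1, Real.zero_rpow (by norm_num)]
  ring

theorem GM_CO_pos : 0 < CO := by
  have := SB_pos
  unfold CO
  positivity

/-- The time integral of the square root of `∫ Om²`. -/
theorem GM_sqO (F : Flow T u (fun t => sV (u t)) (fun t => sW (u t)) (fun t => sO (u t))) (hK : 1 ≤ K) {t : ℝ}
    (ht0 : 0 ≤ t) (ht : t < T) (h2 : ∀ r ∈ Ioc 0 t, ∫ x, sO (u r) x ^ 2 ≤ CO * K ^ 2 * r ^ (-(3/2) : ℝ)) :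
    ∫ r in (0:ℝ)..t, √(∫ x, sO (u r) x ^ 2) ≤ 4 * √CO * K * t ^ (1/4 : ℝ) := by
  have hii := sqO_ii F (s := 0) (t := t) le_rfl ht0 ht
  obtain ⟨hr1, hr2⟩ := GM_rpow_int ht0
  have h1 : ∫ r in (0:ℝ)..t, √(∫ x, sO (u r) x ^ 2) ≤ ∫ r in (0:ℝ)..t, √CO * K * r ^ (-(3/4) : ℝ) := by
    refine intervalIntegral.integral_mono_on_of_le_Ioo ht0 hii (hr1.const_mul _) fun r hr => ?_
    have h3 := h2 r ⟨hr.1, hr.2.le⟩
    have h4 : √(∫ x, sO (u r) x ^ 2) ≤ √(CO * K ^ 2 * r ^ (-(3/2) : ℝ)) := Real.sqrt_le_sqrt h3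
    have h5 : √(CO * K ^ 2 * r ^ (-(3/2) : ℝ)) = √CO * K * r ^ (-(3/4) : ℝ) := by
      have h6 : CO * K ^ 2 * r ^ (-(3/2) : ℝ) = (√CO * K * r ^ (-(3/4) : ℝ)) ^ 2 := by
        rw [mul_pow, mul_pow, Real.sq_sqrt GM_CO_pos.le, ← Real.rpow_natCast (r ^ (-(3/4) : ℝ)) 2,
          ← Real.rpow_mul hr.1.le]
        norm_num
      rw [h6, Real.sqrt_sq]
      have : 0 ≤ r ^ (-(3/4) : ℝ) := Real.rpow_nonneg hr.1.le _
      positivity
    rw [h5] at h4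
    exact h4
  rw [intervalIntegral.integral_const_mul, hr2] at h1
  linarith

/-- The initial mass near the axis with the weight. -/
theorem GM_init {f : E3 → ℝ} (hf : Integrable f) (hℓ : 0 < ℓ) (z : ℝ) :
    ∫ x, |f x| * cb ℓ z x ≤ ∫ x in Metric.ball (axp z) ℓ, |f x| := by
  have hc := (Classical.choose_spec cutball).2 ℓ z hℓ
  obtain ⟨⟨hWg, -⟩, -, -, h0⟩ := hc
  rw [← integral_indicator measurableSet_ball]
  refine integral_mono_of_nonneg (Eventually.of_forall fun x => mul_nonneg (abs_nonneg _) (hWg.nonneg x))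
    (hf.abs.indicator measurableSet_ball) (Eventually.of_forall fun x => ?_)
  show |f x| * cb ℓ z x ≤ (Metric.ball (axp z) ℓ).indicator (fun x => |f x|) x
  by_cases hx : x ∈ Metric.ball (axp z) ℓ
  · rw [indicator_of_mem hx]
    have := mul_le_mul_of_nonneg_left (hWg.le_one x) (abs_nonneg (f x))
    linarith
  · rw [indicator_of_notMem hx]
    have h1 : ℓ ≤ ‖x - axp z‖ := by
      rw [Metric.mem_ball, not_lt, dist_eq_norm] at hx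
      exact hx
    rw [h0 x h1, mul_zero]

theorem GM_WB (hℓ : 0 < ℓ) (z : ℝ) : WB (cb ℓ z) CB ℓ :=
  ((Classical.choose_spec cutball).2 ℓ z hℓ).1

theorem gm_main (H : GH T u p K ℓ ts ε η T₂) (h0 : 0 ≤ b) (hb : b < T) (hb2 : b ≤ T₂) (hP : PG u K ℓ ts ε b) :
    MG u K ℓ ts b ∧
    (∀ t ∈ Icc 0 b, Integrable (fun x => |sV (u t) x| ^ (3/2 : ℝ)) ∧ ∫ x, |sV (u t) x| ^ (3/2 : ℝ) ≤ N1 u K ε ts T₂) ∧
    ∫ t in (0:ℝ)..b, ∫ x, |sV (u t) x| * √(gsq (sV (u t)) x) ≤ η ∧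
    (∀ t ∈ Ioc 0 b, ∫ x, sV (u t) x ^ 4 ≤ mG u K ε ts T₂ * t ^ (-(5/2) : ℝ)) := by
  have F := flow_of H.sol
  have hK := H.hK
  have hK0 : 0 < K := by linarith
  have hℓ := H.hℓ
  have hts := H.hts
  have hε := H.hε
  have hFB := GM_FBd H hb hP
  have hk0 : ∀ t ∈ Icc 0 b, 0 ≤ GM_kf K ℓ ts ε t := fun t _ => GM_kf_nonneg hK
  have hkB : ∀ t ∈ Icc 0 b, GM_kf K ℓ ts ε t ≤ 4 * (CG * K ^ 3) / ℓ ^ 2 + CG * K ^ 3 / ε ^ 2 * ts⁻¹ :=
    fun t _ => GM_kf_le hK hℓ hε hts t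
  have hki : IntervalIntegrable (GM_kf K ℓ ts ε) volume 0 b := GM_kf_ii hK hℓ hε hts 0 b
  have hT₂ : 1 ≤ T₂ / ts := (one_le_div hts).2 H.hT
  have hQ : ∫ t in (0:ℝ)..b, GM_kf K ℓ ts ε t ≤ QG K ε ts T₂ := by
    refine GM_int hK hℓ hε hts H.htl le_rfl h0 (Real.log_nonneg hT₂) fun h => ?_
    rw [max_eq_right hts.le]
    refine Real.log_le_log (div_pos (hts.trans_le h) hts) ?_
    exact div_le_div_of_nonneg_right hb2 hts.le
  have hQ' : ∀ t ∈ Ioc 0 b, ∫ r in (t/2)..t, GM_kf K ℓ ts ε r ≤ CG * K ^ 3 * (4 + 1 / ε ^ 2) := by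
    intro t ht
    have h1 : 0 < t := ht.1
    have h2 := GM_int (K := K) (ℓ := ℓ) (ε := ε) (ts := ts) hK hℓ hε hts H.htl (a := t / 2) (c := t) (L := 1)
      (by linarith) (by linarith) zero_le_one (fun h => by
        have h3 : 0 < max (t / 2) ts := lt_max_of_lt_right hts
        have h4 : t / max (t / 2) ts ≤ 2 := by
          rw [div_le_iff₀ h3]
          have := le_max_left (t / 2) ts
          linarith
        have h5 : Real.log (t / max (t / 2) ts) ≤ Real.log 2 := Real.log_le_log (by positivity) h4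
        have h6 := Real.log_two_lt_d9
        linarith)
    rw [mul_one] at h2
    exact h2
  have hN := gN F h0 hb hk0 hkB hki hFB hQ H.v1
  have hVd := gVdV F h0 hb hk0 hkB hki hFB hQ H.v1
  have hη : ∫ t in (0:ℝ)..b, ∫ x, |sV (u t) x| * √(gsq (sV (u t)) x) ≤ η := hVd.trans H.sη
  have hV4 := g_V4 F h0 hb hk0 hkB hki hFB hQ' hN
  have hV4' : ∀ t ∈ Ioc 0 b, ∫ x, sV (u t) x ^ 4 ≤ mG u K ε ts T₂ * t ^ (-(5/2) : ℝ) := hV4
  have hm0 : 0 ≤ mG u K ε ts T₂ := by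
    have h1 := SB_pos
    have h2 : 0 ≤ ∫ x, |sV (u 0) x| ^ (3/2 : ℝ) := integral_nonneg fun x => Real.rpow_nonneg (abs_nonneg _) _
    unfold mG N1
    positivity
  have hO2 := g_O2 F h0 hb hK0.le hm0 (fun t ht => ⟨(hP t ht).1, (hP t ht).2.1⟩) hV4'
  have hO2' : ∀ t ∈ Ioc 0 b, ∫ x, sO (u t) x ^ 2 ≤ CO * K ^ 2 * t ^ (-(3/2) : ℝ) := by
    intro t ht
    refine (hO2 t ht).trans (mul_le_mul_of_nonneg_right ?_ (Real.rpow_nonneg ht.1.le _))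
    have h1 := H.sμ
    unfold CO
    have h2 : (7 + 8 * (6 * SB) ^ (3/2 : ℝ)) * K ^ 2 = 7 * K ^ 2 + 8 * (6 * SB) ^ (3/2 : ℝ) * K ^ 2 := by ring
    rw [h2]
    linarith
  have hvd : ∀ t ∈ Icc 0 b, ∫ r in (0:ℝ)..t, ∫ x, |sV (u r) x| * √(gsq (sV (u r)) x) ≤ η := by
    intro t ht
    refine le_trans ?_ hη
    have h1 := vdv_ii F (a := 0) (b := t) le_rfl ht.1 (lt_of_le_of_lt ht.2 hb)
    have h2 := vdv_ii F (a := t) (b := b) ht.1 ht.2 hb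
    rw [← intervalIntegral.integral_add_adjacent_intervals h1 h2]
    have h3 : 0 ≤ ∫ r in t..b, ∫ x, |sV (u r) x| * √(gsq (sV (u r)) x) :=
      intervalIntegral.integral_nonneg ht.2 fun r _ => integral_nonneg fun x => StepJ_nn _ _
    linarith
  have hL1 : ∀ t ∈ Icc 0 b, Integrable (sO (u t)) ∧ ∫ x, |sO (u t) x| ≤ 3 / 2 * K := by
    intro t ht
    have h1 := step_O F (a := 0) (b := t) le_rfl ht.1 (lt_of_le_of_lt ht.2 hb) H.o1.1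
    refine ⟨h1.1, ?_⟩
    have h2 : ∫ x, |sO (u t) x| ≤ (∫ x, |sO (u 0) x|) + 2 * ∫ r in (0:ℝ)..t, ∫ x, |sV (u r) x| * √(gsq (sV (u r)) x) :=
      h1.2
    have h3 := hvd t ht
    have h4 := H.o1.2
    have h5 := H.sη2
    linarith
  have hax : ∀ t ∈ Icc 0 b, t ≤ ts → ∀ z, ∫ x, |sO (u t) x| * cb ℓ z x ≤ 3 / 4 * cG := by
    intro t ht htts z
    have htT : t < T := lt_of_le_of_lt ht.2 hb
    have h1 := wt_L1 H.sol (K := K) (GM_WB hℓ z) hℓ CB_pos (s := 0) (t := t) le_rfl ht.1 htT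
      (fun r hr => ⟨(hP r ⟨hr.1, hr.2.trans ht.2⟩).1, (hP r ⟨hr.1, hr.2.trans ht.2⟩).2.1⟩)
    have h2 : ∫ x, |sO (u 0) x| * cb ℓ z x ≤ cG / 2 := (GM_init H.o1.1 hℓ z).trans (H.o2 z)
    have h3 := hvd t ht
    have h4 := H.sη1
    have h5 := GM_sqO F hK ht.1 htT fun r hr => hO2' r ⟨hr.1, hr.2.trans ht.2⟩
    have h6 : t ^ (1/4 : ℝ) ≤ ts ^ (1/4 : ℝ) := Real.rpow_le_rpow ht.1 htts (by norm_num)
    have h7 : 4 * √CO * K * t ^ (1/4 : ℝ) ≤ 4 * √CO * K * ts ^ (1/4 : ℝ) :=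
      mul_le_mul_of_nonneg_left h6 (by positivity)
    have hCB := CB_pos
    have h8 : CB / ℓ * √(∫ x, ‖u 0 x‖ ^ 2) * (∫ r in (0:ℝ)..t, √(∫ x, sO (u r) x ^ 2)) ≤
        CB / ℓ * √(∫ x, ‖u 0 x‖ ^ 2) * (4 * √CO * K * ts ^ (1/4 : ℝ)) :=
      mul_le_mul_of_nonneg_left (h5.trans h7) (by positivity)
    have h9 : 4 * CB * K / ℓ ^ 2 * (t - 0) ≤ 4 * CB * K / ℓ ^ 2 * ts :=
      mul_le_mul_of_nonneg_left (by linarith) (by positivity)
    have h10 := H.st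
    linarith
  exact ⟨⟨hL1, hO2', hax⟩, hN, hη, hV4'⟩

end Pool.Agent.H87.NS
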