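/-
ROW GWt. Weighted `L¹` estimates. PROOF. cutball: `cb ℓ z x = Real.smoothTransition (4/3 (1 - ‖x - axp z‖² / ℓ²))`: `1` for `‖x - axp z‖ ≤ ℓ/2`, `0` for `≥ ℓ`. With `q = x - axp z`,
`τ = ‖q‖²/ℓ²`: `pd i χ = φ'(τ) 2 q_i / ℓ²` (`φ(τ) = smoothTransition (4/3 (1 - τ))`, `φ', φ''` bounded, zero outside `[1/4, 1]`), `|adv w χ| ≤ (C/ℓ) ‖w‖`, `lap χ = φ'' 4 τ / ℓ² + 6 φ' / ℓ²`,
`rdr χ = φ' 2 rsq / ℓ²` (`q₀ = x₀`, `q₁ = x₁`). For `1 - χ` the derivatives change sign.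
wt_L1: evg for `Om` and `j = ja κ` on `[0, t]`: in `evJ`: `- j'' gsq χ ≤ 0`; `|j'(Om) 2 V pd 2 V χ| ≤ 2 |V| √(gsq V)`; `j(Om) ≤ |Om|`, so
`∫ evJ ≤ 2 ∫ |V| √gsq V + (c/ℓ) ∫ |Om| ‖u‖ + (2c/ℓ²) ∫ |Om|`, and `∫ |Om| ‖u‖ ≤ √(∫ Om²) √(∫ ‖u‖²)` (Cauchy-Schwarz) with `∫ ‖u r‖² ≤ ∫ ‖u 0‖²` (energy1). Let `κ = 1/(n+1) → 0` (dominated
convergence, `Om t`, `Om 0` integrable, ja_tend). The right hand side is integrated in time: `r ↦ √(∫ Om(r)²)` is bounded and interval integrable (see ww_ii), `r ↦ ∫ |Om r|` is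
interval integrable and `≤ 2K` (or estimate `∫ evJ` directly by `2 ∫ |V| √gsq V + (c/ℓ) √E √(∫ Om²) + (2c/ℓ²) 2K`).
-/
import Pool.Agent.H87.NC.EVg
import Pool.Agent.H87.NS.StepJ
import Pool.Agent.H87.NS.Pig
import Pool.Agent.H87.NS.FlowOf
import Pool.Agent.H87.NS.Wb

set_option autoImplicit false

open Set Filter Topology MeasureTheory
open scoped ContDiff

namespace Pool.Agent.H87.NS

open Pool.Agent.H16

/-- Bounds of a weight of size `ℓ`. -/
def WB (χ : E3 → ℝ) (C ℓ : ℝ) : Prop :=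
  Wg χ ∧ (∀ x w, |adv w χ x| ≤ C / ℓ * ‖w‖) ∧ (∀ x, |lap χ x| ≤ C / ℓ ^ 2) ∧ (∀ x, |2 / rsq x * rdr χ x| ≤ C / ℓ ^ 2)

/-- The cut-off of the ball with centre `axp z` and radius `ℓ`. -/
noncomputable def cb (ℓ z : ℝ) (x : E3) : ℝ := Real.smoothTransition (4 / 3 * (1 - ‖x - axp z‖ ^ 2 / ℓ ^ 2))

/-! ### The cut-off of a ball -/

private noncomputable def GWt_g (s : ℝ) : ℝ := Real.smoothTransition (4 / 3 * (1 - s))

private theorem GWt_g_smooth : ContDiff ℝ ∞ GWt_g :=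
  Real.smoothTransition.contDiff.comp (contDiff_const.mul (contDiff_const.sub contDiff_id))

private theorem GWt_g_one {s : ℝ} (h : s ≤ 1 / 4) : GWt_g s = 1 :=
  Real.smoothTransition.one_of_one_le (by linarith)

private theorem GWt_g_zero {s : ℝ} (h : 1 ≤ s) : GWt_g s = 0 :=
  Real.smoothTransition.zero_of_nonpos (by linarith)

private theorem GWt_d_far {s : ℝ} (h : 1 < s) : deriv GWt_g s = 0 := by
  have e : GWt_g =ᶠ[𝓝 s] fun _ => 0 := by
    filter_upwards [lt_mem_nhds h] with y hy using GWt_g_zero hy.le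
  rw [e.deriv_eq, deriv_const]

private theorem GWt_d_near {s : ℝ} (h : s < 1 / 4) : deriv GWt_g s = 0 := by
  have e : GWt_g =ᶠ[𝓝 s] fun _ => 1 := by
    filter_upwards [gt_mem_nhds h] with y hy using GWt_g_one hy.le
  rw [e.deriv_eq, deriv_const]

private theorem GWt_dd_far {s : ℝ} (h : 1 < s) : deriv (deriv GWt_g) s = 0 := by
  have e : deriv GWt_g =ᶠ[𝓝 s] fun _ => 0 := by
    filter_upwards [lt_mem_nhds h] with y hy using GWt_d_far hy
  rw [e.deriv_eq, deriv_const]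

private theorem GWt_dd_near {s : ℝ} (h : s < 1 / 4) : deriv (deriv GWt_g) s = 0 := by
  have e : deriv GWt_g =ᶠ[𝓝 s] fun _ => 0 := by
    filter_upwards [gt_mem_nhds h] with y hy using GWt_d_near hy
  rw [e.deriv_eq, deriv_const]

private theorem GWt_d_smooth : ContDiff ℝ ∞ (deriv GWt_g) :=
  (contDiff_infty_iff_deriv.1 GWt_g_smooth).2

private theorem GWt_step : ∃ C : ℝ, 0 < C ∧ (∀ s, |deriv GWt_g s| ≤ C) ∧
    (∀ s, |deriv (deriv GWt_g) s| ≤ C) := by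
  have hc : HasCompactSupport (deriv GWt_g) := by
    refine HasCompactSupport.intro (isCompact_Icc (a := (1 / 4 : ℝ)) (b := 1)) fun s hs => ?_
    rw [mem_Icc, not_and_or, not_le, not_le] at hs
    rcases hs with h | h
    · exact GWt_d_near h
    · exact GWt_d_far h
  have hc2 : HasCompactSupport (deriv (deriv GWt_g)) := by
    refine HasCompactSupport.intro (isCompact_Icc (a := (1 / 4 : ℝ)) (b := 1)) fun s hs => ?_
    rw [mem_Icc, not_and_or, not_le, not_le] at hs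
    rcases hs with h | h
    · exact GWt_dd_near h
    · exact GWt_dd_far h
  obtain ⟨C, hC⟩ := GWt_d_smooth.continuous.bounded_above_of_compact_support hc
  obtain ⟨C2, hC2⟩ := (GWt_d_smooth.continuous_deriv (by simp)).bounded_above_of_compact_support hc2
  have h0 := (norm_nonneg _).trans (hC 0)
  refine ⟨max C C2 + 1, ?_, fun s => ?_, fun s => ?_⟩
  · have := le_max_left C C2
    linarith
  · have h1 := hC s
    rw [Real.norm_eq_abs] at h1
    have := le_max_left C C2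
    linarith
  · have h1 := hC2 s
    rw [Real.norm_eq_abs] at h1
    have := le_max_right C C2
    linarith

private theorem GWt_pd_nsq (c : ℝ) (a : E3) (i : Fin 3) (x : E3) :
    pd i (fun y : E3 => c * ‖y - a‖ ^ 2) x = c * (2 * (x i - a i)) := by
  have h := (((hasFDerivAt_id x).sub_const a).norm_sq).const_mul c
  unfold pd
  have h2 : HasFDerivAt (fun y : E3 => c * ‖y - a‖ ^ 2) _ x := h
  rw [h2.fderiv]
  simp [e, EuclideanSpace.inner_single_right]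

private theorem GWt_pd_coord (c : ℝ) (a : E3) (i : Fin 3) (x : E3) :
    pd i (fun y : E3 => c * (2 * (y i - a i))) x = c * 2 := by
  have h : HasFDerivAt (fun y : E3 => y i) (EuclideanSpace.proj i : E3 →L[ℝ] ℝ) x :=
    (EuclideanSpace.proj i : E3 →L[ℝ] ℝ).hasFDerivAt
  have h2 := ((h.sub_const (a i)).const_mul 2).const_mul c
  unfold pd
  rw [h2.fderiv]
  simp [e]

private theorem GWt_pd_mul {A B : E3 → ℝ} (hA : ContDiff ℝ 1 A) (hB : ContDiff ℝ 1 B) (i : Fin 3)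
    (x : E3) : pd i (fun y => A y * B y) x = A x * pd i B x + B x * pd i A x := by
  unfold pd
  rw [fderiv_fun_mul (hA.differentiable (by simp) x) (hB.differentiable (by simp) x)]
  simp

private theorem GWt_cb (ℓ z : ℝ) : cb ℓ z = fun x => GWt_g (1 / ℓ ^ 2 * ‖x - axp z‖ ^ 2) := by
  funext x
  unfold cb GWt_g
  congr 3
  ring

private theorem GWt_tau_smooth (ℓ z : ℝ) : ContDiff ℝ ∞ (fun y : E3 => 1 / ℓ ^ 2 * ‖y - axp z‖ ^ 2) :=
  contDiff_const.mul ((contDiff_id.sub contDiff_const).norm_sq ℝ)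

private theorem GWt_pd (ℓ z : ℝ) (i : Fin 3) (x : E3) : pd i (cb ℓ z) x =
    deriv GWt_g (1 / ℓ ^ 2 * ‖x - axp z‖ ^ 2) * (1 / ℓ ^ 2 * (2 * (x i - axp z i))) := by
  rw [GWt_cb, comp_pd (f := fun y : E3 => 1 / ℓ ^ 2 * ‖y - axp z‖ ^ 2) (H := GWt_g)
      ((GWt_tau_smooth ℓ z).of_le (by simp)) (GWt_g_smooth.of_le (by simp)) i x, GWt_pd_nsq]

private theorem GWt_pd2 (ℓ z : ℝ) (i : Fin 3) (x : E3) : pd i (pd i (cb ℓ z)) x =
    deriv GWt_g (1 / ℓ ^ 2 * ‖x - axp z‖ ^ 2) * (1 / ℓ ^ 2 * 2) +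
      1 / ℓ ^ 2 * (2 * (x i - axp z i)) * (deriv (deriv GWt_g) (1 / ℓ ^ 2 * ‖x - axp z‖ ^ 2) *
        (1 / ℓ ^ 2 * (2 * (x i - axp z i)))) := by
  have e1 : pd i (cb ℓ z) = fun x : E3 =>
      deriv GWt_g (1 / ℓ ^ 2 * ‖x - axp z‖ ^ 2) * (1 / ℓ ^ 2 * (2 * (x i - axp z i))) :=
    funext fun x => GWt_pd ℓ z i x
  have hl : ContDiff ℝ 1 (fun y : E3 => 1 / ℓ ^ 2 * (2 * (y i - axp z i))) := by fun_prop
  rw [e1, GWt_pd_mul (A := fun x : E3 => deriv GWt_g (1 / ℓ ^ 2 * ‖x - axp z‖ ^ 2))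
    (B := fun x : E3 => 1 / ℓ ^ 2 * (2 * (x i - axp z i)))
    ((GWt_d_smooth.comp (GWt_tau_smooth ℓ z)).of_le (by simp)) hl i x,
    GWt_pd_coord, comp_pd (f := fun y : E3 => 1 / ℓ ^ 2 * ‖y - axp z‖ ^ 2) (H := deriv GWt_g)
    ((GWt_tau_smooth ℓ z).of_le (by simp)) (GWt_d_smooth.of_le (by simp)) i x, GWt_pd_nsq]

private theorem GWt_nsq (x : E3) : ‖x‖ ^ 2 = x 0 ^ 2 + x 1 ^ 2 + x 2 ^ 2 := by
  rw [EuclideanSpace.real_norm_sq_eq, Fin.sum_univ_three]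

private theorem GWt_coord_le (x : E3) (i : Fin 3) : |x i| ≤ ‖x‖ := by
  have h := PiLp.norm_apply_le x i
  simpa using h

private theorem GWt_rsq_nonneg (x : E3) : 0 ≤ rsq x := by
  unfold rsq
  positivity

/-- the estimates of the cut-off -/
private theorem GWt_est {C : ℝ} (hC : 0 < C) (h1 : ∀ s, |deriv GWt_g s| ≤ C)
    (h2 : ∀ s, |deriv (deriv GWt_g) s| ≤ C) {ℓ : ℝ} (hℓ : 0 < ℓ) (z : ℝ) (x : E3) :
    (∀ w, |adv w (cb ℓ z) x| ≤ 6 * C / ℓ * ‖w‖) ∧ (|lap (cb ℓ z) x| ≤ 10 * C / ℓ ^ 2) ∧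
      rdr (cb ℓ z) x = 2 / ℓ ^ 2 * deriv GWt_g (1 / ℓ ^ 2 * ‖x - axp z‖ ^ 2) * rsq x ∧
      ∀ i, |pd i (cb ℓ z) x| ≤ 2 * C / ℓ := by
  set τ : ℝ := 1 / ℓ ^ 2 * ‖x - axp z‖ ^ 2 with hτ
  have hτ0 : 0 ≤ τ := by positivity
  -- the partial derivatives
  have hp : ∀ i, |pd i (cb ℓ z) x| ≤ 2 * C / ℓ := by
    intro i
    rw [GWt_pd, ← hτ]
    rcases lt_or_ge 1 τ with h | h
    · rw [GWt_d_far h, zero_mul, abs_zero]
      positivity
    · have h3 : ‖x - axp z‖ ≤ ℓ := by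
        have h4 : ‖x - axp z‖ ^ 2 ≤ ℓ ^ 2 := by
          rw [hτ, div_mul_eq_mul_div, one_mul, div_le_one (by positivity)] at h
          exact h
        exact le_of_pow_le_pow_left₀ two_ne_zero hℓ.le h4
      have h5 : |x i - axp z i| ≤ ℓ := by
        have h6 := GWt_coord_le (x - axp z) i
        have h7 : (x - axp z) i = x i - axp z i := rfl
        rw [h7] at h6
        exact h6.trans h3
      have h8 : |1 / ℓ ^ 2 * (2 * (x i - axp z i))| ≤ 2 / ℓ := by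
        rw [abs_mul, abs_mul, abs_of_nonneg (by positivity : (0 : ℝ) ≤ 1 / ℓ ^ 2),
          abs_of_nonneg (by norm_num : (0 : ℝ) ≤ 2)]
        calc 1 / ℓ ^ 2 * (2 * |x i - axp z i|) ≤ 1 / ℓ ^ 2 * (2 * ℓ) := by gcongr
          _ = 2 / ℓ := by field_simp
      rw [abs_mul]
      calc |deriv GWt_g τ| * |1 / ℓ ^ 2 * (2 * (x i - axp z i))| ≤ C * (2 / ℓ) :=
            mul_le_mul (h1 _) h8 (abs_nonneg _) hC.le
        _ = 2 * C / ℓ := by ring
  refine ⟨fun w => ?_, ?_, ?_, hp⟩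
  · unfold adv
    refine (Finset.abs_sum_le_sum_abs _ _).trans ?_
    have h3 : ∀ i ∈ (Finset.univ : Finset (Fin 3)), |w i * pd i (cb ℓ z) x| ≤
        ‖w‖ * (2 * C / ℓ) := fun i _ => by
      rw [abs_mul]
      exact mul_le_mul (GWt_coord_le w i) (hp i) (abs_nonneg _) (norm_nonneg _)
    refine (Finset.sum_le_sum h3).trans (le_of_eq ?_)
    rw [Finset.sum_const, Finset.card_univ, Fintype.card_fin, nsmul_eq_mul]
    norm_num
    ring
  · have e1 : lap (cb ℓ z) x = 1 / ℓ ^ 2 * (6 * deriv GWt_g τ + 4 * (deriv (deriv GWt_g) τ * τ)) := by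
      unfold lap
      simp only [GWt_pd2]
      rw [← hτ]
      have e2 : ‖x - axp z‖ ^ 2 = (x 0 - axp z 0) ^ 2 + (x 1 - axp z 1) ^ 2 + (x 2 - axp z 2) ^ 2 := by
        rw [GWt_nsq]
        rfl
      have e3 : τ = 1 / ℓ ^ 2 * ((x 0 - axp z 0) ^ 2 + (x 1 - axp z 1) ^ 2 + (x 2 - axp z 2) ^ 2) := by
        rw [hτ, e2]
      rw [Fin.sum_univ_three]
      have e4 : deriv (deriv GWt_g) τ * τ = deriv (deriv GWt_g) τ *
          (1 / ℓ ^ 2 * ((x 0 - axp z 0) ^ 2 + (x 1 - axp z 1) ^ 2 + (x 2 - axp z 2) ^ 2)) := by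
        rw [← e3]
      rw [e4]
      ring
    rw [e1, abs_mul, abs_of_nonneg (by positivity : (0 : ℝ) ≤ 1 / ℓ ^ 2)]
    have e5 : |deriv (deriv GWt_g) τ * τ| ≤ C := by
      rcases lt_or_ge 1 τ with h | h
      · rw [GWt_dd_far h, zero_mul, abs_zero]
        exact hC.le
      · rw [abs_mul, abs_of_nonneg hτ0]
        calc |deriv (deriv GWt_g) τ| * τ ≤ C * 1 := mul_le_mul (h2 _) h hτ0 hC.le
          _ = C := mul_one C
    have e6 : |6 * deriv GWt_g τ + 4 * (deriv (deriv GWt_g) τ * τ)| ≤ 10 * C := by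
      have e7 := abs_le.1 (h1 τ)
      have e8 := abs_le.1 e5
      rw [abs_le]
      constructor <;> linarith [e7.1, e7.2, e8.1, e8.2]
    calc 1 / ℓ ^ 2 * |6 * deriv GWt_g τ + 4 * (deriv (deriv GWt_g) τ * τ)| ≤
        1 / ℓ ^ 2 * (10 * C) := by gcongr
      _ = 10 * C / ℓ ^ 2 := by ring
  · unfold rdr rsq
    rw [GWt_pd, GWt_pd, ← hτ]
    have e0 : axp z 0 = 0 := by simp [axp]
    have e1 : axp z 1 = 0 := by simp [axp]
    rw [e0, e1]
    ring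

private theorem GWt_rdr {ℓ C q : ℝ} (hℓ : 0 < ℓ) (hq : |q| ≤ C) {x : E3} {r : ℝ}
    (hr : r = 2 / ℓ ^ 2 * q * rsq x) : |2 / rsq x * r| ≤ 4 * C / ℓ ^ 2 := by
  have hC : 0 ≤ C := (abs_nonneg _).trans hq
  rcases (GWt_rsq_nonneg x).eq_or_lt with h | h
  · rw [← h, div_zero, zero_mul, abs_zero]
    positivity
  · have e1 : 2 / rsq x * r = 4 / ℓ ^ 2 * q := by
      rw [hr]
      field_simp
      ring
    rw [e1, abs_mul, abs_of_nonneg (by positivity : (0 : ℝ) ≤ 4 / ℓ ^ 2)]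
    calc 4 / ℓ ^ 2 * |q| ≤ 4 / ℓ ^ 2 * C := by gcongr
      _ = 4 * C / ℓ ^ 2 := by ring

private theorem GWt_WB {C : ℝ} (hC : 0 < C) (h1 : ∀ s, |deriv GWt_g s| ≤ C)
    (h2 : ∀ s, |deriv (deriv GWt_g) s| ≤ C) {ℓ : ℝ} (hℓ : 0 < ℓ) (z : ℝ) :
    WB (cb ℓ z) (10 * C) ℓ := by
  have hE := fun x => GWt_est hC h1 h2 hℓ z x
  refine ⟨⟨?_, fun x => Real.smoothTransition.nonneg _, fun x => Real.smoothTransition.le_one _,
    ⟨10 * C / ℓ + 10 * C / ℓ ^ 2, fun x => ⟨fun i => ?_, ?_, ?_⟩⟩⟩, fun x w => ?_, fun x => ?_,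
    fun x => ?_⟩
  · rw [GWt_cb]
    exact GWt_g_smooth.comp (GWt_tau_smooth ℓ z)
  · have h3 := (hE x).2.2.2 i
    have h4 : 2 * C / ℓ ≤ 10 * C / ℓ := by gcongr; norm_num
    have h5 : 0 ≤ 10 * C / ℓ ^ 2 := by positivity
    linarith
  · have h3 := (hE x).2.1
    have h5 : 0 ≤ 10 * C / ℓ := by positivity
    linarith
  · rw [(hE x).2.2.1, abs_mul, abs_mul, abs_of_nonneg (GWt_rsq_nonneg x),
      abs_of_nonneg (by positivity : (0 : ℝ) ≤ 2 / ℓ ^ 2)]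
    refine mul_le_mul_of_nonneg_right ?_ (GWt_rsq_nonneg x)
    have h3 : 2 / ℓ ^ 2 * |deriv GWt_g (1 / ℓ ^ 2 * ‖x - axp z‖ ^ 2)| ≤ 2 / ℓ ^ 2 * C := by
      gcongr
      exact h1 _
    have h4 : 2 / ℓ ^ 2 * C ≤ 10 * C / ℓ ^ 2 := by
      rw [div_mul_eq_mul_div]
      gcongr
      norm_num
    have h5 : 0 ≤ 10 * C / ℓ := by positivity
    linarith
  · refine ((hE x).1 w).trans ?_
    gcongr
    norm_num
  · exact (hE x).2.1
  · refine (GWt_rdr hℓ (h1 _) (hE x).2.2.1).trans ?_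
    gcongr
    norm_num

private theorem GWt_pd_sub (χ : E3 → ℝ) (i : Fin 3) (x : E3) :
    pd i (fun y => 1 - χ y) x = - pd i χ x := by
  unfold pd
  rw [fderiv_const_sub]
  rfl

private theorem GWt_pd_neg (χ : E3 → ℝ) (i : Fin 3) (x : E3) :
    pd i (fun y => - χ y) x = - pd i χ x := by
  unfold pd
  rw [fderiv_fun_neg]
  rfl

private theorem GWt_compl {χ : E3 → ℝ} {C ℓ : ℝ} (h : WB χ C ℓ) : WB (fun x => 1 - χ x) C ℓ := by
  obtain ⟨⟨hs, h0, h1, K, hK⟩, ha, hl, hr⟩ := h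
  have e1 : ∀ i x, pd i (fun y => 1 - χ y) x = - pd i χ x := GWt_pd_sub χ
  have e2 : ∀ i x, pd i (pd i (fun y => 1 - χ y)) x = - pd i (pd i χ) x := by
    intro i x
    have : pd i (fun y => 1 - χ y) = fun y => - pd i χ y := funext fun y => e1 i y
    rw [this, GWt_pd_neg]
  have e3 : ∀ x, lap (fun y => 1 - χ y) x = - lap χ x := by
    intro x
    unfold lap
    rw [← Finset.sum_neg_distrib]
    exact Finset.sum_congr rfl fun i _ => e2 i x
  have e4 : ∀ x, rdr (fun y => 1 - χ y) x = - rdr χ x := by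
    intro x
    unfold rdr
    rw [e1, e1]
    ring
  have e5 : ∀ w x, adv w (fun y => 1 - χ y) x = - adv w χ x := by
    intro w x
    unfold adv
    rw [← Finset.sum_neg_distrib]
    refine Finset.sum_congr rfl fun i _ => ?_
    rw [e1]
    ring
  refine ⟨⟨contDiff_const.sub hs, fun x => ?_, fun x => ?_, K, fun x => ⟨fun i => ?_, ?_, ?_⟩⟩,
    fun x w => ?_, fun x => ?_, fun x => ?_⟩
  · have := h1 x
    show 0 ≤ 1 - χ x
    linarith
  · have := h0 x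
    show 1 - χ x ≤ 1
    linarith
  · rw [e1, abs_neg]
    exact (hK x).1 i
  · rw [e3, abs_neg]
    exact (hK x).2.1
  · rw [e4, abs_neg]
    exact (hK x).2.2
  · rw [e5, abs_neg]
    exact ha x w
  · rw [e3, abs_neg]
    exact hl x
  · rw [e4, mul_neg, abs_neg]
    exact hr x

theorem cutball : ∃ C : ℝ, 0 < C ∧ ∀ (ℓ z : ℝ), 0 < ℓ → WB (cb ℓ z) C ℓ ∧ WB (fun x => 1 - cb ℓ z x) C ℓ ∧
    (∀ x, ‖x - axp z‖ ≤ ℓ / 2 → cb ℓ z x = 1) ∧ (∀ x, ℓ ≤ ‖x - axp z‖ → cb ℓ z x = 0) := by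
  obtain ⟨C, hC, h1, h2⟩ := GWt_step
  refine ⟨10 * C, by positivity, fun ℓ z hℓ => ?_⟩
  have hW := GWt_WB hC h1 h2 hℓ z
  refine ⟨hW, GWt_compl hW, fun x hx => ?_, fun x hx => ?_⟩
  · rw [GWt_cb]
    refine GWt_g_one ?_
    have h3 : ‖x - axp z‖ ^ 2 ≤ (ℓ / 2) ^ 2 := pow_le_pow_left₀ (norm_nonneg _) hx 2
    rw [div_mul_eq_mul_div, one_mul, div_le_iff₀ (by positivity)]
    linarith
  · rw [GWt_cb]
    refine GWt_g_zero ?_
    have h3 : ℓ ^ 2 ≤ ‖x - axp z‖ ^ 2 := pow_le_pow_left₀ hℓ.le hx 2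
    rw [div_mul_eq_mul_div, one_mul, le_div_iff₀ (by positivity)]
    linarith

/-- The constant of the cut-offs. -/
noncomputable def CB : ℝ := Classical.choose cutball

theorem CB_pos : 0 < CB := (Classical.choose_spec cutball).1

/-! ### The estimates -/

theorem sqO_ii {T : ℝ} {u : ℝ → E3 → E3} {V W Om : ℝ → E3 → ℝ} (F : Flow T u V W Om) {s t : ℝ} (hs : 0 ≤ s)
    (hst : s ≤ t) (ht : t < T) : IntervalIntegrable (fun r => √(∫ x, Om r x ^ 2)) volume s t := by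
  obtain ⟨K, hK⟩ := F.evO.bd t ht
  have hJ1 : JC T (fun t x => Om t x ^ 2) := ContinuousOn.pow F.evO.cont 2
  have h1 := Real.continuous_sqrt.comp_aestronglyMeasurable (TI_meas hJ1 ht hs)
  rw [intervalIntegrable_iff_integrableOn_Icc_of_le hst]
  refine Integrable.of_bound h1 (√K) ?_
  refine ae_restrict_of_forall_mem measurableSet_Icc fun r hr => ?_
  have h4 := (DB_BL (hK r ⟨hs.trans hr.1, hr.2⟩).1).2.2
  show ‖√(∫ x, Om r x ^ 2)‖ ≤ √K
  rw [Real.norm_eq_abs, abs_of_nonneg (Real.sqrt_nonneg _)]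
  exact Real.sqrt_le_sqrt h4

private theorem GWt_le {f g : E3 → ℝ} (hfg : ∀ x, f x ≤ g x) (hg : ∀ x, 0 ≤ g x) (hi : Integrable g) :
    ∫ x, f x ≤ ∫ x, g x := by
  by_cases hf : Integrable f
  · exact integral_mono hf hi hfg
  · rw [integral_undef hf]
    exact integral_nonneg hg

private theorem GWt_tii {f g : ℝ → ℝ} {a b : ℝ} (hab : a ≤ b) (hfg : ∀ t ∈ Icc a b, f t ≤ g t)
    (hg : ∀ t ∈ Icc a b, 0 ≤ g t) (hi : IntervalIntegrable g volume a b) :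
    ∫ t in a..b, f t ≤ ∫ t in a..b, g t := by
  by_cases hf : IntervalIntegrable f volume a b
  · exact intervalIntegral.integral_mono_on hab hf hi hfg
  · rw [intervalIntegral.integral_undef hf]
    exact intervalIntegral.integral_nonneg hab hg

private theorem GWt_int3 {f g k : E3 → ℝ} (a b c : ℝ) (hf : Integrable f) (hg : Integrable g)
    (hk : Integrable k) :
    ∫ x, (a * f x + b * g x + c * k x) = a * (∫ x, f x) + b * (∫ x, g x) + c * (∫ x, k x) := by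
  have h1 : Integrable (fun x => a * f x + b * g x) := (hf.const_mul a).add (hg.const_mul b)
  rw [integral_add h1 (hk.const_mul c), integral_add (hf.const_mul a) (hg.const_mul b),
    integral_const_mul, integral_const_mul, integral_const_mul]

/-- Pointwise bound of the integrand. -/
private theorem GWt_pt {κ : ℝ} (hκ : 0 < κ) (v : E3 → E3) (f V χ : E3 → ℝ) (x : E3) {A B1 B2 : ℝ}
    (h0 : 0 ≤ χ x) (h1 : χ x ≤ 1)
    (hadv : ∀ w, |adv w χ x| ≤ A * ‖w‖) (hlap : |lap χ x| ≤ B1) (hrdr : |2 / rsq x * rdr χ x| ≤ B2) :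
    evJ (ja κ) v f (fun x => 2 * V x * pd 2 V x) χ x ≤
      2 * (|V x| * √(gsq V x)) + A * (|f x| * ‖v x‖) + (B1 + B2) * |f x| := by
  have hj := ja_le hκ (f x)
  have t1 : 0 ≤ deriv (deriv (ja κ)) (f x) * gsq f x * χ x :=
    mul_nonneg (mul_nonneg ((ja_jfun hκ).convex _) (gsq_nonneg f x)) h0
  have t2 : deriv (ja κ) (f x) * (2 * V x * pd 2 V x) * χ x ≤ 2 * (|V x| * √(gsq V x)) := by
    refine (le_abs_self _).trans ?_
    rw [abs_mul, abs_mul, abs_mul, abs_mul, abs_two, abs_of_nonneg h0]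
    have e1 := ja_deriv hκ (f x)
    have e2 := pd_le_gsq V 2 x
    have e3 : |V x| * |pd 2 V x| ≤ |V x| * √(gsq V x) := mul_le_mul_of_nonneg_left e2 (abs_nonneg _)
    have e4 : 0 ≤ |V x| * |pd 2 V x| := by positivity
    calc |deriv (ja κ) (f x)| * (2 * |V x| * |pd 2 V x|) * χ x
        ≤ 1 * (2 * |V x| * |pd 2 V x|) * 1 := by gcongr
      _ = 2 * (|V x| * |pd 2 V x|) := by ring
      _ ≤ 2 * (|V x| * √(gsq V x)) := by linarith
  have t3 : ja κ (f x) * (adv (v x) χ x + lap χ x - 2 / rsq x * rdr χ x) ≤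
      A * (|f x| * ‖v x‖) + (B1 + B2) * |f x| := by
    have e1 : adv (v x) χ x + lap χ x - 2 / rsq x * rdr χ x ≤ A * ‖v x‖ + (B1 + B2) := by
      have := (abs_le.1 (hadv (v x))).2
      have := (abs_le.1 hlap).2
      have := (abs_le.1 hrdr).1
      linarith
    have e2 : 0 ≤ A * ‖v x‖ + (B1 + B2) := by
      have := (abs_nonneg _).trans (hadv (v x))
      have hB1 : 0 ≤ B1 := (abs_nonneg _).trans hlap
      have hB2 : 0 ≤ B2 := (abs_nonneg _).trans hrdr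
      linarith
    calc ja κ (f x) * (adv (v x) χ x + lap χ x - 2 / rsq x * rdr χ x)
        ≤ ja κ (f x) * (A * ‖v x‖ + (B1 + B2)) := mul_le_mul_of_nonneg_left e1 hj.1
      _ ≤ |f x| * (A * ‖v x‖ + (B1 + B2)) := mul_le_mul_of_nonneg_right hj.2.1 e2
      _ = A * (|f x| * ‖v x‖) + (B1 + B2) * |f x| := by ring
  unfold evJ
  linarith

theorem wt_L1 {T : ℝ} {u : ℝ → E3 → E3} {p : ℝ → E3 → ℝ} (h : IsHInfAxisymNS T u p) {χ : E3 → ℝ} {C ℓ K : ℝ}
    (hχ : WB χ C ℓ) (hℓ : 0 < ℓ) (hC : 0 < C) {s t : ℝ} (hs : 0 ≤ s) (hst : s ≤ t) (ht : t < T)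
    (hO : ∀ r ∈ Icc s t, Integrable (sO (u r)) ∧ ∫ x, |sO (u r) x| ≤ 2 * K) :
    ∫ x, |sO (u t) x| * χ x ≤ (∫ x, |sO (u s) x| * χ x)
      + 2 * (∫ r in s..t, ∫ x, |sV (u r) x| * √(gsq (sV (u r)) x))
      + C / ℓ * √(∫ x, ‖u 0 x‖ ^ 2) * (∫ r in s..t, √(∫ x, sO (u r) x ^ 2)) + 4 * C * K / ℓ ^ 2 * (t - s) := by
  have F := flow_of h
  obtain ⟨hw, hadv, hlap, hrdr⟩ := hχ
  set e₀ := ∫ x, ‖u 0 x‖ ^ 2 with he₀
  have he0 : 0 ≤ e₀ := integral_nonneg fun x => sq_nonneg _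
  have hK0 : 0 ≤ 2 * K := (integral_nonneg fun x => abs_nonneg _).trans (hO s ⟨le_rfl, hst⟩).2
  set Q := C / ℓ ^ 2 + C / ℓ ^ 2 with hQ
  have hQ0 : 0 ≤ Q := by positivity
  have hmem : ∀ {r}, r ∈ Icc s t → r ∈ Ico 0 T := fun h => ⟨hs.trans h.1, h.2.trans_lt ht⟩
  have hmem0 : ∀ {r}, r ∈ Icc s t → r ∈ Icc 0 t := fun h => ⟨hs.trans h.1, h.2⟩
  obtain ⟨Ku, hKu⟩ := F.drift.bd t ht
  obtain ⟨Kv, -, hKv⟩ := vdv_bd F ht
  obtain ⟨KO, hKO⟩ := F.evO.bd t ht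
  have hsm : ∀ r ∈ Icc s t, Continuous (sO (u r)) := fun r hr =>
    (F.evO.smooth r (hmem hr)).continuous
  -- the bound of the integral at a fixed time
  have key : ∀ κ > 0, ∀ r ∈ Icc s t,
      ∫ x, evJ (ja κ) (u r) (sO (u r)) (fun x => 2 * sV (u r) x * pd 2 (sV (u r)) x) χ x ≤
      2 * (∫ x, |sV (u r) x| * √(gsq (sV (u r)) x)) +
      C / ℓ * √e₀ * √(∫ x, sO (u r) x ^ 2) + Q * (2 * K) := by
    intro κ hκ r hr
    obtain ⟨hIO, hKO'⟩ := hO r hr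
    have hi1 := (hKv r (hmem0 hr)).1
    have hcu : Continuous (u r) := (F.drift.smooth r (hmem hr)).continuous
    have hi2 : Integrable (fun x => |sO (u r) x| * ‖u r x‖) := by
      refine Integrable.mono' (hIO.abs.mul_const Ku)
        ((hsm r hr).abs.mul hcu.norm).aestronglyMeasurable ?_
      refine Eventually.of_forall fun x => ?_
      rw [Real.norm_eq_abs, abs_of_nonneg (by positivity)]
      exact mul_le_mul_of_nonneg_left (hKu r (hmem0 hr) x) (abs_nonneg _)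
    have hle := GWt_le
      (f := fun x => evJ (ja κ) (u r) (sO (u r)) (fun x => 2 * sV (u r) x * pd 2 (sV (u r)) x) χ x)
      (g := fun x => 2 * (|sV (u r) x| * √(gsq (sV (u r)) x)) +
        C / ℓ * (|sO (u r) x| * ‖u r x‖) + Q * |sO (u r) x|)
      (fun x => GWt_pt hκ (u r) (sO (u r)) (sV (u r)) χ x (hw.nonneg x) (hw.le_one x)
        (hadv x) (hlap x) (hrdr x))
      (fun x => by positivity)
      (((hi1.const_mul 2).add (hi2.const_mul (C / ℓ))).add (hIO.abs.const_mul Q))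
    refine hle.trans ?_
    rw [GWt_int3 2 (C / ℓ) Q hi1 hi2 hIO.abs]
    have hen := (energy1 h (hmem hr)).2
    have hcs : ∫ x, |sO (u r) x| * ‖u r x‖ ≤ √(∫ x, sO (u r) x ^ 2) * √(∫ x, ‖u r x‖ ^ 2) := by
      have h3 : Integrable (fun x => |sO (u r) x| ^ 2) := by
        simp only [sq_abs]
        exact (DB_BL (hKO r (hmem0 hr)).1).2.1
      have h4 := hint_cs (μ := volume) (g := fun x => |sO (u r) x|) (h := fun x => ‖u r x‖)
        (fun x => abs_nonneg _) (fun x => norm_nonneg _) (hsm r hr).abs.aestronglyMeasurable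
        hcu.norm.aestronglyMeasurable h3 (dsq_int h (hmem hr)).2
      simp only [sq_abs] at h4
      exact h4
    have h3 : √(∫ x, ‖u r x‖ ^ 2) ≤ √e₀ := Real.sqrt_le_sqrt hen
    have h4 : C / ℓ * (∫ x, |sO (u r) x| * ‖u r x‖) ≤ C / ℓ * √e₀ * √(∫ x, sO (u r) x ^ 2) := by
      calc C / ℓ * (∫ x, |sO (u r) x| * ‖u r x‖)
          ≤ C / ℓ * (√(∫ x, sO (u r) x ^ 2) * √(∫ x, ‖u r x‖ ^ 2)) :=
            mul_le_mul_of_nonneg_left hcs (by positivity)
        _ ≤ C / ℓ * (√(∫ x, sO (u r) x ^ 2) * √e₀) := by gcongr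
        _ = C / ℓ * √e₀ * √(∫ x, sO (u r) x ^ 2) := by ring
    have h5 : Q * (∫ x, |sO (u r) x|) ≤ Q * (2 * K) := mul_le_mul_of_nonneg_left hKO' hQ0
    linarith
  have hg0 : ∀ r, 0 ≤ ∫ x, |sV (u r) x| * √(gsq (sV (u r)) x) := fun r =>
    integral_nonneg fun x => by positivity
  have hgi := vdv_ii F hs hst ht
  have hdi := sqO_ii F hs hst ht
  -- the inequality with the regularised absolute value
  have main : ∀ κ > 0, ∫ x, ja κ (sO (u t) x) * χ x ≤ (∫ x, |sO (u s) x| * χ x) +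
      (2 * (∫ r in s..t, ∫ x, |sV (u r) x| * √(gsq (sV (u r)) x))
      + C / ℓ * √e₀ * (∫ r in s..t, √(∫ x, sO (u r) x ^ 2)) + (t - s) * (Q * (2 * K))) := by
    intro κ hκ
    have h1 := evg F.drift F.evO (ja_jfun hκ) hw hs hst ht
    have hχc : Continuous χ := hw.smooth.continuous
    have h2 : ∫ x, ja κ (sO (u s) x) * χ x ≤ ∫ x, |sO (u s) x| * χ x := by
      have hI1 := (hO s ⟨le_rfl, hst⟩).1
      refine GWt_le (fun x => ?_) (fun x => mul_nonneg (abs_nonneg _) (hw.nonneg x)) ?_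
      · exact mul_le_mul_of_nonneg_right (ja_le hκ _).2.1 (hw.nonneg x)
      · refine Integrable.mono' hI1.abs ((hsm s ⟨le_rfl, hst⟩).abs.mul hχc).aestronglyMeasurable ?_
        refine Eventually.of_forall fun x => ?_
        rw [Real.norm_eq_abs, abs_of_nonneg (mul_nonneg (abs_nonneg _) (hw.nonneg x))]
        exact mul_le_of_le_one_right (abs_nonneg _) (hw.le_one x)
    have hBi : IntervalIntegrable (fun r => 2 * (∫ x, |sV (u r) x| * √(gsq (sV (u r)) x)) +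
        C / ℓ * √e₀ * √(∫ x, sO (u r) x ^ 2) + Q * (2 * K)) volume s t :=
      ((hgi.const_mul 2).add (hdi.const_mul (C / ℓ * √e₀))).add intervalIntegrable_const
    have h3 := GWt_tii hst (key κ hκ) (fun r _ => by
      have := hg0 r
      positivity) hBi
    have h4 : ∫ r in s..t, (2 * (∫ x, |sV (u r) x| * √(gsq (sV (u r)) x)) +
        C / ℓ * √e₀ * √(∫ x, sO (u r) x ^ 2) + Q * (2 * K)) =
        2 * (∫ r in s..t, ∫ x, |sV (u r) x| * √(gsq (sV (u r)) x))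
      + C / ℓ * √e₀ * (∫ r in s..t, √(∫ x, sO (u r) x ^ 2)) + (t - s) * (Q * (2 * K)) := by
      rw [intervalIntegral.integral_add ((hgi.const_mul 2).add (hdi.const_mul (C / ℓ * √e₀)))
          intervalIntegrable_const,
        intervalIntegral.integral_add (hgi.const_mul 2) (hdi.const_mul (C / ℓ * √e₀)),
        intervalIntegral.integral_const_mul, intervalIntegral.integral_const_mul,
        intervalIntegral.integral_const, smul_eq_mul]
    have h9 : ∫ x, ja κ (sO (u t) x) * χ x ≤ (∫ x, ja κ (sO (u s) x) * χ x) +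
      ∫ r in s..t, ∫ x, evJ (ja κ) (u r) (sO (u r))
        (fun x => 2 * sV (u r) x * pd 2 (sV (u r)) x) χ x := h1
    linarith
  -- the limit
  obtain ⟨hI1, -⟩ := hO t ⟨hst, le_rfl⟩
  have hc1 := hsm t ⟨hst, le_rfl⟩
  have hχc : Continuous χ := hw.smooth.continuous
  have hκn : ∀ n : ℕ, (0 : ℝ) < 1 / ((n : ℝ) + 1) := fun n => by positivity
  have hlim : Tendsto (fun n : ℕ => ∫ x, ja (1 / ((n : ℝ) + 1)) (sO (u t) x) * χ x) atTop
      (𝓝 (∫ x, |sO (u t) x| * χ x)) := by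
    refine tendsto_integral_of_dominated_convergence (fun x => |sO (u t) x|) ?_ hI1.abs ?_ ?_
    · intro n
      exact (((ja_jfun (hκn n)).smooth.continuous.comp hc1).mul hχc).aestronglyMeasurable
    · intro n
      refine ae_of_all _ fun x => ?_
      have hj := ja_le (hκn n) (sO (u t) x)
      rw [Real.norm_eq_abs, abs_of_nonneg (mul_nonneg hj.1 (hw.nonneg x))]
      calc _ ≤ |sO (u t) x| * 1 :=
            mul_le_mul hj.2.1 (hw.le_one x) (hw.nonneg x) (abs_nonneg _)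
        _ = _ := mul_one _
    · exact ae_of_all _ fun x => (ja_tend (sO (u t) x)).mul_const (χ x)
  have hfin := le_of_tendsto' hlim fun n => main _ (hκn n)
  have hQe : (t - s) * (Q * (2 * K)) = 4 * C * K / ℓ ^ 2 * (t - s) := by
    rw [hQ]
    ring
  rw [hQe] at hfin
  linarith

end Pool.Agent.H87.NS
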